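import Mathlib

set_option autoImplicit false

/-!
# Undecidability of the upper left corner problem for 2x2 integer matrices: definitions

Number systems (`Sys`, `Der`), the finite control (`St`, `Src`), the marks `m1 .. m7`, the
level invariant `LOK` and the stack invariant `SI`. See proofs 266.
-/

namespace Pool.Agent.H75.MX

/-- binary rules: `(false, X, Y, Z)` is `X → Y + Z`, `(true, X, Y, Z)` is `X → Y ∩ Z` -/
abbrev Rl (V : Type) : Type := Bool × V × V × V

/-- number systems over a set `V` of nonterminals; `leaf X = some none` means that the parameter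
is an element of `X`, `leaf X = some (some k)` that the constant `k` is one -/
structure Sys (V : Type) where
  bin : Set (Rl V)
  leaf : V → Option (Option ℕ)
  main : V

/-- `Der S c X n`: the number `n` is in the set of `X` in the least solution of `S` with
parameter `c` -/
inductive Der {V : Type} (S : Sys V) (c : ℕ) : V → ℕ → Prop
  | leaf {X : V} {o : Option ℕ} : S.leaf X = some o → Der S c X (o.getD c)
  | sum {X Y Z : V} {m n : ℕ} : (false, X, Y, Z) ∈ S.bin → Der S c Y m → Der S c Z n →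
      Der S c X (m + n)
  | cap {X Y Z : V} {n : ℕ} : (true, X, Y, Z) ∈ S.bin → Der S c Y n → Der S c Z n →
      Der S c X n

/-- call sites: the root, the first call (`false`) and the second call (`true`) of a rule -/
abbrev Site (V : Type) : Type := Option (Rl V × Bool)

/-- states of the finite control -/
inductive St (V : Type) : Type
  | start : St V
  | fin : St V
  | P (s : Site V) (ρ : Rl V) : St V
  | Q4 (ρ : Rl V) : St V
  | Q7 (ρ : Rl V) : St V
  | Q8 (ρ : Rl V) : St V

variable {V : Type}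

/-- the nonterminal called at a site -/
def callee (S : Sys V) : Site V → V
  | none => S.main
  | some (ρ, false) => ρ.2.2.1
  | some (ρ, true) => ρ.2.2.2

/-- the state after the return to a site -/
def tgt : Site V → St V
  | none => St.fin
  | some (ρ, false) => St.Q4 ρ
  | some (ρ, true) => St.Q7 ρ

/-- marks. Tags: A = 1, A' = 3, B = 9, E = 27, G = 81 -/
def m1 (ρ : Rl V) : ℤ := if ρ.1 = true then 4 else 1
def m2 (_ρ : Rl V) : ℤ := 9
def m3 (ρ : Rl V) : ℤ := if ρ.1 = true then -1 else 81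
def m4 (ρ : Rl V) : ℤ := if ρ.1 = true then 27 else -54
def m5 (ρ : Rl V) : ℤ := if ρ.1 = true then 78 else -1
def m6 (ρ : Rl V) : ℤ := if ρ.1 = true then -81 else -27
def m7 (ρ : Rl V) : ℤ := if ρ.1 = true then -36 else -9

/-- the mark made after the return to a site -/
def post : Site V → ℤ
  | none => 1
  | some (ρ, false) => m3 ρ
  | some (ρ, true) => m5 ρ

/-- numerical parameters -/
structure Par (V : Type) where
  p : ℕ
  hp : p.Prime
  Bd : ℤ
  rt : Site V → ℤ
  H : St V → ℤ
  J : St V → ℤ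
  rt_ge : ∀ s, 500 ≤ rt s
  rt_le : ∀ s, rt s ≤ Bd
  rt_sep : ∀ s s', s ≠ s' → 500 ≤ |rt s - rt s'|
  H_ge : ∀ q, 2 * Bd + 1000 ≤ H q
  H_sep : ∀ q q', q ≠ q' → 2 * Bd + 1000 ≤ |H q - H q'|
  H_p : ∀ q q', H q + H q' + 2 * Bd + 1000 < p
  J_start : J St.start = 0
  J_ge : ∀ q, q ≠ St.start → 1000 ≤ J q
  J_inj : Function.Injective J
  J_p : ∀ q q', |J q - J q'| < p
  JH_p : ∀ q q', J q + H q' + 2 * Bd + 1000 < p

/-- call sites with their source state and the mark made before the call -/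
inductive Src (P : Par V) : Site V → St V → ℤ → Prop
  | root : Src P none St.start 0
  | one (s : Site V) (ρ : Rl V) : Src P (some (ρ, false)) (St.P s ρ) (m2 ρ + P.rt s)
  | two (ρ : Rl V) : Src P (some (ρ, true)) (St.Q4 ρ) (m4 ρ)

/-- contents of levels -/
abbrev Cont : Type := ℤ →₀ ℤ

/-- a mark of coefficient `c` at height `h` -/
noncomputable abbrev mk (h c : ℤ) : Cont := Finsupp.single h c

/-- how a level was started -/
inductive Kind (V : Type) : Type
  | base : Kind V
  | fresh (s : Site V) : Kind V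
  | cont : Kind V
  | tok (q : St V) : Kind V

/-- level invariant: kind of the level, control state, start exponent, current exponent, content -/
inductive LOK (S : Sys V) (c : ℕ) (P : Par V) : Kind V → St V → ℤ → ℤ → Cont → Prop
  | base : LOK S c P Kind.base St.start 0 0 0
  | fresh (s : Site V) (ρ : Rl V) (σ : ℤ) : ρ ∈ S.bin → ρ.2.1 = callee S s →
      LOK S c P (Kind.fresh s) (St.P s ρ) σ σ (mk σ (m1 ρ))
  | cont (s : Site V) (σ : ℤ) : LOK S c P Kind.cont (tgt s) σ σ (mk σ (post s))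
  | tok (q : St V) (σ : ℤ) : q ≠ St.fin → LOK S c P (Kind.tok q) q σ σ (mk σ (-P.H q))
  | loop {k : Kind V} {q : St V} {σ η : ℤ} {F : Cont} : LOK S c P k q σ η F →
      q ≠ St.start → q ≠ St.fin → LOK S c P k q σ (η - 1) F
  | six {k : Kind V} {ρ : Rl V} {σ η : ℤ} {F : Cont} : LOK S c P k (St.Q7 ρ) σ η F →
      LOK S c P k (St.Q8 ρ) σ η (F + mk η (m6 ρ))
  | call {k : Kind V} {s : Site V} {q : St V} {a σ η : ℤ} {F : Cont} {n : ℕ} :
      LOK S c P k q σ η F → Src P s q a → Der S c (callee S s) n →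
      LOK S c P k (tgt s) σ (η + n) (F + mk η a + mk (η + n) (post s))

/-- the level is not a token level just after its start -/
def NT (k : Kind V) (q : St V) (σ η : ℤ) : Prop := ∀ q0, k = Kind.tok q0 → q = q0 → η ≠ σ

/-- stack invariant: contents of the frozen levels (top first), kind and start exponent of the
current level -/
inductive SI (S : Sys V) (c : ℕ) (P : Par V) : List Cont → Kind V → ℤ → Prop
  | nil : SI S c P [] Kind.base 0
  | call {L : List Cont} {k : Kind V} {s : Site V} {q : St V} {a σ η : ℤ} {F : Cont} :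
      SI S c P L k σ → LOK S c P k q σ η F → Src P s q a →
      SI S c P ((F + mk η a) :: L) (Kind.fresh s) (-η)
  | pop {L : List Cont} {k : Kind V} {ρ : Rl V} {σ η : ℤ} {F : Cont} (s : Site V) :
      SI S c P L k σ → LOK S c P k (St.Q8 ρ) σ η F → F + mk η (m7 ρ - P.rt s) ≠ 0 →
      SI S c P ((F + mk η (m7 ρ - P.rt s)) :: L) Kind.cont (-η)
  | token {L : List Cont} {k : Kind V} {q : St V} {σ η : ℤ} {F : Cont} (q' : St V) :
      SI S c P L k σ → LOK S c P k q σ η F → NT k q σ η → q ≠ St.fin → q ≠ q' →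
      SI S c P (mk (-η) (P.J q - P.J q') :: (F + mk η (P.H q)) :: L) (Kind.tok q') η
  | tokenE {L : List Cont} {k : Kind V} {σ η : ℤ} {F : Cont} (q' : St V) :
      SI S c P L k σ → LOK S c P k St.fin σ η F →
      SI S c P ((F + mk η (-P.J q')) :: L) (Kind.tok q') (-η)

/-- the value of a content -/
noncomputable def val (p : ℕ) (F : Cont) : ℚ := F.sum fun h c => (c : ℚ) * (p : ℚ) ^ (4 * h - 1)

/-- the vector of a stack of frozen levels -/
noncomputable def vec (p : ℕ) : List Cont → ℚ × ℚ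
  | [] => (-1, 0)
  | F :: L => ((vec p L).2, val p F * (vec p L).2 - (vec p L).1)

/-- `r` is, up to a nonzero scalar, the row vector of the configuration `(L, F, η)` -/
def Rep (p : ℕ) (r : ℚ × ℚ) (L : List Cont) (F : Cont) (η : ℤ) : Prop :=
  ∃ t : ℚ, t ≠ 0 ∧ r.1 = t * ((vec p L).2 * (p : ℚ) ^ (4 * η)) ∧
    r.2 = t * (val p F * (vec p L).2 - (vec p L).1)

/-- action of a mark, of `S` and of `D ^ k` on row vectors -/
def aT (p : ℕ) (c : ℤ) (r : ℚ × ℚ) : ℚ × ℚ := (r.1, r.2 + r.1 * ((c : ℚ) / p))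
def aS (r : ℚ × ℚ) : ℚ × ℚ := (r.2, -r.1)
def aD (p : ℕ) (k : ℤ) (r : ℚ × ℚ) : ℚ × ℚ := (r.1 * (p : ℚ) ^ (4 * k), r.2)

/-- tokens -/
def aX (P : Par V) (q : St V) (r : ℚ × ℚ) : ℚ × ℚ := aT P.p (P.J q) (aS (aT P.p (P.H q) r))
def aXi (P : Par V) (q : St V) (r : ℚ × ℚ) : ℚ × ℚ := aT P.p (-P.H q) (aS (aT P.p (-P.J q) r))

/-- bounded contents -/
def Bdd (p : ℕ) (F : Cont) : Prop := ∀ h, |F h| < p

/-- some nonzero coefficient at or below `x` -/
def Low (F : Cont) (x : ℤ) : Prop := ∃ h, h ≤ x ∧ F h ≠ 0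

/-- the chain condition for frozen levels -/
def Ch (p : ℕ) : List Cont → Prop
  | [] => False
  | [_F] => True
  | F :: F' :: L => Bdd p F ∧ F ≠ 0 ∧ (vec p (F :: F' :: L)).1 ≠ 0 ∧ (vec p (F :: F' :: L)).2 ≠ 0 ∧
      padicValRat p (vec p (F :: F' :: L)).2 - padicValRat p (vec p (F :: F' :: L)).1 ≤
        padicValRat p (val p F)

/-- exactness -/
def Ex (p : ℕ) : List Cont → Prop
  | [] => False
  | [_F] => True
  | F :: F' :: L => padicValRat p (vec p (F :: F' :: L)).2 -
      padicValRat p (vec p (F :: F' :: L)).1 = padicValRat p (val p F)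

/-- the top frozen level has a nonzero coefficient at or below `x` (no condition for the base) -/
def TopLow : List Cont → ℤ → Prop
  | [], _ => False
  | [_F], _ => True
  | F :: _ :: _, x => Low F x

/-- what the stack invariant gives -/
def SJ (p : ℕ) (L : List Cont) (k : Kind V) (σ : ℤ) : Prop :=
  (L = [] ∧ k = Kind.base) ∨
    (k ≠ Kind.base ∧ Ch p L ∧ (TopLow L (-σ) ∨ Ex p L) ∧ (k ≠ Kind.cont → TopLow L (-σ)))

/-- edges of the finite control with their action on row vectors -/
inductive Edg (S : Sys V) (c : ℕ) (P : Par V) : St V → (ℚ × ℚ → ℚ × ℚ) → St V → Prop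
  | call {s : Site V} {q : St V} {a : ℤ} (ρ : Rl V) : Src P s q a → ρ ∈ S.bin →
      ρ.2.1 = callee S s →
      Edg S c P q (fun r => aT P.p (m1 ρ) (aS (aT P.p a r))) (St.P s ρ)
  | leaf {s : Site V} {q : St V} {a : ℤ} {o : Option ℕ} : Src P s q a →
      S.leaf (callee S s) = some o →
      Edg S c P q (fun r => aT P.p (post s) (aD P.p ((o.getD c : ℕ) : ℤ) (aT P.p a r))) (tgt s)
  | ret (ρ : Rl V) (s : Site V) :
      Edg S c P (St.Q8 ρ) (fun r => aT P.p (post s) (aS (aT P.p (m7 ρ - P.rt s) r))) (tgt s)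
  | six (ρ : Rl V) : Edg S c P (St.Q7 ρ) (fun r => aT P.p (m6 ρ) r) (St.Q8 ρ)
  | loop (q : St V) : q ≠ St.start → q ≠ St.fin → Edg S c P q (fun r => aD P.p (-1) r) q

/-- token of a state, trivial for the final state -/
def aXf (P : Par V) : St V → ℚ × ℚ → ℚ × ℚ
  | St.fin, r => r
  | St.start, r => aX P St.start r
  | St.P s ρ, r => aX P (St.P s ρ) r
  | St.Q4 ρ, r => aX P (St.Q4 ρ) r
  | St.Q7 ρ, r => aX P (St.Q7 ρ) r
  | St.Q8 ρ, r => aX P (St.Q8 ρ) r

/-- `Run S c P m r q`: after `m` generators the last state is `q` and the row vector is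
`aXf P q r` -/
inductive Run (S : Sys V) (c : ℕ) (P : Par V) : ℕ → ℚ × ℚ → St V → Prop
  | init : Run S c P 0 (0, 1) St.start
  | step {m : ℕ} {r : ℚ × ℚ} {q q' q'' : St V} {g : ℚ × ℚ → ℚ × ℚ} : Run S c P m r q →
      Edg S c P q' g q'' → Run S c P (m + 1) (g (aXi P q' (aXf P q r))) q''

/-- the invariant of runs -/
def Inv (S : Sys V) (c : ℕ) (P : Par V) (r : ℚ × ℚ) (q : St V) : Prop :=
  ∃ (L : List Cont) (k : Kind V) (σ η : ℤ) (F : Cont), SI S c P L k σ ∧ LOK S c P k q σ η F ∧
    NT k q σ η ∧ Rep P.p r L F η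

/-- all derivable numbers are positive -/
def Pos (S : Sys V) (c : ℕ) : Prop := ∀ X n, Der S c X n → 1 ≤ n

end Pool.Agent.H75.MX
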