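import Mathlib
import Pool.Agent.H75.MX.Defs

set_option autoImplicit false

/-!
[H75 MX VAL] values of contents.

`val p F = ∑ F h * p ^ (4 h - 1)`. The valuation lemma: let `l` be the smallest element of the
support of `F` (F ≠ 0). Then `val p F = p ^ (4 l - 1) * (F l + p * N)` with an integer `N`
(each other term has `h ≥ l + 1`, so `p ^ (4 (h - l))` is divisible by `p`), and `p ∤ F l` because
`0 < |F l| < p`. So the integer `F l + p * N` is prime to `p`, hence nonzero, of valuation `0`.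
Useful: `padicValRat.mul`, `padicValRat.zpow` (or `padicValRat.self_pow`), `padicValRat.of_int`,
`padicValInt.eq_zero_of_not_dvd`, `Finsupp.sum_add_index'`, `Finsupp.sum_single_index`.
-/

namespace Pool.Agent.H75.MX

theorem val_zero (p : ℕ) : val p 0 = 0 := by
  simp [val]

theorem val_add (p : ℕ) (F G : Cont) : val p (F + G) = val p F + val p G := by
  unfold val
  exact Finsupp.sum_add_index' (fun h => by simp) (fun h a b => by push_cast; ring)

theorem val_mk (p : ℕ) (h c : ℤ) : val p (mk h c) = (c : ℚ) * (p : ℚ) ^ (4 * h - 1) := by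
  unfold val
  exact Finsupp.sum_single_index (by simp)

theorem val_ord {p : ℕ} (hp : p.Prime) {F : Cont} (hB : Bdd p F) (hF : F ≠ 0) :
    ∃ l : ℤ, F l ≠ 0 ∧ (∀ h, F h ≠ 0 → l ≤ h) ∧ val p F ≠ 0 ∧
      padicValRat p (val p F) = 4 * l - 1 := by
  have : Fact p.Prime := ⟨hp⟩
  have hp0 : (p : ℚ) ≠ 0 := by exact_mod_cast hp.ne_zero
  have hne : F.support.Nonempty := Finsupp.support_nonempty_iff.2 hF
  set l := F.support.min' hne with hl
  have hl1 : F l ≠ 0 := Finsupp.mem_support_iff.1 (Finset.min'_mem _ _)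
  have hl2 : ∀ h, F h ≠ 0 → l ≤ h := fun h hh =>
    Finset.min'_le _ _ (Finsupp.mem_support_iff.2 hh)
  -- the integer part
  set N : ℤ := ∑ h ∈ F.support.erase l, F h * (p : ℤ) ^ (4 * (h - l) - 1).toNat with hN
  have hval : val p F = (p : ℚ) ^ (4 * l - 1) * ((F l + p * N : ℤ) : ℚ) := by
    unfold val
    rw [Finsupp.sum, ← Finset.add_sum_erase _ _ (Finsupp.mem_support_iff.2 hl1)]
    push_cast
    rw [hN]
    push_cast
    rw [mul_add, Finset.mul_sum, Finset.mul_sum]
    congr 1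
    · ring
    · refine Finset.sum_congr rfl fun h hh => ?_
      have h1 : h ≠ l := (Finset.mem_erase.1 hh).1
      have h2 : l ≤ h := hl2 h (Finsupp.mem_support_iff.1 (Finset.mem_erase.1 hh).2)
      have h3 : 0 ≤ 4 * (h - l) - 1 := by omega
      have h4 : (p : ℚ) ^ (4 * (h - l) - 1).toNat = (p : ℚ) ^ (4 * (h - l) - 1 : ℤ) := by
        rw [← zpow_natCast, Int.toNat_of_nonneg h3]
      rw [h4]
      have h5 : (p : ℚ) ^ (4 * h - 1 : ℤ) =
          (p : ℚ) ^ (4 * l - 1 : ℤ) * ((p : ℚ) * (p : ℚ) ^ (4 * (h - l) - 1 : ℤ)) := by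
        rw [← zpow_one_add₀ hp0, ← zpow_add₀ hp0]
        congr 1
        ring
      rw [h5]
      ring
  have hnd : ¬ ((p : ℤ) ∣ F l + p * N) := by
    intro hd
    have h1 : (p : ℤ) ∣ F l := by
      have := dvd_sub hd (dvd_mul_right (p : ℤ) N)
      simpa using this
    have h2 := Int.le_of_dvd (abs_pos.2 hl1) ((dvd_abs _ _).2 h1)
    have h3 := hB l
    omega
  have hz : (F l + p * N : ℤ) ≠ 0 := fun h0 => hnd (h0 ▸ dvd_zero _)
  have hzq : ((F l + p * N : ℤ) : ℚ) ≠ 0 := by exact_mod_cast hz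
  refine ⟨l, hl1, hl2, ?_, ?_⟩
  · rw [hval]
    exact mul_ne_zero (zpow_ne_zero _ hp0) hzq
  · rw [hval, padicValRat.mul (zpow_ne_zero _ hp0) hzq, padicValRat.zpow, padicValRat.of_int,
      padicValInt.eq_zero_of_not_dvd hnd]
    have : padicValRat p (p : ℚ) = 1 := padicValRat.self hp.one_lt
    rw [this]
    simp

end Pool.Agent.H75.MX
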