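import Mathlib
import Pool.Agent.H75.MX.Val

set_option autoImplicit false

/-!
[H75 MX CHAIN] the p-adic chain lemma. Uses only `val_ord` from `Val.lean` (leave its `sorry`s
alone, it is another module).

`vec p (F :: L) = (v, val F * v - u)` where `(u, v) = vec p L`, `vec p [] = (-1, 0)`.

`vec_ne`: for `L = [F]` one gets `vec p [F] = (0, 1)`; for longer lists it is part of `Ch`.

`freeze`: let `F` be nonzero (`Low`), bounded, with a nonzero coefficient at or below `x`.
Write `ord = padicValRat p`, `ord (val F) = 4 l - 1` with `l ≤ x` (`val_ord`, minimality of `l`).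
Case `L = [F']`: `vec p L = (0, 1)`, new vector `(1, val F)`; all claims are clear.
Case `L = F' :: F'' :: L'`: `(u, v) = vec p L`, `u, v ≠ 0`, `ord v - ord u ≤ ord (val F')`,
`ord (val F') = 4 l' - 1`. New vector `(v, val F * v - u)`.
* if `TopLow L (-x)`: then `l' ≤ -x`, so `l + l' ≤ 0`, `ord (val F) + ord (val F') ≤ -2 < 0`, hence
  `ord (val F * v) < ord u`, so `val F * v - u ≠ 0` has the order of `val F * v` and
  `ord (new v) - ord (new u) = ord (val F)`: `Ex` and `Ch`.
* if `Ex p L`: `ord v - ord u = ord (val F') = 4 l' - 1`. If `l + l' ≤ 0` as before. Otherwise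
  `ord (val F) + ord (val F') ≥ 2 > 0`, `ord (val F * v) > ord u`, so `val F * v - u ≠ 0` has order
  `ord u` and `ord (new v) - ord v = ord u - ord v = - ord (val F') < ord (val F)`: `Ch`.
Useful: `padicValRat.add_eq_of_lt`, `padicValRat.mul`, `padicValRat.neg`, `Fact p.Prime`.
-/

namespace Pool.Agent.H75.MX

theorem vec_ne {p : ℕ} {L : List Cont} (h : Ch p L) : (vec p L).2 ≠ 0 := by
  match L, h with
  | [F], _ => simp [vec]
  | F :: F' :: L, h => exact h.2.2.2.1

theorem chain_sub {p : ℕ} [Fact p.Prime] {x u : ℚ} (hx : x ≠ 0) (hu : u ≠ 0)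
    (h : padicValRat p x < padicValRat p u) :
    x - u ≠ 0 ∧ padicValRat p (x - u) = padicValRat p x := by
  have hne : x - u ≠ 0 := by
    intro h0
    have : x = u := sub_eq_zero.1 h0
    rw [this] at h
    exact lt_irrefl _ h
  refine ⟨hne, ?_⟩
  rw [sub_eq_add_neg] at hne ⊢
  exact padicValRat.add_eq_of_lt hne hx (neg_ne_zero.2 hu) (by rwa [padicValRat.neg])

theorem chain_sub' {p : ℕ} [Fact p.Prime] {x u : ℚ} (hx : x ≠ 0) (hu : u ≠ 0)
    (h : padicValRat p u < padicValRat p x) :
    x - u ≠ 0 ∧ padicValRat p (x - u) = padicValRat p u := by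
  obtain ⟨h1, h2⟩ := chain_sub hu hx h
  have h3 : x - u = -(u - x) := by ring
  rw [h3, padicValRat.neg]
  exact ⟨neg_ne_zero.2 h1, h2⟩

theorem freeze {p : ℕ} (hp : p.Prime) {L : List Cont} {F : Cont} {x : ℤ} (hL : Ch p L)
    (hB : Bdd p F) (hF : Low F x) (hT : TopLow L (-x) ∨ Ex p L) :
    Ch p (F :: L) ∧ (TopLow L (-x) → Ex p (F :: L)) := by
  have : Fact p.Prime := ⟨hp⟩
  obtain ⟨h, hhx, hFh⟩ := hF
  have hF0 : F ≠ 0 := by
    rintro rfl
    exact hFh rfl
  obtain ⟨l, hl1, hl2, hv0, hv⟩ := val_ord hp hB hF0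
  have hlx : l ≤ x := (hl2 h hFh).trans hhx
  match L, hL, hT with
  | [F'], _, _ =>
    have h1 : vec p (F :: [F']) = (1, val p F) := by simp [vec]
    refine ⟨⟨hB, hF0, ?_, ?_, ?_⟩, fun _ => ?_⟩
    · rw [h1]; exact one_ne_zero
    · rw [h1]; exact hv0
    · rw [h1]; simp
    · show padicValRat p (vec p (F :: [F'])).2 - padicValRat p (vec p (F :: [F'])).1 = _
      rw [h1]; simp
  | F' :: F'' :: L, hL, hT =>
    obtain ⟨hB', hF0', hu, hvv, hle⟩ := hL
    set u := (vec p (F' :: F'' :: L)).1 with hudef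
    set v := (vec p (F' :: F'' :: L)).2 with hvdef
    obtain ⟨l', hl1', hl2', hv0', hv'⟩ := val_ord hp hB' hF0'
    have h1 : vec p (F :: F' :: F'' :: L) = (v, val p F * v - u) := rfl
    have hx0 : val p F * v ≠ 0 := mul_ne_zero hv0 hvv
    have hxv : padicValRat p (val p F * v) = padicValRat p (val p F) + padicValRat p v :=
      padicValRat.mul hv0 hvv
    -- good case
    have good : l + l' ≤ 0 → Ch p (F :: F' :: F'' :: L) ∧ Ex p (F :: F' :: F'' :: L) := by
      intro hll
      have h2 : padicValRat p (val p F * v) < padicValRat p u := by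
        rw [hxv]; rw [hv'] at hle; omega
      obtain ⟨h3, h4⟩ := chain_sub hx0 hu h2
      have h5 : padicValRat p (val p F * v - u) - padicValRat p v = padicValRat p (val p F) := by
        rw [h4, hxv]; ring
      refine ⟨⟨hB, hF0, ?_, ?_, ?_⟩, ?_⟩
      · rw [h1]; exact hvv
      · rw [h1]; exact h3
      · rw [h1]; exact le_of_eq h5
      · show padicValRat p (vec p (F :: F' :: F'' :: L)).2 -
          padicValRat p (vec p (F :: F' :: F'' :: L)).1 = _
        rw [h1]; exact h5
    have hgoodT : TopLow (F' :: F'' :: L) (-x) → l + l' ≤ 0 := by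
      rintro ⟨h', hh', hF'h⟩
      have := hl2' h' hF'h
      omega
    refine ⟨?_, fun hT' => (good (hgoodT hT')).2⟩
    rcases hT with hT | hT
    · exact (good (hgoodT hT)).1
    · by_cases hll : l + l' ≤ 0
      · exact (good hll).1
      · have hT' : padicValRat p v - padicValRat p u = padicValRat p (val p F') := hT
        have h2 : padicValRat p u < padicValRat p (val p F * v) := by
          rw [hxv]; rw [hv'] at hT'; omega
        obtain ⟨h3, h4⟩ := chain_sub' hx0 hu h2
        refine ⟨hB, hF0, ?_, ?_, ?_⟩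
        · rw [h1]; exact hvv
        · rw [h1]; exact h3
        · rw [h1]
          show padicValRat p (val p F * v - u) - padicValRat p v ≤ _
          rw [h4, hv]
          rw [hv'] at hT'
          omega

end Pool.Agent.H75.MX
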