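import Mathlib
import Pool.Agent.H75.MX.Defs

set_option autoImplicit false

/-! Integer matrices of the generators: definitions. -/

namespace Pool.Agent.H75.MX

variable {V : Type}

/-- the matrix with the given entries -/
def toM (x : ℤ × ℤ × ℤ × ℤ) : Matrix (Fin 2) (Fin 2) ℤ := !![x.1, x.2.1; x.2.2.1, x.2.2.2]

/-- `y.1 + W * y.2` -/
def comb (W : ℤ) (y : (ℤ × ℤ × ℤ × ℤ) × (ℤ × ℤ × ℤ × ℤ)) : ℤ × ℤ × ℤ × ℤ :=
  (y.1.1 + W * y.2.1, y.1.2.1 + W * y.2.2.1, y.1.2.2.1 + W * y.2.2.2.1,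
    y.1.2.2.2 + W * y.2.2.2.2)

/-- action of an integer matrix on row vectors -/
def rowA (M : Matrix (Fin 2) (Fin 2) ℤ) (r : ℚ × ℚ) : ℚ × ℚ :=
  (r.1 * (M 0 0 : ℚ) + r.2 * (M 1 0 : ℚ), r.1 * (M 0 1 : ℚ) + r.2 * (M 1 1 : ℚ))

/-- edges with their action as a function of the parameter -/
inductive Edg' (S : Sys V) (P : Par V) : St V → (ℕ → ℚ × ℚ → ℚ × ℚ) → St V → Prop
  | call {s : Site V} {q : St V} {a : ℤ} (ρ : Rl V) : Src P s q a → ρ ∈ S.bin →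
      ρ.2.1 = callee S s →
      Edg' S P q (fun _ r => aT P.p (m1 ρ) (aS (aT P.p a r))) (St.P s ρ)
  | leaf {s : Site V} {q : St V} {a : ℤ} {o : Option ℕ} : Src P s q a →
      S.leaf (callee S s) = some o →
      Edg' S P q (fun c r => aT P.p (post s) (aD P.p ((o.getD c : ℕ) : ℤ) (aT P.p a r))) (tgt s)
  | ret (ρ : Rl V) (s : Site V) :
      Edg' S P (St.Q8 ρ) (fun _ r => aT P.p (post s) (aS (aT P.p (m7 ρ - P.rt s) r))) (tgt s)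
  | six (ρ : Rl V) : Edg' S P (St.Q7 ρ) (fun _ r => aT P.p (m6 ρ) r) (St.Q8 ρ)
  | loop (q : St V) : q ≠ St.start → q ≠ St.fin → Edg' S P q (fun _ r => aD P.p (-1) r) q

theorem edg_iff {S : Sys V} {c : ℕ} {P : Par V} {q q' : St V} {g : ℚ × ℚ → ℚ × ℚ} :
    Edg S c P q g q' ↔ ∃ G, Edg' S P q G q' ∧ g = G c := by
  constructor
  · intro h
    cases h with
    | call ρ h1 h2 h3 => exact ⟨_, Edg'.call ρ h1 h2 h3, rfl⟩
    | leaf h1 h2 => exact ⟨_, Edg'.leaf h1 h2, rfl⟩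
    | ret ρ s => exact ⟨_, Edg'.ret ρ s, rfl⟩
    | six ρ => exact ⟨_, Edg'.six ρ, rfl⟩
    | loop q h1 h2 => exact ⟨_, Edg'.loop q h1 h2, rfl⟩
  · rintro ⟨G, h, rfl⟩
    cases h with
    | call ρ h1 h2 h3 => exact Edg.call ρ h1 h2 h3
    | leaf h1 h2 => exact Edg.leaf h1 h2
    | ret ρ s => exact Edg.ret ρ s
    | six ρ => exact Edg.six ρ
    | loop q h1 h2 => exact Edg.loop q h1 h2

/-- `y` represents the generator of the edge `q -G-> q'` -/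
def Repr (P : Par V) (q : St V) (G : ℕ → ℚ × ℚ → ℚ × ℚ) (q' : St V)
    (y : (ℤ × ℤ × ℤ × ℤ) × (ℤ × ℤ × ℤ × ℤ)) : Prop :=
  ∀ c : ℕ, ∃ t : ℚ, t ≠ 0 ∧ ∀ r : ℚ × ℚ,
    rowA (toM (comb ((P.p : ℤ) ^ (4 * c)) y)) r = t • aXf P q' (G c (aXi P q r))

end Pool.Agent.H75.MX
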