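import Mathlib
import Pool.Agent.H75.MX.Defs

set_option autoImplicit false

/-!
# Vector systems and their number systems: definitions

`VS K Q`: systems of sets of vectors in `ℕ ^ (K + 1)` with the rules
`0 ∈ q`, `n e_0 ∈ q` (parameter `n`), `q ⊇ q' + e_i`, `q ⊇ q' ∩ q''`.
Vectors are coded by `code K x = ∑ l, 2 ^ (2 l + 2 (K + 1) x l)`.
`nsys T q0` is a number system over the nonterminals `NTm K Q` for `T`.
-/

namespace Pool.Agent.H75.MX

/-- vector systems; `ini q = some false`: the zero vector is in `q`, `ini q = some true`: the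
vector `n e_0` is in `q` -/
structure VS (K : ℕ) (Q : Type) where
  ini : Q → Option Bool
  inc : Set (Q × Fin (K + 1) × Q)
  cap : Set (Q × Q × Q)

/-- least solution of a vector system with parameter `n` -/
inductive VDer {K : ℕ} {Q : Type} (T : VS K Q) (n : ℕ) : Q → (Fin (K + 1) → ℕ) → Prop
  | zero {q : Q} : T.ini q = some false → VDer T n q 0
  | par {q : Q} : T.ini q = some true → VDer T n q (Pi.single 0 n)
  | inc {q q' : Q} {i : Fin (K + 1)} {x : Fin (K + 1) → ℕ} : (q, i, q') ∈ T.inc →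
      VDer T n q' x → VDer T n q (x + Pi.single i 1)
  | cap {q q' q'' : Q} {x : Fin (K + 1) → ℕ} : (q, q', q'') ∈ T.cap → VDer T n q' x →
      VDer T n q'' x → VDer T n q x

/-- the modulus -/
abbrev Md (K : ℕ) : ℕ := 2 * (K + 1)

instance (K : ℕ) : NeZero (Md K) := ⟨by unfold Md; omega⟩

/-- the code of a vector -/
def code (K : ℕ) (x : Fin (K + 1) → ℕ) : ℕ := ∑ l : Fin (K + 1), 2 ^ (2 * l.val + Md K * x l)

/-- nonterminals -/
inductive NTm (K : ℕ) (Q : Type) : Type
  | A (i : ZMod (Md K)) : NTm K Q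
  | D (j : Fin (Md K + 1)) (i : ZMod (Md K)) : NTm K Q
  | SAA (i : ZMod (Md K)) : NTm K Q
  | SAD (i : ZMod (Md K)) : NTm K Q
  | SAB (i : ZMod (Md K)) : NTm K Q
  | SDD (i : ZMod (Md K)) : NTm K Q
  | SDA (j : Fin (Md K)) (i : ZMod (Md K)) : NTm K Q
  | SAJ (j : Fin (Md K)) (i : ZMod (Md K)) : NTm K Q
  | F (l : Fin (K + 1)) : NTm K Q
  | R (q : Q) : NTm K Q
  | I (q : Q) (i : Fin (K + 1)) : NTm K Q

/-- the index 2 -/
def two (K : ℕ) : Fin (Md K + 1) := ⟨2, by unfold Md; omega⟩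

open NTm in
/-- the rules -/
inductive NRule {K : ℕ} {Q : Type} (T : VS K Q) : Rl (NTm K Q) → Prop
  | r1 (i : ZMod (Md K)) : NRule T (false, SAA i, A i, A i)
  | r2 (i : ZMod (Md K)) : NRule T (false, SAD i, A (i - 1), D (two K) (i - 1))
  | r3 (i : ZMod (Md K)) : NRule T (true, A (i + 1), SAA i, SAD i)
  | r4 (i : ZMod (Md K)) : NRule T (false, SAB i, A i, A (i + 1))
  | r5 (i : ZMod (Md K)) : NRule T (false, SDD i, D (two K) (i - 1), D (two K) (i - 1))
  | r6 (i : ZMod (Md K)) : NRule T (true, D (two K) i, SAB i, SDD i)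
  | r7 (j : Fin (Md K)) (i : ZMod (Md K)) :
      NRule T (false, SDA j i, D j.castSucc i, A (i + (j.val : ZMod (Md K))))
  | r8 (j : Fin (Md K)) (i : ZMod (Md K)) : NRule T (false, SAJ j i, A i, D j.castSucc (i + 1))
  | r9 (j : Fin (Md K)) (i : ZMod (Md K)) : 2 ≤ j.val → NRule T (true, D j.succ i, SDA j i, SAJ j i)
  | f0 : NRule T (true, F 0, A 0, A 0)
  | f1 (l : Fin K) : NRule T (false, F l.succ, F l.castSucc, A ((2 * (l.val + 1) : ℕ) : ZMod (Md K)))
  | i1 (q : Q) (i : Fin (K + 1)) :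
      NRule T (false, I q i, R q, D (Fin.last (Md K)) ((2 * i.val : ℕ) : ZMod (Md K)))
  | i2 {q q' : Q} {i : Fin (K + 1)} : (q, i, q') ∈ T.inc → NRule T (true, R q, I q' i, F (Fin.last K))
  | c {q q' q'' : Q} : (q, q', q'') ∈ T.cap → NRule T (true, R q, R q', R q'')

open Classical in
/-- the constants -/
noncomputable def nleaf {K : ℕ} {Q : Type} (T : VS K Q) : NTm K Q → Option (Option ℕ)
  | NTm.A i => if i = 0 then some (some 1) else if i = 1 then some (some 2) else none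
  | NTm.D j i => if j = two K ∧ i = 0 then some (some 3) else none
  | NTm.R q => match T.ini q with
      | none => none
      | some false => some (some (code K 0))
      | some true => some none
  | _ => none

/-- the number system of a vector system -/
noncomputable def nsys {K : ℕ} {Q : Type} (T : VS K Q) (q0 : Q) : Sys (NTm K Q) where
  bin := {ρ | NRule T ρ}
  leaf := nleaf T
  main := NTm.R q0

/-- powers of two with exponent in a residue class, times `2 ^ j - 1` -/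
def PD (K j : ℕ) (i : ZMod (Md K)) : Set ℕ :=
  {m | ∃ e : ℕ, (e : ZMod (Md K)) = i ∧ m = (2 ^ j - 1) * 2 ^ e}

/-- powers of two with exponent in a residue class -/
def PA (K : ℕ) (i : ZMod (Md K)) : Set ℕ := {m | ∃ e : ℕ, (e : ZMod (Md K)) = i ∧ m = 2 ^ e}

/-- sumsets -/
def sumset (X Y : Set ℕ) : Set ℕ := {m | ∃ a ∈ X, ∃ b ∈ Y, m = a + b}

/-- intended meaning of the nonterminals -/
def sem {K : ℕ} {Q : Type} (T : VS K Q) (n : ℕ) : NTm K Q → Set ℕ
  | NTm.A i => PA K i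
  | NTm.D j i => {m | 2 ≤ j.val ∧ m ∈ PD K j.val i}
  | NTm.SAA i => sumset (PA K i) (PA K i)
  | NTm.SAD i => sumset (PA K (i - 1)) (PD K 2 (i - 1))
  | NTm.SAB i => sumset (PA K i) (PA K (i + 1))
  | NTm.SDD i => sumset (PD K 2 (i - 1)) (PD K 2 (i - 1))
  | NTm.SDA j i => sumset {m | 2 ≤ j.val ∧ m ∈ PD K j.val i} (PA K (i + (j.val : ZMod (Md K))))
  | NTm.SAJ j i => sumset (PA K i) {m | 2 ≤ j.val ∧ m ∈ PD K j.val (i + 1)}
  | NTm.F l => {m | ∃ x : Fin (K + 1) → ℕ,
      m = ∑ l' ∈ Finset.Iic l, 2 ^ (2 * l'.val + Md K * x l')}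
  | NTm.R q => {m | ∃ x, m = code K x ∧ VDer T n q x}
  | NTm.I q i => sumset {m | ∃ x, m = code K x ∧ VDer T n q x}
      (PD K (Md K) ((2 * i.val : ℕ) : ZMod (Md K)))

end Pool.Agent.H75.MX
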