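import Mathlib
import Pool.Agent.H75.MX.NDefs
import Pool.Agent.H75.MX.MDefs

set_option autoImplicit false

/-!
[H75 MX CMP] computability of the reduction.

`int_sub_prim`: for primitive recursive `u v : ℕ → ℕ` the function `n ↦ (u n : ℤ) - v n` is
primitive recursive: `Primrec.encode_iff`; the encoding of `ℤ` is `Equiv.intEquivNat`
(`2 m` for `m ≥ 0`, `2 m + 1` for `-(m + 1)`), so the encoded value is
`if v n ≤ u n then 2 (u n - v n) else 2 (v n - u n - 1) + 1`.
`code K (Pi.single 0 n) = 2 ^ (Md K * n) + const`; powers are primitive recursive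
(`Primrec.nat_rec` or `Nat.Primrec.pow`). Each entry of `comb (p ^ (4 c)) y` is `α + W β` with
fixed integers `α, β`, i.e. `(α⁺ + W β⁺) - (α⁻ + W β⁻)`. The list `L0` is fixed: induction on `L0`
(`Primrec.list_cons`, `Primrec.pair`), or write the map as a list of functions.
-/

namespace Pool.Agent.H75.MX

theorem cmp_enc_int (z : ℤ) : Encodable.encode z = Equiv.intEquivNat z := rfl

theorem cmp_enc_nat (m : ℕ) : Encodable.encode (m : ℤ) = 2 * m := rfl

theorem cmp_enc_neg (m : ℕ) : Encodable.encode (Int.negSucc m) = 2 * m + 1 := rfl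

theorem int_sub_prim {u v : ℕ → ℕ} (hu : Primrec u) (hv : Primrec v) :
    Primrec (fun n => (u n : ℤ) - (v n : ℤ)) := by
  rw [← Primrec.encode_iff]
  have h : (fun n => Encodable.encode ((u n : ℤ) - (v n : ℤ))) =
      fun n => if v n ≤ u n then 2 * (u n - v n) else 2 * (v n - u n - 1) + 1 := by
    funext n
    split_ifs with h
    · rw [← Int.ofNat_sub h, cmp_enc_nat]
    · have h1 : (u n : ℤ) - (v n : ℤ) = Int.negSucc (v n - u n - 1) := by
        rw [Int.negSucc_eq]
        omega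
      rw [h1, cmp_enc_neg]
  rw [h]
  refine Primrec.ite (Primrec.nat_le.comp hv hu) ?_ ?_
  · exact Primrec.nat_mul.comp (Primrec.const 2) (Primrec.nat_sub.comp hu hv)
  · exact Primrec.nat_add.comp (Primrec.nat_mul.comp (Primrec.const 2)
      (Primrec.nat_sub.comp (Primrec.nat_sub.comp hv hu) (Primrec.const 1))) (Primrec.const 1)

theorem cmp_affine {w : ℕ → ℕ} (hw : Primrec w) (a b : ℤ) :
    Primrec (fun n => a + (w n : ℤ) * b) := by
  have h : (fun n => a + (w n : ℤ) * b) = fun n => ((a.toNat + w n * b.toNat : ℕ) : ℤ) -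
      (((-a).toNat + w n * (-b).toNat : ℕ) : ℤ) := by
    funext n
    push_cast
    have h1 : a = (a.toNat : ℤ) - ((-a).toNat : ℤ) := (Int.toNat_sub_toNat_neg a).symm
    have h2 : b = (b.toNat : ℤ) - ((-b).toNat : ℤ) := (Int.toNat_sub_toNat_neg b).symm
    conv_lhs => rw [h1, h2]
    ring
  rw [h]
  exact int_sub_prim (Primrec.nat_add.comp (Primrec.const _)
    (Primrec.nat_mul.comp hw (Primrec.const _)))
    (Primrec.nat_add.comp (Primrec.const _) (Primrec.nat_mul.comp hw (Primrec.const _)))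

theorem cmp_pow : Primrec₂ (fun a b : ℕ => a ^ b) := Primrec₂.unpaired'.1 Nat.Primrec.pow

theorem cmp_code (K n : ℕ) : code K (Pi.single 0 n) =
    2 ^ (Md K * n) + ∑ i : Fin K, 2 ^ (2 * (i.succ).val) := by
  unfold code
  rw [Fin.sum_univ_succ]
  have h1 : ∀ i : Fin K, 2 ^ (2 * (i.succ : Fin (K + 1)).val +
      Md K * (Pi.single 0 n : Fin (K + 1) → ℕ) i.succ) = 2 ^ (2 * (i.succ).val) := by
    intro i
    rw [Pi.single_eq_of_ne (Fin.succ_ne_zero i)]
    simp
  simp only [h1]
  simp

theorem cmp_comb {w : ℕ → ℕ} (hw : Primrec w) (y : (ℤ × ℤ × ℤ × ℤ) × (ℤ × ℤ × ℤ × ℤ)) :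
    Primrec (fun n => comb (w n : ℤ) y) :=
  Primrec.pair (cmp_affine hw _ _) (Primrec.pair (cmp_affine hw _ _)
    (Primrec.pair (cmp_affine hw _ _) (cmp_affine hw _ _)))

theorem comp_list (p K : ℕ) (L0 : List ((ℤ × ℤ × ℤ × ℤ) × (ℤ × ℤ × ℤ × ℤ))) :
    Computable (fun n : ℕ => L0.map (comb ((p : ℤ) ^ (4 * code K (Pi.single 0 n))))) := by
  refine Primrec.to_comp ?_
  have hw : Primrec (fun n : ℕ => p ^ (4 * code K (Pi.single 0 n))) := by
    simp only [cmp_code]
    exact cmp_pow.comp (Primrec.const p) (Primrec.nat_mul.comp (Primrec.const 4)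
      (Primrec.nat_add.comp (cmp_pow.comp (Primrec.const 2)
        (Primrec.nat_mul.comp (Primrec.const _) Primrec.id)) (Primrec.const _)))
  induction L0 with
  | nil => exact Primrec.const []
  | cons y L ih =>
    have h := Primrec.list_cons.comp (cmp_comb hw y) ih
    refine h.of_eq fun n => ?_
    simp only [List.map_cons, Nat.cast_pow]

end Pool.Agent.H75.MX
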