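import Mathlib
import Pool.Agent.H75.MX.Defs

set_option autoImplicit false

/-!
[H75 MX COMP] completeness: a derivation gives a run with vanishing first coordinate.

For a pair `r` and `t : ℚ` write `t • r = (t * r.1, t * r.2)` (the `SMul` of `ℚ × ℚ`). All maps
`aT, aS, aD, aX, aXi` are linear, `aS (aS r) = -r`, `aT a (aT b r) = aT (a + b) r`,
`aD k (aD l r) = aD (k + l) r`, `aD k (aT a r) = ` ... (formulas by `ext`, `simp`, `ring`,
`zpow_add₀`), and `aXi P q (aX P q r) = -r`. `St.fin` is not the source of an edge, so for a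
matching edge (`q = q'`): `Run m r q → Edg q g q'' → Run (m+1) (g (-r)) q''`.

`complete_call`: by induction on the derivation `Der S c X n`, for all sites `s` with
`callee S s = X`, all `q, a, r, m` with `Src P s q a`, `Run S c P m r q`:
a run of positive length from there to `tgt s` with vector `t • aT (post s) (aD n (aT a r))`,
`t ≠ 0`.
* leaf: one edge `Edg.leaf`.
* sum, rule `ρ = (false, X, Y, Z)`, `n = y + z`: edge `Edg.call ρ` to `P s ρ`, then `y + z` loops,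
  then the induction hypothesis for `Y` at site `some (ρ, false)` (source `P s ρ`, mark
  `9 + rt s`, target `Q4 ρ`, post mark `m3 = 81`), then the induction hypothesis for `Z` at site
  `some (ρ, true)` (source `Q4 ρ`, mark `m4 = -54`, target `Q7 ρ`, post mark `m5 = -1`), then `z`
  loops, `Edg.six`, `y` loops, `Edg.ret ρ s`. Up to sign the total action on `r` is
  `aT (post s) ∘ aS ∘ [block] ∘ aS ∘ aT a` with block = first `aT 1`, `aD (-(y+z))`,
  `aT (9 + rt s)`, `aD y`, `aT 81`, `aT (-54)`, `aD z`, `aT (-1)`, `aD (-z)`, `aT (-27)`,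
  `aD (-y)`, `aT (-9 - rt s)`; all marks cancel (heights `0, -n, -z, -z, 0, -z, -n`) and
  block = `aD (-n)`; finally `aS (aD (-n) (aS r))` is a nonzero multiple of `aD n r`.
* cap, rule `ρ = (true, X, Y, Z)`: `Edg.call ρ`, `n` loops, IH at `some (ρ, false)`
  (marks `9 + rt s`, `-1`), `n` loops, IH at `some (ρ, true)` (marks `27`, `78`), `Edg.six`
  (`-81`), `n` loops, `Edg.ret ρ s` (mark `-36 - rt s`). Heights `0, -n, 0, -n, 0, 0, -n`; block
  `aT 4, aD (-n), aT (9 + rt s), aD n, aT (-1), aD (-n), aT 27, aD n, aT 78, aT (-81), aD (-n),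
  aT (-36 - rt s)` = `aD (-n)`.
`complete`: root site, `Run.init`, `a = 0`, `r = (0, 1)`: the result is `t • (0, 1)` at `fin`.
-/

namespace Pool.Agent.H75.MX

variable {V : Type} {S : Sys V} {c : ℕ} {P : Par V}

/-- multiplication of the first coordinate -/
def compM (w : ℚ) (r : ℚ × ℚ) : ℚ × ℚ := (r.1 * w, r.2)

theorem comp_aD (p : ℕ) (k : ℤ) (r : ℚ × ℚ) : aD p k r = compM ((p : ℚ) ^ (4 * k)) r := rfl

theorem comp_aT_smul (p : ℕ) (c : ℤ) (t : ℚ) (r : ℚ × ℚ) : aT p c (t • r) = t • aT p c r := by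
  ext
  · rfl
  · simp only [aT, Prod.smul_fst, Prod.smul_snd, smul_eq_mul]
    ring

theorem comp_aS_smul (t : ℚ) (r : ℚ × ℚ) : aS (t • r) = t • aS r := by
  ext
  · rfl
  · simp only [aS, Prod.smul_fst, Prod.smul_snd, smul_eq_mul]
    ring

theorem comp_aD_smul (p : ℕ) (k : ℤ) (t : ℚ) (r : ℚ × ℚ) : aD p k (t • r) = t • aD p k r := by
  ext
  · simp only [aD, Prod.smul_fst, smul_eq_mul]
    ring
  · rfl

theorem comp_aT_aT (p : ℕ) (a b : ℤ) (r : ℚ × ℚ) : aT p a (aT p b r) = aT p (a + b) r := by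
  ext
  · rfl
  · simp only [aT]
    push_cast
    ring

theorem comp_aT_zero (p : ℕ) (r : ℚ × ℚ) : aT p 0 r = r := by
  ext
  · rfl
  · simp [aT]

theorem comp_aS_aS (r : ℚ × ℚ) : aS (aS r) = -r := rfl

theorem comp_aT_neg (p : ℕ) (c : ℤ) (r : ℚ × ℚ) : aT p c (-r) = -aT p c r := by
  have h := comp_aT_smul p c (-1) r
  simpa using h

theorem comp_aXi_aX (q : St V) (r : ℚ × ℚ) : aXi P q (aX P q r) = -r := by
  unfold aXi aX
  rw [comp_aT_aT, neg_add_cancel, comp_aT_zero, comp_aS_aS, comp_aT_neg, comp_aT_aT,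
    neg_add_cancel, comp_aT_zero]

theorem comp_aXf (q : St V) (hq : q ≠ St.fin) (r : ℚ × ℚ) : aXf P q r = aX P q r := by
  cases q with
  | fin => exact absurd rfl hq
  | start => rfl
  | P s ρ => rfl
  | Q4 ρ => rfl
  | Q7 ρ => rfl
  | Q8 ρ => rfl

/-- reachable up to a nonzero scalar -/
def CompR (S : Sys V) (c : ℕ) (P : Par V) (m : ℕ) (r : ℚ × ℚ) (q : St V) : Prop :=
  ∃ t : ℚ, t ≠ 0 ∧ Run S c P m (t • r) q

theorem comp_edge {m : ℕ} {r : ℚ × ℚ} {q q' : St V} {g : ℚ × ℚ → ℚ × ℚ}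
    (h : CompR S c P m r q) (hg : Edg S c P q g q') (hq : q ≠ St.fin)
    (hlin : ∀ (t : ℚ) (r : ℚ × ℚ), g (t • r) = t • g r) : CompR S c P (m + 1) (g r) q' := by
  obtain ⟨t, ht, h⟩ := h
  have h1 := Run.step h hg
  rw [comp_aXf q hq, comp_aXi_aX, ← neg_smul, hlin] at h1
  exact ⟨-t, neg_ne_zero.2 ht, h1⟩

theorem comp_aD_aD {p : ℕ} (hp : (p : ℚ) ≠ 0) (k l : ℤ) (r : ℚ × ℚ) :
    aD p k (aD p l r) = aD p (k + l) r := by
  ext
  · simp only [aD]
    rw [mul_assoc, ← zpow_add₀ hp]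
    congr 2
    ring
  · rfl

theorem comp_aD_zero (p : ℕ) (r : ℚ × ℚ) : aD p 0 r = r := by
  ext
  · simp [aD]
  · rfl

theorem comp_p_ne (P : Par V) : (P.p : ℚ) ≠ 0 := Nat.cast_ne_zero.2 P.hp.ne_zero

theorem comp_loops {m : ℕ} {r : ℚ × ℚ} {q : St V} (h : CompR S c P m r q) (h1 : q ≠ St.start)
    (h2 : q ≠ St.fin) (k : ℕ) : CompR S c P (m + k) (aD P.p (-(k : ℤ)) r) q := by
  induction k with
  | zero =>
    simp only [Nat.cast_zero, neg_zero, comp_aD_zero, add_zero]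
    exact h
  | succ k ih =>
    have h3 := comp_edge ih (Edg.loop q h1 h2) h2 (fun t r => comp_aD_smul _ _ t r)
    rw [comp_aD_aD (comp_p_ne P)] at h3
    have h4 : (-1 : ℤ) + -(k : ℤ) = -((k + 1 : ℕ) : ℤ) := by push_cast; ring
    rw [h4] at h3
    exact h3

theorem comp_block_sum (p : ℕ) {A B : ℚ} (hA : A ≠ 0) (hB : B ≠ 0) (t : ℤ) (u : ℚ × ℚ) :
    aT p (-9 - t) (compM A⁻¹ (aT p (-27) (compM B⁻¹ (aT p (-1) (compM B (aT p (-54)
      (aT p 81 (compM A (aT p (9 + t) (compM (A⁻¹ * B⁻¹) (aT p 1 u))))))))))) =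
      compM (A⁻¹ * B⁻¹) u := by
  ext
  · simp only [aT, compM]
    field_simp
  · simp only [aT, compM]
    push_cast
    field_simp
    ring

theorem comp_block_cap (p : ℕ) {A : ℚ} (hA : A ≠ 0) (t : ℤ) (u : ℚ × ℚ) :
    aT p (-36 - t) (compM A⁻¹ (aT p (-81) (aT p 78 (compM A (aT p 27 (compM A⁻¹
      (aT p (-1) (compM A (aT p (9 + t) (compM A⁻¹ (aT p 4 u))))))))))) =
      compM A⁻¹ u := by
  ext
  · simp only [aT, compM]
    field_simp
  · simp only [aT, compM]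
    push_cast
    field_simp
    ring

theorem comp_flip {w : ℚ} (hw : w ≠ 0) (v : ℚ × ℚ) :
    aS (compM w⁻¹ (aS v)) = (-w⁻¹) • compM w v := by
  ext
  · simp only [aS, compM, Prod.smul_fst, smul_eq_mul]
    field_simp
  · simp only [aS, compM, Prod.smul_snd, smul_eq_mul]
    ring

theorem comp_src_ne {s : Site V} {q : St V} {a : ℤ} (h : Src P s q a) : q ≠ St.fin := by
  cases h <;> simp

theorem comp_call {X : V} {n : ℕ} (h : Der S c X n) : ∀ (s : Site V), callee S s = X →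
    ∀ (q : St V) (a : ℤ) (r : ℚ × ℚ) (m : ℕ), Src P s q a → CompR S c P m r q →
      ∃ m' : ℕ, m < m' ∧
        CompR S c P m' (aT P.p (post s) (aD P.p (n : ℤ) (aT P.p a r))) (tgt s) := by
  have hp := comp_p_ne P
  induction h with
  | @leaf X o ho =>
    intro s hs q a r m hsrc hr
    subst hs
    refine ⟨m + 1, Nat.lt_succ_self m, ?_⟩
    exact comp_edge (g := fun r => aT P.p (post s) (aD P.p ((o.getD c : ℕ) : ℤ) (aT P.p a r)))
      hr (Edg.leaf hsrc ho) (comp_src_ne hsrc) fun t r => by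
      simp only [comp_aT_smul, comp_aD_smul]
  | @sum X Y Z y z hρ _ _ ihY ihZ =>
    intro s hs q a r m hsrc hr
    have h1 := comp_edge hr (Edg.call (false, X, Y, Z) hsrc hρ hs.symm) (comp_src_ne hsrc)
      (fun t r => by simp only [comp_aT_smul, comp_aS_smul])
    have h2 := comp_loops h1 (fun h => by cases h) (fun h => by cases h) (y + z)
    obtain ⟨k3, hk3, h3⟩ := ihY (some ((false, X, Y, Z), false)) rfl _ _ _ _
      (Src.one s (false, X, Y, Z)) h2
    obtain ⟨k4, hk4, h4⟩ := ihZ (some ((false, X, Y, Z), true)) rfl _ _ _ _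
      (Src.two (false, X, Y, Z)) h3
    have h5 := comp_loops h4 (fun h => by cases h) (fun h => by cases h) z
    have h6 := comp_edge h5 (Edg.six (false, X, Y, Z)) (fun h => by cases h)
      (fun t r => by simp only [comp_aT_smul])
    have h7 := comp_loops h6 (fun h => by cases h) (fun h => by cases h) y
    have h8 := comp_edge h7 (Edg.ret (false, X, Y, Z) s) (fun h => by cases h)
      (fun t r => by simp only [comp_aT_smul, comp_aS_smul])
    refine ⟨k4 + z + 1 + y + 1, by omega, ?_⟩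
    have hA : (P.p : ℚ) ^ (4 * (y : ℤ)) ≠ 0 := zpow_ne_zero _ hp
    have hB : (P.p : ℚ) ^ (4 * (z : ℤ)) ≠ 0 := zpow_ne_zero _ hp
    have e1 : (P.p : ℚ) ^ (4 * -(y : ℤ)) = ((P.p : ℚ) ^ (4 * (y : ℤ)))⁻¹ := by
      rw [← zpow_neg]; congr 1; ring
    have e2 : (P.p : ℚ) ^ (4 * -(z : ℤ)) = ((P.p : ℚ) ^ (4 * (z : ℤ)))⁻¹ := by
      rw [← zpow_neg]; congr 1; ring
    have e3 : (P.p : ℚ) ^ (4 * -((y + z : ℕ) : ℤ)) =
        ((P.p : ℚ) ^ (4 * (y : ℤ)))⁻¹ * ((P.p : ℚ) ^ (4 * (z : ℤ)))⁻¹ := by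
      rw [← zpow_neg, ← zpow_neg, ← zpow_add₀ hp]; congr 1; push_cast; ring
    have e4 : (P.p : ℚ) ^ (4 * ((y + z : ℕ) : ℤ)) =
        (P.p : ℚ) ^ (4 * (y : ℤ)) * (P.p : ℚ) ^ (4 * (z : ℤ)) := by
      rw [← zpow_add₀ hp]; congr 1; push_cast; ring
    have p1 : m1 (false, X, Y, Z) = 1 := rfl
    have p2 : m2 (false, X, Y, Z) = 9 := rfl
    have p3 : post (some ((false, X, Y, Z), false)) = 81 := rfl
    have p4 : m4 (false, X, Y, Z) = -54 := rfl
    have p5 : post (some ((false, X, Y, Z), true)) = -1 := rfl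
    have p6 : m6 (false, X, Y, Z) = -27 := rfl
    have p7 : m7 (false, X, Y, Z) = -9 := rfl
    simp only [comp_aD, e1, e2, e3, p1, p2, p3, p4, p5, p6, p7] at h8
    have hb := comp_block_sum P.p hA hB (P.rt s) (aS (aT P.p a r))
    rw [hb, ← mul_inv, comp_flip (mul_ne_zero hA hB), comp_aT_smul, ← e4, ← comp_aD] at h8
    obtain ⟨t, ht, h9⟩ := h8
    rw [smul_smul] at h9
    exact ⟨_, mul_ne_zero ht (neg_ne_zero.2 (inv_ne_zero (zpow_ne_zero _ hp))), h9⟩
  | @cap X Y Z n hρ _ _ ihY ihZ =>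
    intro s hs q a r m hsrc hr
    have h1 := comp_edge hr (Edg.call (true, X, Y, Z) hsrc hρ hs.symm) (comp_src_ne hsrc)
      (fun t r => by simp only [comp_aT_smul, comp_aS_smul])
    have h2 := comp_loops h1 (fun h => by cases h) (fun h => by cases h) n
    obtain ⟨k3, hk3, h3⟩ := ihY (some ((true, X, Y, Z), false)) rfl _ _ _ _
      (Src.one s (true, X, Y, Z)) h2
    have h3' := comp_loops h3 (fun h => by cases h) (fun h => by cases h) n
    obtain ⟨k4, hk4, h4⟩ := ihZ (some ((true, X, Y, Z), true)) rfl _ _ _ _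
      (Src.two (true, X, Y, Z)) h3'
    have h6 := comp_edge h4 (Edg.six (true, X, Y, Z)) (fun h => by cases h)
      (fun t r => by simp only [comp_aT_smul])
    have h7 := comp_loops h6 (fun h => by cases h) (fun h => by cases h) n
    have h8 := comp_edge h7 (Edg.ret (true, X, Y, Z) s) (fun h => by cases h)
      (fun t r => by simp only [comp_aT_smul, comp_aS_smul])
    refine ⟨k4 + 1 + n + 1, by omega, ?_⟩
    have hA : (P.p : ℚ) ^ (4 * (n : ℤ)) ≠ 0 := zpow_ne_zero _ hp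
    have e1 : (P.p : ℚ) ^ (4 * -(n : ℤ)) = ((P.p : ℚ) ^ (4 * (n : ℤ)))⁻¹ := by
      rw [← zpow_neg]; congr 1; ring
    have p1 : m1 (true, X, Y, Z) = 4 := rfl
    have p2 : m2 (true, X, Y, Z) = 9 := rfl
    have p3 : post (some ((true, X, Y, Z), false)) = -1 := rfl
    have p4 : m4 (true, X, Y, Z) = 27 := rfl
    have p5 : post (some ((true, X, Y, Z), true)) = 78 := rfl
    have p6 : m6 (true, X, Y, Z) = -81 := rfl
    have p7 : m7 (true, X, Y, Z) = -36 := rfl
    simp only [comp_aD, e1, p1, p2, p3, p4, p5, p6, p7] at h8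
    have hb := comp_block_cap P.p hA (P.rt s) (aS (aT P.p a r))
    rw [hb, comp_flip hA, comp_aT_smul, ← comp_aD] at h8
    obtain ⟨t, ht, h9⟩ := h8
    rw [smul_smul] at h9
    exact ⟨_, mul_ne_zero ht (neg_ne_zero.2 (inv_ne_zero (zpow_ne_zero _ hp))), h9⟩

theorem complete_call {X : V} {n : ℕ} (h : Der S c X n) : ∀ (s : Site V), callee S s = X →
    ∀ (q : St V) (a : ℤ) (r : ℚ × ℚ) (m : ℕ), Src P s q a → Run S c P m r q →
      ∃ (t : ℚ) (m' : ℕ), t ≠ 0 ∧ m < m' ∧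
        Run S c P m' (t • aT P.p (post s) (aD P.p (n : ℤ) (aT P.p a r))) (tgt s) := by
  intro s hs q a r m h1 h2
  obtain ⟨m', hm, t, ht, h3⟩ := comp_call (P := P) h s hs q a r m h1
    ⟨1, one_ne_zero, by rwa [one_smul]⟩
  exact ⟨t, m', ht, hm, h3⟩

theorem complete {n : ℕ} (h : Der S c S.main n) :
    ∃ (m : ℕ) (r : ℚ × ℚ) (q : St V), 0 < m ∧ Run S c P m r q ∧ (aXf P q r).1 = 0 := by
  obtain ⟨t, m, -, hm, h1⟩ := complete_call (P := P) h none rfl St.start 0 (0, 1) 0 Src.root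
    Run.init
  refine ⟨m, _, _, hm, h1, ?_⟩
  simp [aXf, tgt, aT, aD]

end Pool.Agent.H75.MX
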