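import Mathlib
import Pool.Agent.H75.MX.MDefs

set_option autoImplicit false

/-!
[H75 MX EMAT] every generator is, up to a nonzero scalar, an integer matrix whose entries are
affine functions of `W = p ^ (4 c)`.

Call a map `g : ℕ → ℚ × ℚ → ℚ × ℚ` (depending on the parameter `c`) good if there is `y` with
`∀ c, ∃ t ≠ 0, ∀ r, rowA (toM (comb (p ^ (4 c)) y)) r = t • g c r`, and constant-good if moreover
`y.2 = 0`. Then: `aT p a` is constant-good with matrix `!![p, a; 0, p]` (t = p), `aS` with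
`!![0, -1; 1, 0]` (t = 1), `aD p k` for a fixed `k : ℕ` with `!![p ^ (4 k), 0; 0, 1]`, `aD p (-1)`
with `!![1, 0; 0, p ^ 4]` (t = p ^ 4), `aD p c` (parameter) is good with
`!![0, 0; 0, 1] + W * !![1, 0; 0, 0]`; compositions of constant-good maps are constant-good and
the composition of a good map with a constant-good one, on either side, is good
(`rowA (M * N) r = rowA N (rowA M r)`, all maps are linear). `aX`, `aXi`, `aXf P q'` (cases on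
`q'`) are constant-good, and each action of `Edg'` is constant-good except the leaf edge with
`o = none`, which is good.
-/

namespace Pool.Agent.H75.MX

variable {V : Type}

theorem rowA_mul (M N : Matrix (Fin 2) (Fin 2) ℤ) (r : ℚ × ℚ) :
    rowA (M * N) r = rowA N (rowA M r) := by
  unfold rowA
  simp only [Matrix.mul_apply, Fin.sum_univ_two]
  push_cast
  ext
  · simp only; ring
  · simp only; ring

theorem emat_smul (M : Matrix (Fin 2) (Fin 2) ℤ) (t : ℚ) (r : ℚ × ℚ) :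
    rowA M (t • r) = t • rowA M r := by
  unfold rowA
  ext
  · simp only [Prod.smul_fst, Prod.smul_snd, smul_eq_mul]; ring
  · simp only [Prod.smul_fst, Prod.smul_snd, smul_eq_mul]; ring

/-- constant good maps -/
def CG (g : ℚ × ℚ → ℚ × ℚ) : Prop :=
  ∃ (M : Matrix (Fin 2) (Fin 2) ℤ) (t : ℚ), t ≠ 0 ∧ ∀ r, rowA M r = t • g r

/-- good maps -/
def GG (p : ℕ) (G : ℕ → ℚ × ℚ → ℚ × ℚ) : Prop :=
  ∃ y : (ℤ × ℤ × ℤ × ℤ) × (ℤ × ℤ × ℤ × ℤ), ∀ c : ℕ, ∃ t : ℚ, t ≠ 0 ∧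
    ∀ r, rowA (toM (comb ((p : ℤ) ^ (4 * c)) y)) r = t • G c r

theorem cg_comp {f g : ℚ × ℚ → ℚ × ℚ} (hf : CG f) (hg : CG g) : CG (fun r => g (f r)) := by
  obtain ⟨M, t, ht, h1⟩ := hf
  obtain ⟨N, u, hu, h2⟩ := hg
  refine ⟨M * N, t * u, mul_ne_zero ht hu, fun r => ?_⟩
  rw [rowA_mul, h1, emat_smul, h2, smul_smul]

/-- product with a constant matrix on the left -/
def mulL (N : Matrix (Fin 2) (Fin 2) ℤ) (x : ℤ × ℤ × ℤ × ℤ) : ℤ × ℤ × ℤ × ℤ :=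
  (N 0 0 * x.1 + N 0 1 * x.2.2.1, N 0 0 * x.2.1 + N 0 1 * x.2.2.2,
    N 1 0 * x.1 + N 1 1 * x.2.2.1, N 1 0 * x.2.1 + N 1 1 * x.2.2.2)

/-- product with a constant matrix on the right -/
def mulR (N : Matrix (Fin 2) (Fin 2) ℤ) (x : ℤ × ℤ × ℤ × ℤ) : ℤ × ℤ × ℤ × ℤ :=
  (x.1 * N 0 0 + x.2.1 * N 1 0, x.1 * N 0 1 + x.2.1 * N 1 1,
    x.2.2.1 * N 0 0 + x.2.2.2 * N 1 0, x.2.2.1 * N 0 1 + x.2.2.2 * N 1 1)

theorem mulL_eq (N : Matrix (Fin 2) (Fin 2) ℤ) (W : ℤ)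
    (y : (ℤ × ℤ × ℤ × ℤ) × (ℤ × ℤ × ℤ × ℤ)) :
    toM (comb W (mulL N y.1, mulL N y.2)) = N * toM (comb W y) := by
  ext i j
  fin_cases i <;> fin_cases j <;>
    simp [toM, comb, mulL, Matrix.mul_apply, Fin.sum_univ_two] <;> ring

theorem mulR_eq (N : Matrix (Fin 2) (Fin 2) ℤ) (W : ℤ)
    (y : (ℤ × ℤ × ℤ × ℤ) × (ℤ × ℤ × ℤ × ℤ)) :
    toM (comb W (mulR N y.1, mulR N y.2)) = toM (comb W y) * N := by
  ext i j
  fin_cases i <;> fin_cases j <;>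
    simp [toM, comb, mulR, Matrix.mul_apply, Fin.sum_univ_two] <;> ring

theorem gg_compL {p : ℕ} {f : ℚ × ℚ → ℚ × ℚ} {G : ℕ → ℚ × ℚ → ℚ × ℚ} (hf : CG f)
    (hG : GG p G) : GG p (fun c r => G c (f r)) := by
  obtain ⟨N, t, ht, h1⟩ := hf
  obtain ⟨y, hy⟩ := hG
  refine ⟨(mulL N y.1, mulL N y.2), fun c => ?_⟩
  obtain ⟨u, hu, h2⟩ := hy c
  refine ⟨t * u, mul_ne_zero ht hu, fun r => ?_⟩
  rw [mulL_eq, rowA_mul, h1, emat_smul, h2, smul_smul]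

theorem gg_compR {p : ℕ} {g : ℚ × ℚ → ℚ × ℚ} {G : ℕ → ℚ × ℚ → ℚ × ℚ} (hG : GG p G)
    (hg : CG g) : GG p (fun c r => g (G c r)) := by
  obtain ⟨N, t, ht, h1⟩ := hg
  obtain ⟨y, hy⟩ := hG
  refine ⟨(mulR N y.1, mulR N y.2), fun c => ?_⟩
  obtain ⟨u, hu, h2⟩ := hy c
  refine ⟨u * t, mul_ne_zero hu ht, fun r => ?_⟩
  rw [mulR_eq, rowA_mul, h2, emat_smul, h1, smul_smul]

theorem gg_const {p : ℕ} {g : ℚ × ℚ → ℚ × ℚ} (hg : CG g) : GG p (fun _ r => g r) := by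
  obtain ⟨N, t, ht, h1⟩ := hg
  refine ⟨((N 0 0, N 0 1, N 1 0, N 1 1), (0, 0, 0, 0)), fun c => ⟨t, ht, fun r => ?_⟩⟩
  rw [← h1 r]
  congr 1
  ext i j
  fin_cases i <;> fin_cases j <;> simp [toM, comb]

theorem cg_T {p : ℕ} (hp : p ≠ 0) (a : ℤ) : CG (aT p a) := by
  have hp' : (p : ℚ) ≠ 0 := by exact_mod_cast hp
  refine ⟨!![(p : ℤ), a; 0, (p : ℤ)], p, hp', fun r => ?_⟩
  unfold rowA aT
  ext
  · simp
    ring
  · simp
    field_simp
    ring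

theorem cg_S : CG aS := by
  refine ⟨!![0, -1; 1, 0], 1, one_ne_zero, fun r => ?_⟩
  unfold rowA aS
  ext <;> simp

theorem cg_D (p k : ℕ) : CG (aD p (k : ℤ)) := by
  refine ⟨!![(p : ℤ) ^ (4 * k), 0; 0, 1], 1, one_ne_zero, fun r => ?_⟩
  have h : (p : ℚ) ^ (4 * (k : ℤ)) = (p : ℚ) ^ (4 * k) := by
    rw [← zpow_natCast]; push_cast; rfl
  unfold rowA aD
  rw [h]
  ext <;> simp

theorem cg_Dm {p : ℕ} (hp : p ≠ 0) : CG (aD p (-1)) := by
  have hp' : (p : ℚ) ≠ 0 := by exact_mod_cast hp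
  refine ⟨!![1, 0; 0, (p : ℤ) ^ 4], (p : ℚ) ^ 4, pow_ne_zero _ hp', fun r => ?_⟩
  have h : (p : ℚ) ^ (4 * (-1 : ℤ)) = ((p : ℚ) ^ 4)⁻¹ := by
    rw [show (4 : ℤ) * (-1) = -((4 : ℕ) : ℤ) by norm_num, zpow_neg, zpow_natCast]
  unfold rowA aD
  rw [h]
  ext
  · simp
    field_simp
  · simp
    ring

theorem gg_D (p : ℕ) : GG p (fun c r => aD p (c : ℤ) r) := by
  refine ⟨((0, 0, 0, 1), (1, 0, 0, 0)), fun c => ⟨1, one_ne_zero, fun r => ?_⟩⟩
  have h : (p : ℚ) ^ (4 * (c : ℤ)) = (p : ℚ) ^ (4 * c) := by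
    rw [← zpow_natCast]; push_cast; rfl
  show rowA _ r = (1 : ℚ) • aD p (c : ℤ) r
  unfold rowA aD
  rw [h]
  ext <;> simp [toM, comb]

theorem cg_id : CG (fun r => r) := by
  refine ⟨1, 1, one_ne_zero, fun r => ?_⟩
  unfold rowA
  ext <;> simp

theorem cg_X (P : Par V) (q : St V) : CG (aX P q) :=
  cg_comp (f := fun r => aS (aT P.p (P.H q) r)) (g := aT P.p (P.J q))
    (cg_comp (cg_T P.hp.ne_zero _) cg_S) (cg_T P.hp.ne_zero _)

theorem cg_Xi (P : Par V) (q : St V) : CG (aXi P q) :=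
  cg_comp (f := fun r => aS (aT P.p (-P.J q) r)) (g := aT P.p (-P.H q))
    (cg_comp (cg_T P.hp.ne_zero _) cg_S) (cg_T P.hp.ne_zero _)

theorem cg_Xf (P : Par V) (q : St V) : CG (aXf P q) := by
  cases q with
  | start => exact cg_X P _
  | fin => exact cg_id
  | P s ρ => exact cg_X P _
  | Q4 ρ => exact cg_X P _
  | Q7 ρ => exact cg_X P _
  | Q8 ρ => exact cg_X P _

theorem edge_gg {S : Sys V} {P : Par V} {q q' : St V} {G : ℕ → ℚ × ℚ → ℚ × ℚ}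
    (h : Edg' S P q G q') : GG P.p G := by
  have hp := P.hp.ne_zero
  cases h with
  | @call s _ a ρ h1 h2 h3 =>
    exact gg_const (g := fun r => aT P.p (m1 ρ) (aS (aT P.p a r)))
      (cg_comp (cg_comp (cg_T hp _) cg_S) (cg_T hp _))
  | @leaf s _ a o h1 h2 =>
    cases o with
    | none =>
      exact gg_compR (g := aT P.p (post s)) (G := fun c r => aD P.p (c : ℤ) (aT P.p a r))
        (gg_compL (f := aT P.p a) (cg_T hp a) (gg_D P.p)) (cg_T hp _)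
    | some k =>
      exact gg_const (g := fun r => aT P.p (post s) (aD P.p (k : ℤ) (aT P.p a r)))
        (cg_comp (cg_comp (cg_T hp _) (cg_D P.p k)) (cg_T hp _))
  | ret ρ s =>
    exact gg_const (g := fun r => aT P.p (post s) (aS (aT P.p (m7 ρ - P.rt s) r)))
      (cg_comp (cg_comp (cg_T hp _) cg_S) (cg_T hp _))
  | six ρ => exact gg_const (g := fun r => aT P.p (m6 ρ) r) (cg_T hp _)
  | loop _ h1 h2 => exact gg_const (g := fun r => aD P.p (-1) r) (cg_Dm hp)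

theorem edge_repr {S : Sys V} {P : Par V} {q q' : St V} {G : ℕ → ℚ × ℚ → ℚ × ℚ}
    (h : Edg' S P q G q') : ∃ y, Repr P q G q' y :=
  gg_compR (G := fun c r => G c (aXi P q r)) (gg_compL (cg_Xi P q) (edge_gg h)) (cg_Xf P q')

end Pool.Agent.H75.MX
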