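import Mathlib
import Pool.Agent.H75.MX.Defs

set_option autoImplicit false

/-! Inversion lemmas for the level invariant. -/

namespace Pool.Agent.H75.MX

variable {V : Type} {S : Sys V} {c : ℕ} {P : Par V}

/-- rank of states -/
def rk : St V → ℕ
  | St.start => 0
  | St.P _ _ => 1
  | St.Q4 _ => 2
  | St.Q7 _ => 3
  | St.Q8 _ => 4
  | St.fin => 5

theorem form_start {k : Kind V} {σ η : ℤ} {F : Cont} (h : LOK S c P k St.start σ η F) :
    (k = Kind.base ∧ σ = 0 ∧ η = 0 ∧ F = 0) ∨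
      (k = Kind.tok St.start ∧ η = σ ∧ F = mk σ (-P.H St.start)) := by
  generalize hq : (St.start : St V) = q at h
  induction h with
  | base => left; simp
  | fresh s ρ σ _ _ => cases hq
  | cont s σ => rcases s with _ | ⟨ρ, b⟩ <;> [skip; cases b] <;> cases hq
  | tok q σ _ => right; subst hq; simp
  | loop _ h1 _ _ => exact absurd hq.symm h1
  | six _ _ => cases hq
  | @call k s q a σ η F n _ _ _ _ => rcases s with _ | ⟨ρ, b⟩ <;> [skip; cases b] <;> cases hq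

theorem form_P {k : Kind V} {s : Site V} {ρ : Rl V} {σ η : ℤ} {F : Cont}
    (h : LOK S c P k (St.P s ρ) σ η F) :
    η ≤ σ ∧ ((k = Kind.fresh s ∧ F = mk σ (m1 ρ) ∧ ρ ∈ S.bin ∧ ρ.2.1 = callee S s) ∨
      (k = Kind.tok (St.P s ρ) ∧ F = mk σ (-P.H (St.P s ρ)))) := by
  generalize hq : (St.P s ρ : St V) = q at h
  induction h with
  | base => cases hq
  | fresh s ρ σ h1 h2 => cases hq; exact ⟨le_refl _, Or.inl ⟨rfl, rfl, h1, h2⟩⟩
  | cont s σ => rcases s with _ | ⟨ρ, b⟩ <;> [skip; cases b] <;> cases hq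
  | tok q σ _ => subst hq; exact ⟨le_refl _, Or.inr ⟨rfl, rfl⟩⟩
  | loop _ _ _ ih => obtain ⟨h1, h2⟩ := ih hq; exact ⟨by omega, h2⟩
  | six _ _ => cases hq
  | @call k s q a σ η F n _ _ _ _ => rcases s with _ | ⟨ρ, b⟩ <;> [skip; cases b] <;> cases hq

theorem form_Q4 {k : Kind V} {ρ : Rl V} {σ η : ℤ} {F : Cont}
    (h : LOK S c P k (St.Q4 ρ) σ η F) :
    (∃ (s : Site V) (b : ℤ) (F0 : Cont) (n : ℕ), LOK S c P k (St.P s ρ) σ b F0 ∧
        Der S c ρ.2.2.1 n ∧ F = F0 + mk b (m2 ρ + P.rt s) + mk (b + n) (m3 ρ) ∧ η ≤ b + n) ∨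
      (k = Kind.cont ∧ F = mk σ (m3 ρ) ∧ η ≤ σ) ∨
      (k = Kind.tok (St.Q4 ρ) ∧ F = mk σ (-P.H (St.Q4 ρ)) ∧ η ≤ σ) := by
  generalize hq : (St.Q4 ρ : St V) = q at h
  induction h with
  | base => cases hq
  | fresh s ρ σ h1 h2 => cases hq
  | cont s σ =>
    rcases s with _ | ⟨ρ, b⟩
    · cases hq
    · cases b
      · cases hq; exact Or.inr (Or.inl ⟨rfl, rfl, le_refl _⟩)
      · cases hq
  | tok q σ _ => subst hq; exact Or.inr (Or.inr ⟨rfl, rfl, le_refl _⟩)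
  | loop _ _ _ ih =>
    rcases ih hq with ⟨s, b, F0, n, h1, h2, h3, h4⟩ | ⟨h1, h2, h3⟩ | ⟨h1, h2, h3⟩
    · exact Or.inl ⟨s, b, F0, n, h1, h2, h3, by omega⟩
    · exact Or.inr (Or.inl ⟨h1, h2, by omega⟩)
    · exact Or.inr (Or.inr ⟨h1, h2, by omega⟩)
  | six _ _ => cases hq
  | @call k s q a σ η F n h1 h2 h3 _ =>
    rcases s with _ | ⟨ρ, b⟩
    · cases hq
    · cases b
      · cases hq
        cases h2
        exact Or.inl ⟨_, _, _, n, h1, h3, rfl, le_refl _⟩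
      · cases hq

theorem form_Q7 {k : Kind V} {ρ : Rl V} {σ η : ℤ} {F : Cont}
    (h : LOK S c P k (St.Q7 ρ) σ η F) :
    (∃ (b : ℤ) (F0 : Cont) (n : ℕ), LOK S c P k (St.Q4 ρ) σ b F0 ∧
        Der S c ρ.2.2.2 n ∧ F = F0 + mk b (m4 ρ) + mk (b + n) (m5 ρ) ∧ η ≤ b + n) ∨
      (k = Kind.cont ∧ F = mk σ (m5 ρ) ∧ η ≤ σ) ∨
      (k = Kind.tok (St.Q7 ρ) ∧ F = mk σ (-P.H (St.Q7 ρ)) ∧ η ≤ σ) := by
  generalize hq : (St.Q7 ρ : St V) = q at h
  induction h with
  | base => cases hq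
  | fresh s ρ σ h1 h2 => cases hq
  | cont s σ =>
    rcases s with _ | ⟨ρ, b⟩
    · cases hq
    · cases b
      · cases hq
      · cases hq; exact Or.inr (Or.inl ⟨rfl, rfl, le_refl _⟩)
  | tok q σ _ => subst hq; exact Or.inr (Or.inr ⟨rfl, rfl, le_refl _⟩)
  | loop _ _ _ ih =>
    rcases ih hq with ⟨b, F0, n, h1, h2, h3, h4⟩ | ⟨h1, h2, h3⟩ | ⟨h1, h2, h3⟩
    · exact Or.inl ⟨b, F0, n, h1, h2, h3, by omega⟩
    · exact Or.inr (Or.inl ⟨h1, h2, by omega⟩)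
    · exact Or.inr (Or.inr ⟨h1, h2, by omega⟩)
  | six _ _ => cases hq
  | @call k s q a σ η F n h1 h2 h3 _ =>
    rcases s with _ | ⟨ρ, b⟩
    · cases hq
    · cases b
      · cases hq
      · cases hq
        cases h2
        exact Or.inl ⟨_, _, n, h1, h3, rfl, le_refl _⟩

theorem form_Q8 {k : Kind V} {ρ : Rl V} {σ η : ℤ} {F : Cont}
    (h : LOK S c P k (St.Q8 ρ) σ η F) :
    (∃ (b : ℤ) (F0 : Cont), LOK S c P k (St.Q7 ρ) σ b F0 ∧ F = F0 + mk b (m6 ρ) ∧ η ≤ b) ∨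
      (k = Kind.tok (St.Q8 ρ) ∧ F = mk σ (-P.H (St.Q8 ρ)) ∧ η ≤ σ) := by
  generalize hq : (St.Q8 ρ : St V) = q at h
  induction h with
  | base => cases hq
  | fresh s ρ σ h1 h2 => cases hq
  | cont s σ => rcases s with _ | ⟨ρ, b⟩ <;> [skip; cases b] <;> cases hq
  | tok q σ _ => subst hq; exact Or.inr ⟨rfl, rfl, le_refl _⟩
  | loop _ _ _ ih =>
    rcases ih hq with ⟨b, F0, h1, h3, h4⟩ | ⟨h1, h2, h3⟩
    · exact Or.inl ⟨b, F0, h1, h3, by omega⟩
    · exact Or.inr ⟨h1, h2, by omega⟩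
  | six h1 _ => cases hq; exact Or.inl ⟨_, _, h1, rfl, le_refl _⟩
  | @call k s q a σ η F n _ _ _ _ => rcases s with _ | ⟨ρ, b⟩ <;> [skip; cases b] <;> cases hq

theorem form_fin {k : Kind V} {σ η : ℤ} {F : Cont} (h : LOK S c P k St.fin σ η F) :
    (∃ (b : ℤ) (F0 : Cont) (n : ℕ), LOK S c P k St.start σ b F0 ∧ Der S c S.main n ∧
        F = F0 + mk b 0 + mk (b + n) 1 ∧ η = b + n) ∨
      (k = Kind.cont ∧ F = mk σ 1 ∧ η = σ) := by
  generalize hq : (St.fin : St V) = q at h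
  induction h with
  | base => cases hq
  | fresh s ρ σ h1 h2 => cases hq
  | cont s σ =>
    rcases s with _ | ⟨ρ, b⟩
    · exact Or.inr ⟨rfl, rfl, rfl⟩
    · cases b <;> cases hq
  | tok q σ h1 => exact absurd hq.symm h1
  | loop _ _ h1 _ => exact absurd hq.symm h1
  | six h1 _ => cases hq
  | @call k s q a σ η F n h1 h2 h3 _ =>
    rcases s with _ | ⟨ρ, b⟩
    · cases h2
      exact Or.inl ⟨_, _, n, h1, h3, rfl, rfl⟩
    · cases b <;> cases hq

theorem rk_tgt {s : Site V} {q : St V} {a : ℤ} (h : Src P s q a) : rk q < rk (tgt s) := by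
  cases h <;> simp [rk, tgt]

/-- token levels: the state has moved on, or only loops were made -/
theorem lok_tok {q0 q : St V} {σ η : ℤ} {F : Cont} (h : LOK S c P (Kind.tok q0) q σ η F) :
    (q = q0 ∧ η ≤ σ) ∨ rk q0 < rk q := by
  generalize hk : Kind.tok q0 = k at h
  induction h with
  | base => cases hk
  | fresh s ρ σ h1 h2 => cases hk
  | cont s σ => cases hk
  | tok q σ _ => cases hk; exact Or.inl ⟨rfl, le_refl _⟩
  | loop _ _ _ ih =>
    rcases ih hk with ⟨h1, h2⟩ | h1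
    · exact Or.inl ⟨h1, by omega⟩
    · exact Or.inr h1
  | @six k ρ σ η F _ ih =>
    right
    rcases ih hk with ⟨h1, h2⟩ | h1
    · rw [← h1]; simp [rk]
    · have : rk (St.Q7 ρ : St V) < rk (St.Q8 ρ : St V) := by simp [rk]
      omega
  | @call k s q a σ η F n _ h2 _ ih =>
    right
    have := rk_tgt h2
    rcases ih hk with ⟨h1, _⟩ | h1
    · rw [← h1]; exact this
    · omega

/-- the base level: only the first and the last state -/
theorem lok_base {q : St V} {σ η : ℤ} {F : Cont} (h : LOK S c P Kind.base q σ η F) :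
    q = St.start ∨ (q = St.fin ∧ ∃ n, Der S c S.main n) := by
  generalize hk : (Kind.base : Kind V) = k at h
  induction h with
  | base => exact Or.inl rfl
  | fresh s ρ σ h1 h2 => cases hk
  | cont s σ => cases hk
  | tok q σ _ => cases hk
  | loop _ h1 h2 ih =>
    rcases ih hk with h3 | ⟨h3, _⟩
    · exact absurd h3 h1
    · exact absurd h3 h2
  | @six k ρ σ η F _ ih =>
    rcases ih hk with h3 | ⟨h3, _⟩ <;> cases h3
  | @call k s q a σ η F n _ h2 h4 ih =>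
    cases h2 with
    | root => exact Or.inr ⟨rfl, n, h4⟩
    | one s ρ => rcases ih hk with h3 | ⟨h3, _⟩ <;> cases h3
    | two ρ => rcases ih hk with h3 | ⟨h3, _⟩ <;> cases h3

end Pool.Agent.H75.MX
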