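import Mathlib
import Pool.Agent.H75.MX.Forms

set_option autoImplicit false

/-!
[H75 MX FCALL] the content of a level at the time of a call.

Everything needed is in `Forms.lean` (proved). `Pos S c`: all derivable `n` are `≥ 1`.
Coefficients are compared tag by tag: the small marks are `m1 .. m7` (unfold them, split on
`ρ.1`), all their partial sums have absolute value `≤ 242`, `500 ≤ P.rt s ≤ P.Bd`,
`P.H q ≥ 2 Bd + 1000`, `P.H q + P.H q' + 2 Bd + 1000 < p`.

Cases of `Src P s q a` (`k ≠ base`):
* root: `form_start` gives `k = tok start`, `η = σ`, `F = mk σ (-H start)`, `a = 0`.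
* one: `form_P`: `F = mk σ x`, `x = m1 ρ` or `-H _`, `η ≤ σ`, `a = 9 + rt s`. Then `h = η` works
  for both `Low` claims: the coefficient at `η` is `a` or `a + x` (if `η = σ`), nonzero.
* two: `form_Q4`, `a = m4 ρ`:
  (i) `F = F0 + mk b (9 + rt s) + mk (b + n) (m3 ρ)`, `F0 = mk σ x` from `form_P`
      (`x = m1 ρ` or `-H _`), `b ≤ σ`, `n ≥ 1`, `η ≤ b + n`. At `h = b` the coefficient is
      `9 + rt s + [b = σ] x + [η = b] m4 ρ ≠ 0` (use `b ≤ σ` for `Low σ`). For `Low η`: if `b ≤ η`
      take `h = b`, otherwise `η < b ≤ σ`, `η < b + n` and the coefficient at `η` is `m4 ρ`.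
  (ii) `F = mk σ (m3 ρ)`, `η ≤ σ`: coefficient at `η` is `m4 ρ + [η = σ] m3 ρ ≠ 0`.
  (iii) `F = mk σ (-H _)`, `η ≤ σ`: the same.
Bounds: evaluate at an arbitrary `h`, `Finsupp.single_apply`, `split_ifs`, `abs_lt`, `omega`.
-/

namespace Pool.Agent.H75.MX

variable {V : Type} {S : Sys V} {c : ℕ} {P : Par V}

/-- the two possible starts of a level at state `P` -/
theorem fcall_P {k : Kind V} {s : Site V} {ρ : Rl V} {σ η : ℤ} {F : Cont}
    (h : LOK S c P k (St.P s ρ) σ η F) :
    η ≤ σ ∧ ∃ x : ℤ, F = mk σ x ∧ (x = m1 ρ ∨ x = -P.H (St.P s ρ)) := by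
  obtain ⟨h1, h2 | h2⟩ := form_P h
  · exact ⟨h1, _, h2.2.1, Or.inl rfl⟩
  · exact ⟨h1, _, h2.2, Or.inr rfl⟩

theorem fcall_m1 (ρ : Rl V) : m1 ρ = 4 ∨ m1 ρ = 1 := by
  unfold m1; split_ifs <;> simp

theorem fcall_m34 (ρ : Rl V) : (m3 ρ = -1 ∧ m4 ρ = 27) ∨ (m3 ρ = 81 ∧ m4 ρ = -54) := by
  unfold m3 m4; split_ifs <;> simp

theorem fact_call (hpos : Pos S c) {k : Kind V} {s : Site V} {q : St V} {a σ η : ℤ} {F : Cont}
    (h : LOK S c P k q σ η F) (hs : Src P s q a) (hk : k ≠ Kind.base) :
    Bdd P.p (F + mk η a) ∧ Low (F + mk η a) σ ∧ Low (F + mk η a) η := by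
  cases hs with
  | root =>
    rcases form_start h with h1 | ⟨_, h1, h2⟩
    · exact absurd h1.1 hk
    · subst h1
      subst h2
      have g1 := P.H_ge St.start
      have g2 := P.H_p St.start St.start
      have g3 := P.rt_ge none
      have g4 := P.rt_le none
      refine ⟨fun h => ?_, ⟨η, le_refl _, ?_⟩, ⟨η, le_refl _, ?_⟩⟩
      · simp only [Finsupp.add_apply, Finsupp.single_apply]
        rw [abs_lt]
        split_ifs <;> constructor <;> omega
      · simp only [Finsupp.add_apply, Finsupp.single_apply]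
        split_ifs <;> omega
      · simp only [Finsupp.add_apply, Finsupp.single_apply]
        split_ifs <;> omega
  | one s ρ =>
    obtain ⟨h1, x, h2, h3⟩ := fcall_P h
    subst h2
    have g1 := P.H_ge (St.P s ρ)
    have g2 := P.H_p (St.P s ρ) (St.P s ρ)
    have g3 := P.rt_ge s
    have g4 := P.rt_le s
    have g5 := fcall_m1 ρ
    unfold m2
    refine ⟨fun h => ?_, ⟨η, h1, ?_⟩, ⟨η, le_refl _, ?_⟩⟩
    · simp only [Finsupp.add_apply, Finsupp.single_apply]
      rw [abs_lt]
      split_ifs <;> constructor <;> omega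
    · simp only [Finsupp.add_apply, Finsupp.single_apply]
      split_ifs <;> omega
    · simp only [Finsupp.add_apply, Finsupp.single_apply]
      split_ifs <;> omega
  | two ρ =>
    have g6 := fcall_m34 ρ
    rcases form_Q4 h with ⟨s, b, F0, n, h1, h2, h3, h4⟩ | ⟨_, h3, h4⟩ | ⟨_, h3, h4⟩
    · obtain ⟨h5, x, h6, h7⟩ := fcall_P h1
      have hn := hpos _ _ h2
      subst h3
      subst h6
      have g1 := P.H_ge (St.P s ρ)
      have g2 := P.H_p (St.P s ρ) (St.P s ρ)
      have g3 := P.rt_ge s
      have g4 := P.rt_le s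
      have g5 := fcall_m1 ρ
      unfold m2
      refine ⟨fun h => ?_, ⟨b, h5, ?_⟩, ?_⟩
      · simp only [Finsupp.add_apply, Finsupp.single_apply]
        rw [abs_lt]
        split_ifs <;> constructor <;> omega
      · simp only [Finsupp.add_apply, Finsupp.single_apply]
        split_ifs <;> omega
      · by_cases hb : b ≤ η
        · refine ⟨b, hb, ?_⟩
          simp only [Finsupp.add_apply, Finsupp.single_apply]
          split_ifs <;> omega
        · refine ⟨η, le_refl _, ?_⟩
          simp only [Finsupp.add_apply, Finsupp.single_apply]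
          split_ifs <;> omega
    · subst h3
      have g1 := P.H_ge (St.Q4 ρ)
      have g2 := P.H_p (St.Q4 ρ) (St.Q4 ρ)
      have g3 := P.rt_ge none
      have g4 := P.rt_le none
      refine ⟨fun h => ?_, ⟨η, h4, ?_⟩, ⟨η, le_refl _, ?_⟩⟩
      · simp only [Finsupp.add_apply, Finsupp.single_apply]
        rw [abs_lt]
        split_ifs <;> constructor <;> omega
      · simp only [Finsupp.add_apply, Finsupp.single_apply]
        split_ifs <;> omega
      · simp only [Finsupp.add_apply, Finsupp.single_apply]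
        split_ifs <;> omega
    · subst h3
      have g1 := P.H_ge (St.Q4 ρ)
      have g2 := P.H_p (St.Q4 ρ) (St.Q4 ρ)
      have g3 := P.rt_ge none
      have g4 := P.rt_le none
      refine ⟨fun h => ?_, ⟨η, h4, ?_⟩, ⟨η, le_refl _, ?_⟩⟩
      · simp only [Finsupp.add_apply, Finsupp.single_apply]
        rw [abs_lt]
        split_ifs <;> constructor <;> omega
      · simp only [Finsupp.add_apply, Finsupp.single_apply]
        split_ifs <;> omega
      · simp only [Finsupp.add_apply, Finsupp.single_apply]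
        split_ifs <;> omega

end Pool.Agent.H75.MX
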