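import Mathlib
import Pool.Agent.H75.MX.Forms

set_option autoImplicit false

/-!
[H75 MX FPOP] the content of a level at the time of a return (nonzero case).

`F' = F + mk η (m7 ρ - rt s')`. Everything needed is in `Forms.lean` (proved). Tags:
A = 1, A' = 3, B = 9, E = 27, G = 81; every tag occurs at a given height with total multiplicity in
`{-1, 0, 1}`, so a coefficient vanishes iff all its tag parts vanish and the `rt` parts cancel
(`500 ≤ rt s`, `500 ≤ |rt s - rt s'|` for `s ≠ s'`, `H q ≥ 2 Bd + 1000`): after `split_ifs` this is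
`omega`.

By `form_Q8`, `form_Q7`, `form_Q4`, `form_P` the content `F` is one of
 (T8) `mk σ (-H)`, (T7) `mk σ (-H) + mk y m6`, (T4), (T1): `mk σ (-H) + ...` : for all token kinds
   the coefficient at `σ` contains `-H _` and `|rest| < H`, so `Low F' σ` by `h = σ`;
 (C7) `k = cont`, `F = mk σ m5 + mk y m6`, `y ≤ σ`, `η ≤ y`;
 (C4) `k = cont`, `F = mk σ m3 + mk b' m4 + mk g' m5 + mk y m6`, `b' ≤ σ`, `g' = b' + n'`,
   `y ≤ g'`, `η ≤ y`: in the `cont` cases no mark with tag `+B` was made, so the coefficient at `η`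
   has tag part `-B` (and `- rt s'`), nonzero: `Low F' η`. For `Low F' σ`: if `η ≤ σ` take `h = η`;
   otherwise `σ < η ≤ y ≤ g'` and `h = b' ≤ σ` works (tag E of `m4`);
 (F) `k = fresh s`, `F = mk σ m1 + mk b (9 + rt s) + mk g m3 + mk b' m4 + mk g' m5 + mk y m6`,
   `b ≤ σ`, `g = b + n`, `b' ≤ g`, `g' = b' + n'`, `y ≤ g'`, `η ≤ y`, `n, n' ≥ 1`.
   If `η ≠ b` or `rt s ≠ rt s'`: `h = b`. Otherwise `η = b`, `s = s'`; sum rule (`ρ.1 = false`):
   if `g' ≠ σ` take `h = σ` (tag A); else `y ≤ σ`; if `b' ≠ y` take `h = y` (tag E); else if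
   `g ≠ b'` take `h = b' ≤ σ` (tag G); otherwise `F' = 0`, excluded.
   Intersection rule (`ρ.1 = true`): if `g ≠ σ` or `g' ≠ σ` take `h = σ` (tags A, A'); else
   `y ≤ σ`, `b' ≤ σ`; if `y ≠ g'` take `h = y` (tag G); if `b' ≠ η` take `h = b'` (tag E);
   otherwise `F' = 0`.
The base kind is impossible (`lok_base`).
`Bdd`: evaluate at `h`, `Finsupp.single_apply`, `split_ifs`, `abs_lt`, `omega` (use
`P.H_p q q'`, `P.H_ge`, `P.rt_le`, `P.rt_ge`).
-/

namespace Pool.Agent.H75.MX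

variable {V : Type} {S : Sys V} {c : ℕ} {P : Par V}

theorem fpop_abs_mk (x a h : ℤ) : |(mk x a) h| ≤ |a| := by
  rw [Finsupp.single_apply]
  split_ifs
  · exact le_refl _
  · simp

theorem fpop_marks (ρ : Rl V) : |m1 ρ| ≤ 4 ∧ |m2 ρ| ≤ 9 ∧ |m3 ρ| ≤ 81 ∧ |m4 ρ| ≤ 54 ∧ |m5 ρ| ≤ 78 ∧
    |m6 ρ| ≤ 81 ∧ |m7 ρ| ≤ 36 := by
  unfold m1 m2 m3 m4 m5 m6 m7
  split_ifs <;> simp

/-- the possible contents of a level in state `Q8` -/
theorem fpop_form (hpos : Pos S c) {k : Kind V} {ρ : Rl V} {σ η : ℤ} {F : Cont}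
    (h : LOK S c P k (St.Q8 ρ) σ η F) :
    (∃ (q0 : St V) (G : Cont), k = Kind.tok q0 ∧ F = mk σ (-P.H q0) + G ∧
        ∀ x, |G x| ≤ P.Bd + 400) ∨
    (∃ y : ℤ, k = Kind.cont ∧ F = mk σ (m5 ρ) + mk y (m6 ρ) ∧ y ≤ σ ∧ η ≤ y) ∨
    (∃ (b n y : ℤ), k = Kind.cont ∧
        F = mk σ (m3 ρ) + mk b (m4 ρ) + mk (b + n) (m5 ρ) + mk y (m6 ρ) ∧
        b ≤ σ ∧ 1 ≤ n ∧ y ≤ b + n ∧ η ≤ y) ∨
    (∃ (s : Site V) (b b' y : ℤ) (n n' : ℕ), k = Kind.fresh s ∧
        F = mk σ (m1 ρ) + mk b (m2 ρ + P.rt s) + mk (b + n) (m3 ρ) + mk b' (m4 ρ) +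
          mk (b' + n') (m5 ρ) + mk y (m6 ρ) ∧
        b ≤ σ ∧ 1 ≤ n ∧ b' ≤ b + n ∧ 1 ≤ n' ∧ y ≤ b' + n' ∧ η ≤ y ∧ ρ ∈ S.bin ∧
        ρ.2.1 = callee S s ∧ Der S c ρ.2.2.1 n ∧ Der S c ρ.2.2.2 n') := by
  obtain ⟨k1, k2, k3, k4, k5, k6, k7⟩ := fpop_marks ρ
  have hrt := fun s => P.rt_ge s
  have hBd : 500 ≤ P.Bd := (P.rt_ge none).trans (P.rt_le none)
  rcases form_Q8 h with ⟨y, F7, h7, rfl, hy⟩ | ⟨hk, rfl, hy⟩
  · rcases form_Q7 h7 with ⟨b', F4, n', h4, hn', rfl, hb'⟩ | ⟨hk, rfl, hy'⟩ | ⟨hk, rfl, hy'⟩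
    · have hn1 := hpos _ _ hn'
      rcases form_Q4 h4 with ⟨s, b, F1, n, h1, hn, rfl, hb⟩ | ⟨hk, rfl, hb⟩ | ⟨hk, rfl, hb⟩
      · have hn2 := hpos _ _ hn
        obtain ⟨hbσ, ⟨hk, rfl, hρ, hc⟩ | ⟨hk, rfl⟩⟩ := form_P h1
        · right; right; right
          exact ⟨s, b, b', y, n, n', hk, rfl, hbσ, by omega, hb, by omega, hb', hy, hρ, hc, hn, hn'⟩
        · left
          refine ⟨_, mk b (m2 ρ + P.rt s) + mk (b + n) (m3 ρ) + mk b' (m4 ρ) +
            mk (b' + n') (m5 ρ) + mk y (m6 ρ), hk, ?_, ?_⟩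
          · simp only [add_assoc]
          · intro x
            have e1 : |(mk b (m2 ρ + P.rt s)) x| ≤ 9 + P.Bd := by
              refine (fpop_abs_mk _ _ _).trans ((abs_add_le _ _).trans ?_)
              have := P.rt_le s
              have h5 := P.rt_ge s
              rw [abs_of_nonneg (by omega : (0 : ℤ) ≤ P.rt s)]
              omega
            have e2 := (fpop_abs_mk (b + n) (m3 ρ) x).trans k3
            have e3 := (fpop_abs_mk b' (m4 ρ) x).trans k4
            have e4 := (fpop_abs_mk (b' + n') (m5 ρ) x).trans k5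
            have e5 := (fpop_abs_mk y (m6 ρ) x).trans k6
            simp only [Finsupp.add_apply]
            rw [abs_le] at *
            constructor <;> omega
      · right; right; left
        exact ⟨b', n', y, hk, rfl, hb, by omega, hb', hy⟩
      · left
        refine ⟨_, mk b' (m4 ρ) + mk (b' + n') (m5 ρ) + mk y (m6 ρ), hk, ?_, ?_⟩
        · simp only [add_assoc]
        · intro x
          have e3 := (fpop_abs_mk b' (m4 ρ) x).trans k4
          have e4 := (fpop_abs_mk (b' + n') (m5 ρ) x).trans k5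
          have e5 := (fpop_abs_mk y (m6 ρ) x).trans k6
          simp only [Finsupp.add_apply]
          rw [abs_le] at *
          constructor <;> omega
    · right; left
      exact ⟨y, hk, rfl, hy', hy⟩
    · left
      refine ⟨_, mk y (m6 ρ), hk, rfl, ?_⟩
      intro x
      have e5 := (fpop_abs_mk y (m6 ρ) x).trans k6
      omega
  · left
    refine ⟨_, 0, hk, (add_zero _).symm, ?_⟩
    intro x
    simp
    omega

theorem fpop_pbig (P : Par V) (q : St V) : P.H q + 4 * P.Bd + 2000 < P.p := by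
  have h1 := P.H_p q q
  have h2 := P.H_ge q
  have h3 : 500 ≤ P.Bd := (P.rt_ge none).trans (P.rt_le none)
  omega

theorem fact_pop_bdd (hpos : Pos S c) {k : Kind V} {ρ : Rl V} {σ η : ℤ} {F : Cont} (s : Site V)
    (h : LOK S c P k (St.Q8 ρ) σ η F) : Bdd P.p (F + mk η (m7 ρ - P.rt s)) := by
  obtain ⟨k1, k2, k3, k4, k5, k6, k7⟩ := fpop_marks ρ
  have hBd : 500 ≤ P.Bd := (P.rt_ge none).trans (P.rt_le none)
  have hs1 := P.rt_le s
  have hs2 := P.rt_ge s
  intro x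
  have e7' : |m7 ρ - P.rt s| ≤ 36 + P.Bd := by
    rw [abs_le] at *
    constructor <;> omega
  have e7 := (fpop_abs_mk η (m7 ρ - P.rt s) x).trans e7'
  rcases fpop_form hpos h with ⟨q0, G, _, rfl, hG⟩ | ⟨y, _, rfl, _, _⟩ |
    ⟨b, n, y, _, rfl, _, _, _, _⟩ | ⟨s0, b, b', y, n, n', _, rfl, _⟩
  · have h1 := fpop_pbig P q0
    have h2 := P.H_ge q0
    have h3 := hG x
    have h4 := fpop_abs_mk σ (-P.H q0) x
    rw [abs_neg, abs_of_nonneg (by omega : (0 : ℤ) ≤ P.H q0)] at h4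
    simp only [Finsupp.add_apply]
    rw [abs_lt]
    rw [abs_le] at *
    constructor <;> omega
  · have h1 := fpop_pbig P St.start
    have h2 := P.H_ge St.start
    have e1 := (fpop_abs_mk σ (m5 ρ) x).trans k5
    have e2 := (fpop_abs_mk y (m6 ρ) x).trans k6
    simp only [Finsupp.add_apply]
    rw [abs_lt]
    rw [abs_le] at *
    constructor <;> omega
  · have h1 := fpop_pbig P St.start
    have h2 := P.H_ge St.start
    have e1 := (fpop_abs_mk σ (m3 ρ) x).trans k3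
    have e2 := (fpop_abs_mk b (m4 ρ) x).trans k4
    have e3 := (fpop_abs_mk (b + n) (m5 ρ) x).trans k5
    have e4 := (fpop_abs_mk y (m6 ρ) x).trans k6
    simp only [Finsupp.add_apply]
    rw [abs_lt]
    rw [abs_le] at *
    constructor <;> omega
  · have h1 := fpop_pbig P St.start
    have h2 := P.H_ge St.start
    have e1 := (fpop_abs_mk σ (m1 ρ) x).trans k1
    have e2' : |m2 ρ + P.rt s0| ≤ 9 + P.Bd := by
      have h5 := P.rt_le s0
      have h6 := P.rt_ge s0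
      rw [abs_le] at *
      constructor <;> omega
    have e2 := (fpop_abs_mk b (m2 ρ + P.rt s0) x).trans e2'
    have e3 := (fpop_abs_mk (b + n) (m3 ρ) x).trans k3
    have e4 := (fpop_abs_mk b' (m4 ρ) x).trans k4
    have e5 := (fpop_abs_mk (b' + n') (m5 ρ) x).trans k5
    have e6 := (fpop_abs_mk y (m6 ρ) x).trans k6
    simp only [Finsupp.add_apply]
    rw [abs_lt]
    rw [abs_le] at *
    constructor <;> omega

/-- token levels -/
theorem fpop_tok {q0 : St V} {G : Cont} {σ η : ℤ} (ρ : Rl V) (s : Site V)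
    (hG : ∀ x, |G x| ≤ P.Bd + 400) :
    (mk σ (-P.H q0) + G + mk η (m7 ρ - P.rt s)) σ ≠ 0 := by
  obtain ⟨k1, k2, k3, k4, k5, k6, k7⟩ := fpop_marks ρ
  have hBd : 500 ≤ P.Bd := (P.rt_ge none).trans (P.rt_le none)
  have hs1 := P.rt_le s
  have hs2 := P.rt_ge s
  have e7' : |m7 ρ - P.rt s| ≤ 36 + P.Bd := by
    rw [abs_le] at *
    constructor <;> omega
  have e7 := (fpop_abs_mk η (m7 ρ - P.rt s) σ).trans e7'
  have h2 := P.H_ge q0
  have h3 := hG σ
  simp only [Finsupp.add_apply]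
  rw [Finsupp.single_apply, if_pos rfl]
  rw [abs_le] at *
  omega

/-- the evaluation used in all finite checks -/
theorem fpop_low {F : Cont} {x y : ℤ} (h1 : y ≤ x) (h2 : F y ≠ 0) : Low F x := ⟨y, h1, h2⟩

theorem fpop_low_c7 {ρ : Rl V} {σ η y : ℤ} (s : Site V) :
    (mk σ (m5 ρ) + mk y (m6 ρ) + mk η (m7 ρ - P.rt s)) η ≠ 0 := by
  have hs1 := P.rt_ge s
  simp only [Finsupp.add_apply, Finsupp.single_apply]
  unfold m5 m6 m7
  split_ifs <;> omega

theorem fpop_low_c4 {ρ : Rl V} {σ η b n y : ℤ} (s : Site V) :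
    (mk σ (m3 ρ) + mk b (m4 ρ) + mk (b + n) (m5 ρ) + mk y (m6 ρ) + mk η (m7 ρ - P.rt s)) η ≠ 0 := by
  have hs1 := P.rt_ge s
  simp only [Finsupp.add_apply, Finsupp.single_apply]
  unfold m3 m4 m5 m6 m7
  split_ifs <;> omega

theorem fpop_low_c4' {ρ : Rl V} {σ η b n y : ℤ} (s : Site V) (h1 : b ≤ σ) (h2 : 1 ≤ n)
    (h4 : η ≤ y) (h5 : σ < η) :
    (mk σ (m3 ρ) + mk b (m4 ρ) + mk (b + n) (m5 ρ) + mk y (m6 ρ) + mk η (m7 ρ - P.rt s)) b ≠ 0 := by
  have hs1 := P.rt_ge s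
  simp only [Finsupp.add_apply, Finsupp.single_apply]
  unfold m3 m4 m5 m6 m7
  split_ifs <;> omega

theorem fact_pop_cont (hpos : Pos S c) {ρ : Rl V} {σ η : ℤ} {F : Cont} (s : Site V)
    (h : LOK S c P Kind.cont (St.Q8 ρ) σ η F) : Low (F + mk η (m7 ρ - P.rt s)) η := by
  rcases fpop_form hpos h with ⟨q0, G, hk, _⟩ | ⟨y, _, rfl, h1, h2⟩ |
    ⟨b, n, y, _, rfl, _, _, _, _⟩ | ⟨s0, b, b', y, n, n', hk, _⟩
  · cases hk
  · exact fpop_low (le_refl _) (fpop_low_c7 s)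
  · exact fpop_low (le_refl _) (fpop_low_c4 s)
  · cases hk

/-- the coefficient at `b` of a fresh level -/
theorem fpop_fr_b {ρ : Rl V} {σ η b b' y : ℤ} {n n' : ℕ} (s0 s : Site V) (h2 : 1 ≤ n)
    (h4 : 1 ≤ n') (h : ¬ (η = b ∧ s0 = s)) :
    (mk σ (m1 ρ) + mk b (m2 ρ + P.rt s0) + mk (b + n) (m3 ρ) + mk b' (m4 ρ) +
          mk (b' + n') (m5 ρ) + mk y (m6 ρ) + mk η (m7 ρ - P.rt s)) b ≠ 0 := by
  have hs1 := P.rt_ge s
  have hs2 := P.rt_ge s0
  by_cases hη : η = b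
  · have hs : s0 ≠ s := fun e => h ⟨hη, e⟩
    have h5 := P.rt_sep s0 s hs
    simp only [Finsupp.add_apply, Finsupp.single_apply]
    unfold m1 m2 m3 m4 m5 m6 m7
    rcases le_abs.mp h5 with h6 | h6 <;> split_ifs <;> omega
  · simp only [Finsupp.add_apply, Finsupp.single_apply]
    unfold m1 m2 m3 m4 m5 m6 m7
    split_ifs <;> omega

theorem fpop_fr_alt {ρ : Rl V} {σ η b b' y : ℤ} {n n' : ℕ} (s : Site V) (h1 : b ≤ σ)
    (h2 : 1 ≤ n) (h3 : b' ≤ b + n) (h4 : 1 ≤ n') (h5 : y ≤ b' + n') (h6 : η ≤ y) (h7 : η = b) :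
    Low (mk σ (m1 ρ) + mk b (m2 ρ + P.rt s) + mk (b + n) (m3 ρ) + mk b' (m4 ρ) +
          mk (b' + n') (m5 ρ) + mk y (m6 ρ) + mk η (m7 ρ - P.rt s)) σ ∨
      (ρ.1 = false ∧ b' + n' = σ ∧ b' = y ∧ b + n = b') ∨
      (ρ.1 = true ∧ b + n = σ ∧ b' + n' = σ ∧ b' = η ∧ y = b' + n') := by
  subst h7
  by_cases hρ : ρ.1 = true
  · by_cases c1 : η + n = σ ∧ b' + n' = σ
    · obtain ⟨c1, c2⟩ := c1
      by_cases c3 : y = b' + n'
      · by_cases c4 : b' = η
        · exact Or.inr (Or.inr ⟨hρ, c1, c2, c4, c3⟩)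
        · left
          refine fpop_low (y := b') (by omega) ?_
          simp only [Finsupp.add_apply, Finsupp.single_apply, m1, m2, m3, m4, m5, m6, m7, hρ,
            if_true]
          split_ifs <;> omega
      · left
        refine fpop_low (y := y) (by omega) ?_
        simp only [Finsupp.add_apply, Finsupp.single_apply, m1, m2, m3, m4, m5, m6, m7, hρ,
          if_true]
        split_ifs <;> omega
    · left
      refine fpop_low (y := σ) (by omega) ?_
      simp only [Finsupp.add_apply, Finsupp.single_apply, m1, m2, m3, m4, m5, m6, m7, hρ,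
        if_true]
      split_ifs <;> omega
  · have hρ' : ρ.1 = false := by simpa using hρ
    by_cases c1 : b' + n' = σ
    · by_cases c2 : b' = y
      · by_cases c3 : η + n = b'
        · exact Or.inr (Or.inl ⟨hρ', c1, c2, c3⟩)
        · left
          refine fpop_low (y := b') (by omega) ?_
          simp only [Finsupp.add_apply, Finsupp.single_apply, m1, m2, m3, m4, m5, m6, m7, hρ',
            Bool.false_eq_true, if_false]
          split_ifs <;> omega
      · left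
        refine fpop_low (y := y) (by omega) ?_
        simp only [Finsupp.add_apply, Finsupp.single_apply, m1, m2, m3, m4, m5, m6, m7, hρ',
          Bool.false_eq_true, if_false]
        split_ifs <;> omega
    · left
      refine fpop_low (y := σ) (by omega) ?_
      simp only [Finsupp.add_apply, Finsupp.single_apply, m1, m2, m3, m4, m5, m6, m7, hρ',
        Bool.false_eq_true, if_false]
      split_ifs <;> omega

theorem fact_pop_low (hpos : Pos S c) {k : Kind V} {ρ : Rl V} {σ η : ℤ} {F : Cont} (s : Site V)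
    (h : LOK S c P k (St.Q8 ρ) σ η F) (h0 : F + mk η (m7 ρ - P.rt s) ≠ 0) :
    Low (F + mk η (m7 ρ - P.rt s)) σ := by
  rcases fpop_form hpos h with ⟨q0, G, _, rfl, hG⟩ | ⟨y, _, rfl, h1, h2⟩ |
    ⟨b, n, y, _, rfl, h1, h2, h3, h4⟩ | ⟨s0, b, b', y, n, n', _, rfl, h1, h2, h3, h4, h5, h6, _⟩
  · exact fpop_low (le_refl _) (fpop_tok ρ s hG)
  · exact fpop_low (h2.trans h1) (fpop_low_c7 s)
  · by_cases h5 : η ≤ σ
    · exact fpop_low h5 (fpop_low_c4 s)
    · exact fpop_low h1 (fpop_low_c4' s h1 h2 h4 (by omega))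
  · by_cases hs : η = b ∧ s0 = s
    · obtain ⟨hη, rfl⟩ := hs
      rcases fpop_fr_alt s0 h1 h2 h3 h4 h5 h6 hη with h7 | ⟨hρ, c1, c2, c3⟩ | ⟨hρ, c1, c2, c3, c4⟩
      · exact h7
      · exfalso
        apply h0
        subst hη
        ext x
        simp only [Finsupp.add_apply, Finsupp.single_apply, m1, m2, m3, m4, m5, m6, m7, hρ,
          Bool.false_eq_true, if_false, Finsupp.coe_zero, Pi.zero_apply]
        split_ifs <;> omega
      · exfalso
        apply h0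
        subst hη
        ext x
        simp only [Finsupp.add_apply, Finsupp.single_apply, m1, m2, m3, m4, m5, m6, m7, hρ,
          if_true, Finsupp.coe_zero, Pi.zero_apply]
        split_ifs <;> omega
    · exact fpop_low h1 (fpop_fr_b s0 s h2 h4 hs)

end Pool.Agent.H75.MX
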