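import Mathlib
import Pool.Agent.H75.MX.FPop

set_option autoImplicit false

/-!
[H75 MX FPOPZ] the content of a level at the time of a return (zero case): a legal completion.

Suppose `F + mk η (m7 ρ - rt s) = 0`. By `form_Q8`, `form_Q7`, `form_Q4`, `form_P` (in
`Forms.lean`, proved) the content `F` is one of the following (see the header of `FPop.lean`):
* token kinds: the coefficient at `σ` contains `-H _`, everything else is smaller: impossible;
* `cont` kinds: the coefficient at `η` has tag part `-B` and `- rt s`: impossible;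
* base: impossible by `lok_base`;
* `k = fresh s0`, `F = mk σ m1 + mk b (9 + rt s0) + mk g m3 + mk b' m4 + mk g' m5 + mk y m6`,
  `b ≤ σ`, `g = b + n`, `Der ρ.2.2.1 n`, `b' ≤ g`, `g' = b' + n'`, `Der ρ.2.2.2 n'`, `y ≤ g'`,
  `η ≤ y`, and `ρ ∈ S.bin`, `ρ.2.1 = callee S s0`. The coefficient at `b` gives `η = b` and
  `s0 = s` (`rt_sep`). Sum rule: coefficient at `σ`: `g' = σ`; at `y`: `b' = y`; at `g`: `g = b'`.
  So `σ - η = (g' - b') + (g - b) = n' + n` and `Der.sum` gives `Der (callee S s) (n + n')`.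
  Intersection rule: coefficient at `σ`: `g = σ` and `g' = σ`; at `b'`: `b' = η`. So
  `σ - η = n = n'` and `Der.cap`.
Take coefficients with `DFunLike.congr_fun h0 b` etc., `simp [Finsupp.single_apply]`, `split_ifs`,
`omega`; `m1 .. m7` unfold after `ρ.1 = true / false`.
-/

namespace Pool.Agent.H75.MX

variable {V : Type} {S : Sys V} {c : ℕ} {P : Par V}

theorem fact_pop_zero (hpos : Pos S c) {k : Kind V} {ρ : Rl V} {σ η : ℤ} {F : Cont} (s : Site V)
    (h : LOK S c P k (St.Q8 ρ) σ η F) (h0 : F + mk η (m7 ρ - P.rt s) = 0) :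
    k = Kind.fresh s ∧ ∃ n : ℕ, σ - η = n ∧ Der S c (callee S s) n := by
  rcases fpop_form hpos h with ⟨q0, G, _, rfl, hG⟩ | ⟨y, _, rfl, h1, h2⟩ |
    ⟨b, n, y, _, rfl, h1, h2, h3, h4⟩ |
    ⟨s0, b, b', y, n, n', hk, rfl, h1, h2, h3, h4, h5, h6, hρ, hc, d1, d2⟩
  · exact absurd (by rw [h0]; rfl) (fpop_tok (σ := σ) (η := η) (q0 := q0) ρ s hG)
  · exact absurd (by rw [h0]; rfl) (fpop_low_c7 (σ := σ) (η := η) (ρ := ρ) (y := y) s)
  · exact absurd (by rw [h0]; rfl)
      (fpop_low_c4 (σ := σ) (η := η) (ρ := ρ) (y := y) (b := b) (n := n) s)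
  · by_cases hs : η = b ∧ s0 = s
    · obtain ⟨hη, rfl⟩ := hs
      refine ⟨hk, ?_⟩
      rcases fpop_fr_alt s0 h1 h2 h3 h4 h5 h6 hη with ⟨x, _, h7⟩ | ⟨hρ', c1, c2, c3⟩ |
        ⟨hρ', c1, c2, c3, c4⟩
      · rw [h0] at h7
        exact absurd rfl h7
      · refine ⟨n + n', by push_cast; omega, ?_⟩
        obtain ⟨t, X, Y, Z⟩ := ρ
        simp only at hρ' hc d1 d2
        subst hρ'
        rw [← hc]
        exact Der.sum hρ d1 d2
      · refine ⟨n, by omega, ?_⟩
        have e : n = n' := by omega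
        subst e
        obtain ⟨t, X, Y, Z⟩ := ρ
        simp only at hρ' hc d1 d2
        subst hρ'
        rw [← hc]
        exact Der.cap hρ d1 d2
    · exact absurd (by rw [h0]; rfl) (fpop_fr_b (σ := σ) (η := η) (ρ := ρ) (y := y) (b := b)
        (b' := b') s0 s h2 h4 hs)

end Pool.Agent.H75.MX
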