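import Mathlib
import Pool.Agent.H75.MX.Forms

set_option autoImplicit false

/-!
[H75 MX FTOK] the content of a level at a mismatch.

`fact_tok`: `F' = F + mk η (H q)`. `Low F' η` by `h = η`: the coefficient contains `H q`, and the only
other large coefficient possible there is `-H q0` for `k = tok q0`, `η = σ`; but then `q ≠ q0` (by
`NT k q σ η`) and `|H q - H q0| ≥ 2 Bd + 1000`; all small marks and the `rt` mark together have
absolute value `≤ Bd + 500`.
`Low F' σ`: if `η ≤ σ` the same `h`. Otherwise `η > σ`: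
* `k = tok q0`: `h = σ`: the coefficient is `-H q0 + small ≠ 0`.
* `k = fresh s`: state `P`: `η ≤ σ`, impossible. States `Q4, Q7, Q8`: `h = b ≤ σ` (the mark
  `9 + rt s` at `b`; the other marks there are small; `η ≠ b` because `η > σ ≥ b`).
* `k = cont`: state `Q4`: `η ≤ σ`. State `Q7`: `F = mk σ m5`, `η ≤ σ`, or
  `F = mk σ m3 + mk b' m4 + mk g' m5`, `b' ≤ σ`, `g' > b'`: `h = b'` (tag E). State `Q8`:
  `F = mk σ m5 + mk y m6`: `η ≤ y ≤ σ`; or `F = mk σ m3 + mk b' m4 + mk g' m5 + mk y m6`,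
  `y ≥ η > σ ≥ b'`: `h = b'` (tag E).
* base is excluded by hypothesis; the state `start` has kind base or tok.
`fact_fin`: state `fin`, `F' = F + mk η (-J q')`, `q' ≠ start → J q' ≥ 1000`, `J start = 0`: by
`form_fin`, `form_start` (kind not base): either `k = cont`, `F = mk σ 1`, `η = σ`: coefficient at
`σ` is `1 - J q' ≠ 0`; or `F = mk σ (-H start) + mk σ 0 + mk (σ + n) 1`, `η = σ + n`, `n ≥ 1`:
coefficient at `σ` is `-H start ≠ 0`, and `σ ≤ η`.
All proofs: `form_*` from `Forms.lean` (proved), `Finsupp.single_apply`, `split_ifs`, `omega`.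
-/

namespace Pool.Agent.H75.MX

variable {V : Type} {S : Sys V} {c : ℕ} {P : Par V}

/-- bound for the marks of a level after its first mark -/
def ftokB (P : Par V) : St V → ℤ
  | St.start => 0
  | St.P _ _ => 0
  | St.Q4 _ => P.Bd + 90
  | St.Q7 _ => P.Bd + 222
  | St.Q8 _ => P.Bd + 303
  | St.fin => 1

theorem ftok_m (ρ : Rl V) : (m1 ρ = 4 ∧ m3 ρ = -1 ∧ m4 ρ = 27 ∧ m5 ρ = 78 ∧ m6 ρ = -81) ∨
    (m1 ρ = 1 ∧ m3 ρ = 81 ∧ m4 ρ = -54 ∧ m5 ρ = -1 ∧ m6 ρ = -27) := by
  unfold m1 m3 m4 m5 m6; split_ifs <;> simp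

theorem ftok_Bd (P : Par V) : 500 ≤ P.Bd := (P.rt_ge none).trans (P.rt_le none)

theorem ftok_ind {k : Kind V} {q : St V} {σ η : ℤ} {F : Cont} (h : LOK S c P k q σ η F) :
    ∃ (x : ℤ) (G : Cont), F = mk σ x + G ∧ (∀ h, |G h| ≤ ftokB P q) ∧
      ((∃ q0, k = Kind.tok q0 ∧ x = -P.H q0) ∨ ((∀ q0, k ≠ Kind.tok q0) ∧ |x| ≤ 81)) := by
  have hB := ftok_Bd P
  induction h with
  | base => exact ⟨0, 0, by simp, fun h => by simp [ftokB], Or.inr ⟨by simp, by simp⟩⟩
  | fresh s ρ σ h1 h2 =>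
    refine ⟨m1 ρ, 0, by simp, fun h => by simp [ftokB], Or.inr ⟨by simp, ?_⟩⟩
    rcases ftok_m ρ with h | h <;> rw [h.1] <;> norm_num
  | cont s σ =>
    refine ⟨post s, 0, by simp, fun h => ?_, Or.inr ⟨by simp, ?_⟩⟩
    · rcases s with _ | ⟨ρ, b⟩
      · simp [ftokB, tgt]
      · cases b <;> simp [ftokB, tgt] <;> omega
    · rcases s with _ | ⟨ρ, b⟩
      · simp [post]
      · cases b
        · rcases ftok_m ρ with h | h <;> simp [post, h.2.1]
        · rcases ftok_m ρ with h | h <;> simp [post, h.2.2.2.1]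
  | tok q σ _ =>
    refine ⟨-P.H q, 0, by simp, fun h => ?_, Or.inl ⟨q, rfl, rfl⟩⟩
    cases q <;> simp [ftokB] <;> omega
  | loop _ _ _ ih => exact ih
  | @six k ρ σ η F _ ih =>
    obtain ⟨x, G, h1, h2, h3⟩ := ih
    refine ⟨x, G + mk η (m6 ρ), by rw [h1, add_assoc], fun h => ?_, h3⟩
    have h4 := h2 h
    simp only [Finsupp.add_apply, Finsupp.single_apply]
    simp only [ftokB] at h4 ⊢
    rw [abs_le] at h4 ⊢
    rcases ftok_m ρ with g | g <;> split_ifs <;> constructor <;> omega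
  | @call k s q a σ η F n _ hs _ ih =>
    obtain ⟨x, G, h1, h2, h3⟩ := ih
    refine ⟨x, G + mk η a + mk (η + n) (post s), by rw [h1]; abel, fun h => ?_, h3⟩
    have h4 := h2 h
    simp only [Finsupp.add_apply, Finsupp.single_apply]
    cases hs with
    | root =>
      simp only [ftokB, tgt, post] at h4 ⊢
      rw [abs_le] at h4 ⊢
      split_ifs <;> constructor <;> omega
    | one s ρ =>
      have g3 := P.rt_ge s
      have g4 := P.rt_le s
      simp only [ftokB, tgt, post, m2] at h4 ⊢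
      rw [abs_le] at h4 ⊢
      rcases ftok_m ρ with g | g <;> split_ifs <;> constructor <;> omega
    | two ρ =>
      simp only [ftokB, tgt, post] at h4 ⊢
      rw [abs_le] at h4 ⊢
      rcases ftok_m ρ with g | g <;> split_ifs <;> constructor <;> omega

theorem ftok_B_le (q : St V) : ftokB P q ≤ P.Bd + 303 := by
  have hB := ftok_Bd P
  cases q <;> simp [ftokB] <;> omega

theorem ftok_fresh {s0 : Site V} {q : St V} {σ η : ℤ} {F : Cont} (hpos : Pos S c)
    (h : LOK S c P (Kind.fresh s0) q σ η F) (hf : q ≠ St.fin) (hη : σ < η) :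
    ∃ b, b ≤ σ ∧ F b ≠ 0 := by
  have a4 : ∀ {ρ : Rl V} {η : ℤ} {F : Cont}, LOK S c P (Kind.fresh s0) (St.Q4 ρ) σ η F →
      ∃ b, b ≤ σ ∧ 509 ≤ F b := by
    intro ρ η F h
    rcases form_Q4 h with ⟨s, b, F0, n, h1, h2, h3, h4⟩ | ⟨h3, _⟩ | ⟨h3, _⟩
    · obtain ⟨h5, h6⟩ := form_P h1
      rcases h6 with ⟨_, h6, _⟩ | ⟨h6, _⟩
      · have hn := hpos _ _ h2
        have g3 := P.rt_ge s
        refine ⟨b, h5, ?_⟩
        subst h3
        subst h6
        simp only [Finsupp.add_apply, Finsupp.single_apply, m2]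
        rcases ftok_m ρ with g | g <;> split_ifs <;> omega
      · cases h6
    · cases h3
    · cases h3
  have a7 : ∀ {ρ : Rl V} {η : ℤ} {F : Cont}, LOK S c P (Kind.fresh s0) (St.Q7 ρ) σ η F →
      ∃ b, b ≤ σ ∧ 454 ≤ F b := by
    intro ρ η F h
    rcases form_Q7 h with ⟨b', F0, n, h1, h2, h3, h4⟩ | ⟨h3, _⟩ | ⟨h3, _⟩
    · obtain ⟨b, h5, h6⟩ := a4 h1
      refine ⟨b, h5, ?_⟩
      subst h3
      simp only [Finsupp.add_apply, Finsupp.single_apply]
      rcases ftok_m ρ with g | g <;> split_ifs <;> omega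
    · cases h3
    · cases h3
  cases q with
  | start => rcases form_start h with h1 | h1 <;> cases h1.1
  | fin => exact absurd rfl hf
  | P s ρ => have := (form_P h).1; omega
  | Q4 ρ =>
    obtain ⟨b, h1, h2⟩ := a4 h
    exact ⟨b, h1, by omega⟩
  | Q7 ρ =>
    obtain ⟨b, h1, h2⟩ := a7 h
    exact ⟨b, h1, by omega⟩
  | Q8 ρ =>
    rcases form_Q8 h with ⟨y, F0, h1, h2, h3⟩ | ⟨h1, _⟩
    · obtain ⟨b, h5, h6⟩ := a7 h1
      refine ⟨b, h5, ?_⟩
      subst h2
      simp only [Finsupp.add_apply, Finsupp.single_apply]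
      rcases ftok_m ρ with g | g <;> split_ifs <;> omega
    · cases h1

theorem ftok_cont {q : St V} {σ η : ℤ} {F : Cont} (hpos : Pos S c)
    (h : LOK S c P Kind.cont q σ η F) (hf : q ≠ St.fin) (hη : σ < η) :
    ∃ b, b ≤ σ ∧ F b ≠ 0 := by
  have a7 : ∀ {ρ : Rl V} {η : ℤ} {F : Cont}, LOK S c P Kind.cont (St.Q7 ρ) σ η F → σ < η →
      ∃ b, b ≤ σ ∧ F b ≠ 0 := by
    intro ρ η F h hη
    rcases form_Q7 h with ⟨b', F0, n, h1, h2, h3, h4⟩ | ⟨_, _, h3⟩ | ⟨h3, _⟩
    · have hn := hpos _ _ h2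
      rcases form_Q4 h1 with ⟨s, b, F1, n1, h5, _, _, _⟩ | ⟨_, h5, h6⟩ | ⟨h5, _⟩
      · rcases (form_P h5).2 with h6 | h6 <;> cases h6.1
      · refine ⟨b', h6, ?_⟩
        subst h3
        subst h5
        simp only [Finsupp.add_apply, Finsupp.single_apply]
        rcases ftok_m ρ with g | g <;> split_ifs <;> omega
      · cases h5
    · omega
    · cases h3
  cases q with
  | start => rcases form_start h with h1 | h1 <;> cases h1.1
  | fin => exact absurd rfl hf
  | P s ρ => have := (form_P h).1; omega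
  | Q4 ρ =>
    rcases form_Q4 h with ⟨s, b, F1, n1, h5, _, _, _⟩ | ⟨_, _, h6⟩ | ⟨h5, _⟩
    · rcases (form_P h5).2 with h6 | h6 <;> cases h6.1
    · omega
    · cases h5
  | Q7 ρ => exact a7 h hη
  | Q8 ρ =>
    rcases form_Q8 h with ⟨y, F0, h1, h2, h3⟩ | ⟨h1, _⟩
    · obtain ⟨b, h5, h6⟩ := a7 h1 (by omega)
      refine ⟨b, h5, ?_⟩
      subst h2
      simp only [Finsupp.add_apply, Finsupp.single_apply]
      split_ifs
      · omega
      · simpa using h6
    · cases h1

theorem fact_tok_bdd (hpos : Pos S c) {k : Kind V} {q : St V} {σ η : ℤ} {F : Cont}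
    (h : LOK S c P k q σ η F) (hf : q ≠ St.fin) (hk : k ≠ Kind.base) :
    Bdd P.p (F + mk η (P.H q)) := by
  have hB := ftok_Bd P
  have hBq := ftok_B_le (P := P) q
  obtain ⟨x, G, h1, h2, h3⟩ := ftok_ind h
  intro h'
  have h4 := h2 h'
  subst h1
  have g1 := P.H_ge q
  have g2 := P.H_p q q
  simp only [Finsupp.add_apply, Finsupp.single_apply]
  rw [abs_le] at h4
  rw [abs_lt]
  rcases h3 with ⟨q0, _, h5⟩ | ⟨_, h5⟩
  · have g3 := P.H_ge q0
    have g4 := P.H_p q q0
    split_ifs <;> constructor <;> omega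
  · rw [abs_le] at h5
    split_ifs <;> constructor <;> omega

theorem fact_tok_low (hpos : Pos S c) {k : Kind V} {q : St V} {σ η : ℤ} {F : Cont}
    (h : LOK S c P k q σ η F) (hn : NT k q σ η) (hf : q ≠ St.fin) (hk : k ≠ Kind.base) :
    Low (F + mk η (P.H q)) σ ∧ Low (F + mk η (P.H q)) η := by
  have hB := ftok_Bd P
  have hBq := ftok_B_le (P := P) q
  obtain ⟨x, G, h1, h2, h3⟩ := ftok_ind h
  have g1 := P.H_ge q
  rcases h3 with ⟨q0, h5, h6⟩ | ⟨h5, h6⟩
  · have g3 := P.H_ge q0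
    have hq : η = σ → q ≠ q0 := fun h7 h8 => hn q0 h5 h8 h7
    have hsep : η = σ → 2 * P.Bd + 1000 ≤ |P.H q - P.H q0| := fun h7 => P.H_sep _ _ (hq h7)
    refine ⟨⟨σ, le_refl _, ?_⟩, ⟨η, le_refl _, ?_⟩⟩
    · have h4 := h2 σ
      subst h1
      simp only [Finsupp.add_apply, Finsupp.single_apply]
      rw [abs_le] at h4
      rcases eq_or_ne η σ with h8 | h8
      · have h9 := hsep h8
        rcases abs_cases (P.H q - P.H q0) with h10 | h10 <;> split_ifs <;> omega
      · split_ifs <;> omega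
    · have h4 := h2 η
      subst h1
      simp only [Finsupp.add_apply, Finsupp.single_apply]
      rw [abs_le] at h4
      rcases eq_or_ne η σ with h8 | h8
      · have h9 := hsep h8
        rcases abs_cases (P.H q - P.H q0) with h10 | h10 <;> split_ifs <;> omega
      · split_ifs <;> omega
  · rw [abs_le] at h6
    have hη : (F + mk η (P.H q)) η ≠ 0 := by
      have h4 := h2 η
      subst h1
      simp only [Finsupp.add_apply, Finsupp.single_apply]
      rw [abs_le] at h4
      split_ifs <;> omega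
    refine ⟨?_, ⟨η, le_refl _, hη⟩⟩
    by_cases h7 : η ≤ σ
    · exact ⟨η, h7, hη⟩
    · have h8 : ∃ b, b ≤ σ ∧ F b ≠ 0 := by
        cases k with
        | base => exact absurd rfl hk
        | fresh s => exact ftok_fresh hpos h hf (by omega)
        | cont => exact ftok_cont hpos h hf (by omega)
        | tok q0 => exact absurd rfl (h5 q0)
      obtain ⟨b, h9, h10⟩ := h8
      refine ⟨b, h9, ?_⟩
      have h11 : η ≠ b := by omega
      simpa [Finsupp.single_apply, h11] using h10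

theorem fact_fin (hpos : Pos S c) {k : Kind V} {σ η : ℤ} {F : Cont} (q' : St V)
    (h : LOK S c P k St.fin σ η F) (hk : k ≠ Kind.base) :
    Bdd P.p (F + mk η (-P.J q')) ∧ Low (F + mk η (-P.J q')) σ ∧ Low (F + mk η (-P.J q')) η := by
  have hB := ftok_Bd P
  have hJ : P.J q' = 0 ∨ 1000 ≤ P.J q' := by
    by_cases hq : q' = St.start
    · left; rw [hq]; exact P.J_start
    · right; exact P.J_ge q' hq
  have g1 := P.H_ge St.start
  have g2 := P.JH_p q' St.start
  rcases form_fin h with ⟨b, F0, n, h1, h2, h3, h4⟩ | ⟨_, h3, h4⟩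
  · have hn := hpos _ _ h2
    rcases form_start h1 with h5 | ⟨_, h5, h6⟩
    · exact absurd h5.1 hk
    · subst h3
      subst h6
      subst h4
      subst h5
      refine ⟨fun h' => ?_, ⟨b, le_refl _, ?_⟩, ⟨b, by omega, ?_⟩⟩
      · simp only [Finsupp.add_apply, Finsupp.single_apply]
        rw [abs_lt]
        split_ifs <;> constructor <;> omega
      · simp only [Finsupp.add_apply, Finsupp.single_apply]
        split_ifs <;> omega
      · simp only [Finsupp.add_apply, Finsupp.single_apply]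
        split_ifs <;> omega
  · subst h3
    subst h4
    refine ⟨fun h' => ?_, ⟨η, le_refl _, ?_⟩, ⟨η, le_refl _, ?_⟩⟩
    · simp only [Finsupp.add_apply, Finsupp.single_apply]
      rw [abs_lt]
      split_ifs <;> constructor <;> omega
    · simp only [Finsupp.add_apply, Finsupp.single_apply]
      split_ifs <;> omega
    · simp only [Finsupp.add_apply, Finsupp.single_apply]
      split_ifs <;> omega

end Pool.Agent.H75.MX
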