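import Mathlib
import Pool.Agent.H75.MX.Defs

set_option autoImplicit false

/-!
[H75 MX PAR] numerical parameters exist for finite `V`.

`Site V = Option (Rl V × Bool)` and `St V` are finite (`St V` embeds into a sum of finite types:
`Finite.of_injective`, or `Finite.of_surjective` from
`Unit ⊕ Unit ⊕ (Site V × Rl V) ⊕ Rl V ⊕ Rl V ⊕ Rl V`). Take injections `e : Site V → ℕ` and
`f : St V → ℕ` bounded by `N` (`Finite.exists_equiv_fin`, `Fin.val`), `rt s = 500 * (e s + 1)`,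
`Bd = 500 * (N + 1)`, `H q = (2 * Bd + 1000) * (f q + 1)`, `J q = 0` for `q = start` and
`J q = 1000 * (f q + 1)` otherwise, `p` a prime larger than everything
(`Nat.exists_infinite_primes`). For the products of constants with `f q` use `nlinarith` or
`Int.mul_le_mul`; `|a x - a y| = a |x - y| ≥ a`.
-/

namespace Pool.Agent.H75.MX

instance finite_St (V : Type) [Finite V] : Finite (St V) := by
  let f : (Unit ⊕ Unit) ⊕ (Site V × Rl V) ⊕ Rl V ⊕ Rl V ⊕ Rl V → St V := fun x =>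
    match x with
    | Sum.inl (Sum.inl _) => St.start
    | Sum.inl (Sum.inr _) => St.fin
    | Sum.inr (Sum.inl (s, ρ)) => St.P s ρ
    | Sum.inr (Sum.inr (Sum.inl ρ)) => St.Q4 ρ
    | Sum.inr (Sum.inr (Sum.inr (Sum.inl ρ))) => St.Q7 ρ
    | Sum.inr (Sum.inr (Sum.inr (Sum.inr ρ))) => St.Q8 ρ
  apply Finite.of_surjective f
  intro q
  cases q with
  | start => exact ⟨Sum.inl (Sum.inl ()), rfl⟩
  | fin => exact ⟨Sum.inl (Sum.inr ()), rfl⟩
  | P s ρ => exact ⟨Sum.inr (Sum.inl (s, ρ)), rfl⟩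
  | Q4 ρ => exact ⟨Sum.inr (Sum.inr (Sum.inl ρ)), rfl⟩
  | Q7 ρ => exact ⟨Sum.inr (Sum.inr (Sum.inr (Sum.inl ρ))), rfl⟩
  | Q8 ρ => exact ⟨Sum.inr (Sum.inr (Sum.inr (Sum.inr ρ))), rfl⟩

theorem par_inj (α : Type) [Finite α] : ∃ (N : ℕ) (e : α → ℕ), Function.Injective e ∧
    ∀ a, e a ≤ N := by
  obtain ⟨n, ⟨e⟩⟩ := Finite.exists_equiv_fin α
  refine ⟨n, fun a => (e a).val, ?_, fun a => (e a).isLt.le⟩
  intro a b h
  exact e.injective (Fin.ext h)

theorem par_sep (K : ℤ) (hK : 0 ≤ K) (x y : ℕ) (h : x ≠ y) :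
    K ≤ |K * ((x : ℤ) + 1) - K * ((y : ℤ) + 1)| := by
  have h1 : K * ((x : ℤ) + 1) - K * ((y : ℤ) + 1) = K * ((x : ℤ) - y) := by ring
  rw [h1, abs_mul, abs_of_nonneg hK]
  have h2 : (1 : ℤ) ≤ |(x : ℤ) - y| := by
    apply Int.one_le_abs
    intro h3
    apply h
    omega
  nlinarith

theorem exists_par (V : Type) [Finite V] : Nonempty (Par V) := by
  classical
  obtain ⟨N, e, he, heN⟩ := par_inj (Site V)
  obtain ⟨N', f, hf, hfN⟩ := par_inj (St V)
  set Bd : ℤ := 500 * ((N : ℤ) + 1) with hBd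
  set K : ℤ := 2 * Bd + 1000 with hK
  have hBd0 : 500 ≤ Bd := by rw [hBd]; nlinarith [Int.natCast_nonneg N]
  have hK0 : 0 ≤ K := by omega
  obtain ⟨p, hpge, hp⟩ := Nat.exists_infinite_primes
    ((1000 * ((N' : ℤ) + 1) + 2 * (K * ((N' : ℤ) + 1)) + K + 1).toNat)
  have hpge' : 1000 * ((N' : ℤ) + 1) + 2 * (K * ((N' : ℤ) + 1)) + K + 1 ≤ p :=
    (Int.self_le_toNat _).trans (by exact_mod_cast hpge)
  have hfH : ∀ q, K * ((f q : ℤ) + 1) ≤ K * ((N' : ℤ) + 1) := by
    intro q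
    apply mul_le_mul_of_nonneg_left _ hK0
    have := hfN q
    omega
  have hfH0 : ∀ q, K ≤ K * ((f q : ℤ) + 1) := by
    intro q
    have : (0 : ℤ) ≤ f q := Int.natCast_nonneg _
    nlinarith
  have hfJ : ∀ q, 1000 * ((f q : ℤ) + 1) ≤ 1000 * ((N' : ℤ) + 1) := by
    intro q
    have := hfN q
    omega
  have hN'0 : 0 ≤ K * ((N' : ℤ) + 1) := by positivity
  refine ⟨{ p := p, hp := hp, Bd := Bd, rt := fun s => 500 * ((e s : ℤ) + 1),
            H := fun q => K * ((f q : ℤ) + 1),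
            J := fun q => if q = St.start then 0 else 1000 * ((f q : ℤ) + 1),
            rt_ge := ?_, rt_le := ?_, rt_sep := ?_, H_ge := ?_, H_sep := ?_, H_p := ?_,
            J_start := ?_, J_ge := ?_, J_inj := ?_, J_p := ?_, JH_p := ?_ }⟩
  · intro s
    omega
  · intro s
    have := heN s
    simp only [hBd]
    omega
  · intro s s' h
    exact par_sep 500 (by norm_num) _ _ (fun h1 => h (he h1))
  · intro q
    exact hfH0 q
  · intro q q' h
    exact par_sep K hK0 _ _ (fun h1 => h (hf h1))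
  · intro q q'
    have h1 := hfH q
    have h2 := hfH q'
    omega
  · simp
  · intro q hq
    simp only [if_neg hq]
    omega
  · intro q q' h
    simp only at h
    split_ifs at h with h1 h2 h2
    · rw [h1, h2]
    · omega
    · omega
    · exact hf (by omega)
  · intro q q'
    have h1 := hfJ q
    have h2 := hfJ q'
    rw [abs_lt]
    split_ifs <;> constructor <;> omega
  · intro q q'
    have h1 := hfJ q
    have h2 := hfH q'
    split_ifs <;> omega

end Pool.Agent.H75.MX
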