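import Mathlib
import Pool.Agent.H75.MX.EMat
import Pool.Agent.H75.MX.Par

set_option autoImplicit false

/-!
[H75 MX MLIST] a finite list of matrices containing a representative of every edge. Uses
`edge_repr` (module EMAT) and `finite_St` (module PAR).

The set of triples `(q, G, q')` with `Edg' S P q G q'` is finite for finite `V`: it is contained in
the union of the ranges of five functions with finite domains (`Site V × St V × Rl V` for `call`:
`a` is determined by `s` and `q` (`Src` is functional), so use the domain of triples and the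
finite set of the possible values of `a`; `Site V × St V` for `leaf`, the constant `o` is
determined by `callee S s`; `Rl V × Site V`, `Rl V`, `St V`). One convenient way: the set of
`(s, q, a)` with `Src P s q a` is finite, being the union of `{(none, start, 0)}` and two ranges.
Then choose a representative `y` for every triple and take `L0` = the `toList` of the finite image.
-/

namespace Pool.Agent.H75.MX

variable {V : Type}

theorem mlist_src [Finite V] (P : Par V) :
    {x : Site V × St V × ℤ | Src P x.1 x.2.1 x.2.2}.Finite := by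
  have h1 : ({(none, St.start, 0)} : Set (Site V × St V × ℤ)).Finite := Set.finite_singleton _
  have h2 : (Set.range (fun x : Site V × Rl V =>
      ((some (x.2, false), St.P x.1 x.2, m2 x.2 + P.rt x.1) : Site V × St V × ℤ))).Finite :=
    Set.finite_range _
  have h3 : (Set.range (fun ρ : Rl V =>
      ((some (ρ, true), St.Q4 ρ, m4 ρ) : Site V × St V × ℤ))).Finite := Set.finite_range _
  apply ((h1.union h2).union h3).subset
  rintro ⟨s, q, a⟩ h
  simp only [Set.mem_setOf_eq] at h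
  cases h with
  | root => exact Or.inl (Or.inl rfl)
  | one s ρ => exact Or.inl (Or.inr ⟨(s, ρ), rfl⟩)
  | two ρ => exact Or.inr ⟨ρ, rfl⟩

theorem mlist_fin [Finite V] (S : Sys V) (P : Par V) :
    {x : St V × (ℕ → ℚ × ℚ → ℚ × ℚ) × St V | Edg' S P x.1 x.2.1 x.2.2}.Finite := by
  classical
  have hs := mlist_src P
  have h1 := (hs.prod (Set.finite_univ (α := Rl V))).image
    (fun x : (Site V × St V × ℤ) × Rl V =>
      ((x.1.2.1, (fun _ r => aT P.p (m1 x.2) (aS (aT P.p x.1.2.2 r))), St.P x.1.1 x.2) :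
        St V × (ℕ → ℚ × ℚ → ℚ × ℚ) × St V))
  have h2 := hs.image (fun x : Site V × St V × ℤ =>
      ((x.2.1, (fun c r => aT P.p (post x.1)
        (aD P.p (((((S.leaf (callee S x.1)).getD none).getD c : ℕ)) : ℤ) (aT P.p x.2.2 r))),
        tgt x.1) : St V × (ℕ → ℚ × ℚ → ℚ × ℚ) × St V))
  have h3 := Set.finite_range (fun x : Rl V × Site V =>
      ((St.Q8 x.1, (fun _ r => aT P.p (post x.2) (aS (aT P.p (m7 x.1 - P.rt x.2) r))),
        tgt x.2) : St V × (ℕ → ℚ × ℚ → ℚ × ℚ) × St V))
  have h4 := Set.finite_range (fun ρ : Rl V =>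
      ((St.Q7 ρ, (fun _ r => aT P.p (m6 ρ) r), St.Q8 ρ) :
        St V × (ℕ → ℚ × ℚ → ℚ × ℚ) × St V))
  have h5 := Set.finite_range (fun q : St V =>
      ((q, (fun _ r => aD P.p (-1) r), q) : St V × (ℕ → ℚ × ℚ → ℚ × ℚ) × St V))
  apply ((((h1.union h2).union h3).union h4).union h5).subset
  rintro ⟨q, G, q'⟩ h
  simp only [Set.mem_setOf_eq] at h
  cases h with
  | @call s _ a ρ e1 e2 e3 =>
    exact Or.inl (Or.inl (Or.inl (Or.inl ⟨((s, q, a), ρ), ⟨e1, trivial⟩, rfl⟩)))
  | @leaf s _ a o e1 e2 =>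
    refine Or.inl (Or.inl (Or.inl (Or.inr ⟨(s, q, a), e1, ?_⟩)))
    simp only [e2, Option.getD_some]
  | ret ρ s => exact Or.inl (Or.inl (Or.inr ⟨(ρ, s), rfl⟩))
  | six ρ => exact Or.inl (Or.inr ⟨ρ, rfl⟩)
  | loop _ _ _ => exact Or.inr ⟨q, rfl⟩

theorem mat_list [Finite V] (S : Sys V) (P : Par V) :
    ∃ L0 : List ((ℤ × ℤ × ℤ × ℤ) × (ℤ × ℤ × ℤ × ℤ)),
      (∀ y ∈ L0, ∃ q G q', Edg' S P q G q' ∧ Repr P q G q' y) ∧
      (∀ q G q', Edg' S P q G q' → ∃ y ∈ L0, Repr P q G q' y) := by
  classical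
  have hT := mlist_fin S P
  haveI := hT.to_subtype
  let F : {x : St V × (ℕ → ℚ × ℚ → ℚ × ℚ) × St V | Edg' S P x.1 x.2.1 x.2.2} →
      (ℤ × ℤ × ℤ × ℤ) × (ℤ × ℤ × ℤ × ℤ) := fun x => Classical.choose (edge_repr x.2)
  have hF : ∀ x, Repr P x.1.1 x.1.2.1 x.1.2.2 (F x) := fun x => Classical.choose_spec (edge_repr x.2)
  have hR := Set.finite_range F
  refine ⟨hR.toFinset.toList, ?_, ?_⟩
  · intro y hy
    rw [Finset.mem_toList, Set.Finite.mem_toFinset] at hy
    obtain ⟨x, rfl⟩ := hy
    exact ⟨x.1.1, x.1.2.1, x.1.2.2, x.2, hF x⟩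
  · intro q G q' h
    refine ⟨F ⟨(q, G, q'), h⟩, ?_, hF ⟨(q, G, q'), h⟩⟩
    rw [Finset.mem_toList, Set.Finite.mem_toFinset]
    exact ⟨_, rfl⟩

end Pool.Agent.H75.MX
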