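import Mathlib
import Pool.Agent.H75.MX.Val

set_option autoImplicit false

/-!
[H75 MX REP] how marks, `D ^ k` and `S` act on the row vector of a configuration.
Uses only `val_zero, val_add, val_mk` from `Val.lean` (another module, leave it alone).

`Rep p r L F η`: `r = t • (v * p ^ (4 η), val F * v - u)`, `(u, v) = vec p L`, `t ≠ 0`.
* `rep_T`: the second coordinate gets `r.1 * c / p = t v c p ^ (4 η - 1) = t * val (mk η c) * v`.
* `rep_D`: `p ^ (4 η) * p ^ (4 k) = p ^ (4 (η + k))`.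
* `rep_push`: `aS r = t (val F v - u, - v p ^ (4 η))` and `vec p (F :: L) = (v, val F v - u)`, so
  `aS r = t' ((val F v - u) p ^ (- 4 η), 0 - v)` with `t' = t p ^ (4 η)`.
* `rep_pop`: `vec p (F' :: L) = (v, val F' v - u)`, `r = t ((val F' v - u) p ^ (4 η), - v)`,
  `aS r = t (-v, -(val F' v - u) p ^ (4 η)) = t' (v p ^ (- 4 η), val F' v - u)`,
  `t' = - t p ^ (4 η)`.
* `rep_cancel`: `aXi q (aX q r) = - r` (or use the four lemmas: T, push, T, T, pop, T).
* `rep_jump`, `rep_jumpE`: compose the lemmas; `mk η a + mk η b = mk η (a + b)`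
  (`Finsupp.single_add`), `0 + F = F`.
-/

namespace Pool.Agent.H75.MX

variable {V : Type}

theorem rep_T {p : ℕ} (hp : p.Prime) {r : ℚ × ℚ} {L : List Cont} {F : Cont} {η : ℤ} (c : ℤ)
    (h : Rep p r L F η) : Rep p (aT p c r) L (F + mk η c) η := by
  have hp0 : (p : ℚ) ≠ 0 := by exact_mod_cast hp.ne_zero
  obtain ⟨t, ht, h1, h2⟩ := h
  refine ⟨t, ht, h1, ?_⟩
  simp only [aT]
  rw [h1, h2, val_add, val_mk, zpow_sub_one₀ hp0]
  ring

theorem rep_D {p : ℕ} (hp : p.Prime) {r : ℚ × ℚ} {L : List Cont} {F : Cont} {η : ℤ} (k : ℤ)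
    (h : Rep p r L F η) : Rep p (aD p k r) L F (η + k) := by
  have hp0 : (p : ℚ) ≠ 0 := by exact_mod_cast hp.ne_zero
  obtain ⟨t, ht, h1, h2⟩ := h
  refine ⟨t, ht, ?_, h2⟩
  simp only [aD]
  rw [h1, mul_add, zpow_add₀ hp0]
  ring

theorem rep_push {p : ℕ} (hp : p.Prime) {r : ℚ × ℚ} {L : List Cont} {F : Cont} {η : ℤ}
    (h : Rep p r L F η) : Rep p (aS r) (F :: L) 0 (-η) := by
  have hp0 : (p : ℚ) ≠ 0 := by exact_mod_cast hp.ne_zero
  obtain ⟨t, ht, h1, h2⟩ := h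
  have h3 : (p : ℚ) ^ (4 * η) * (p : ℚ) ^ (4 * (-η)) = 1 := by
    rw [← zpow_add₀ hp0]; ring_nf; exact zpow_zero _
  refine ⟨t * (p : ℚ) ^ (4 * η), mul_ne_zero ht (zpow_ne_zero _ hp0), ?_, ?_⟩
  · simp only [aS, vec]
    rw [h2]
    calc t * (val p F * (vec p L).2 - (vec p L).1)
        = t * (val p F * (vec p L).2 - (vec p L).1) * 1 := by ring
      _ = _ := by rw [← h3]; ring
  · simp only [aS, vec]
    rw [h1, val_zero]
    ring

theorem rep_pop {p : ℕ} (hp : p.Prime) {r : ℚ × ℚ} {L : List Cont} {F : Cont} {η : ℤ}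
    (h : Rep p r (F :: L) 0 η) : Rep p (aS r) L F (-η) := by
  have hp0 : (p : ℚ) ≠ 0 := by exact_mod_cast hp.ne_zero
  obtain ⟨t, ht, h1, h2⟩ := h
  have h3 : (p : ℚ) ^ (4 * η) * (p : ℚ) ^ (4 * (-η)) = 1 := by
    rw [← zpow_add₀ hp0]; ring_nf; exact zpow_zero _
  simp only [vec, val_zero] at h1 h2
  refine ⟨-(t * (p : ℚ) ^ (4 * η)), neg_ne_zero.2 (mul_ne_zero ht (zpow_ne_zero _ hp0)), ?_, ?_⟩
  · simp only [aS]
    rw [h2]
    calc t * (0 * (val p F * (vec p L).2 - (vec p L).1) - (vec p L).2)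
        = -(t * (vec p L).2) * 1 := by ring
      _ = _ := by rw [← h3]; ring
  · simp only [aS]
    rw [h1]
    ring

theorem rep_neg {p : ℕ} {r : ℚ × ℚ} {L : List Cont} {F : Cont} {η : ℤ}
    (h : Rep p r L F η) : Rep p (-r.1, -r.2) L F η := by
  obtain ⟨t, ht, h1, h2⟩ := h
  exact ⟨-t, neg_ne_zero.2 ht, by simp only [h1]; ring, by simp only [h2]; ring⟩

theorem rep_cancel (P : Par V) (q : St V) {r : ℚ × ℚ} {L : List Cont} {F : Cont} {η : ℤ}
    (h : Rep P.p r L F η) : Rep P.p (aXi P q (aX P q r)) L F η := by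
  have hp0 : (P.p : ℚ) ≠ 0 := by exact_mod_cast P.hp.ne_zero
  have h1 : aXi P q (aX P q r) = (-r.1, -r.2) := by
    simp only [aXi, aX, aT, aS, Prod.mk.injEq]
    push_cast
    constructor <;> ring
  rw [h1]
  exact rep_neg h

theorem rep_jump (P : Par V) (q q' : St V) {r : ℚ × ℚ} {L : List Cont} {F : Cont} {η : ℤ}
    (h : Rep P.p r L F η) :
    Rep P.p (aXi P q' (aX P q r)) (mk (-η) (P.J q - P.J q') :: (F + mk η (P.H q)) :: L)
      (mk η (-P.H q')) η := by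
  have h1 := rep_T P.hp (P.J q) (rep_push P.hp (rep_T P.hp (P.H q) h))
  have h2 := rep_T P.hp (-P.H q') (rep_push P.hp (rep_T P.hp (-P.J q') h1))
  rw [zero_add, zero_add, neg_neg, ← Finsupp.single_add, ← sub_eq_add_neg] at h2
  exact h2

theorem rep_jumpE (P : Par V) (q' : St V) {r : ℚ × ℚ} {L : List Cont} {F : Cont} {η : ℤ}
    (h : Rep P.p r L F η) :
    Rep P.p (aXi P q' r) ((F + mk η (-P.J q')) :: L) (mk (-η) (-P.H q')) (-η) := by
  have h2 := rep_T P.hp (-P.H q') (rep_push P.hp (rep_T P.hp (-P.J q') h))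
  rw [zero_add] at h2
  exact h2

end Pool.Agent.H75.MX
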