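import Mathlib
import Pool.Agent.H75.MX.Chain
import Pool.Agent.H75.MX.FCall
import Pool.Agent.H75.MX.FPop
import Pool.Agent.H75.MX.FTok

set_option autoImplicit false

/-!
[H75 MX SIJ] the stack invariant implies the chain condition. Uses `freeze` and the facts (other
modules, leave them alone).

Induction on `SI`. `SJ p L k σ`: `L = []` and `k = base`, or `k ≠ base`, `Ch p L`,
`TopLow L (-σ) ∨ Ex p L` and (`k ≠ cont → TopLow L (-σ)`).
* `nil`: clear.
* `call`: `F' = F + mk η a`. If `L = []` everything is true for `[F']` (`Ch`, `Ex`, `TopLow` are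
  `True` for one-element lists). Otherwise `k ≠ base` and `fact_call` gives `Bdd F'`, `Low F' σ`,
  `Low F' η`; `freeze` gives `Ch (F' :: L)`; `TopLow (F' :: L) (-(-η))` is `Low F' η` (`L ≠ []`).
* `pop`: `k ≠ base` by `lok_base` (state `Q8`), so `L ≠ []`, `fact_pop_bdd`, `fact_pop_low`,
  `freeze` give `Ch (F' :: L)`. The new kind is `cont`: `TopLow` or `Ex`: if `k = cont` then
  `fact_pop_cont` gives `Low F' η`; otherwise `TopLow L (-σ)` and `freeze` gives `Ex (F' :: L)`.
* `token`: `F1 = F + mk η (H q)`, `F2 = mk (-η) (J q - J q')`. For `F1 :: L`: if `L = []` clear,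
  otherwise `fact_tok_bdd`, `fact_tok_low`, `freeze`. `F2` is bounded (`J_p`), nonzero
  (`J_inj`), `Low F2 (-η)`; `freeze` again with `x = -η`, `TopLow (F1 :: L) (- -η)`; and
  `TopLow (F2 :: F1 :: L) (-η) = Low F2 (-η)`.
* `tokenE`: `F1 = F + mk η (-J q')`, `fact_fin`.
`kind_base`: `SI` with kind `base` has `L = []` and `L = []` has kind `base` (cases).
-/

namespace Pool.Agent.H75.MX

variable {V : Type} {S : Sys V} {c : ℕ} {P : Par V}

private theorem sij_top {L : List Cont} {F : Cont} {x : ℤ} (h : Low F x) :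
    TopLow (F :: L) x := by
  cases L with
  | nil => exact trivial
  | cons F' L => exact h

private theorem sij_one {p : ℕ} {L : List Cont} {k : Kind V} {σ η : ℤ} {F' : Cont} (hp : p.Prime)
    (hJ : SJ p L k σ)
    (hk : k ≠ Kind.base → Bdd p F' ∧ Low F' σ ∧ Low F' η) :
    Ch p (F' :: L) ∧ TopLow (F' :: L) η := by
  rcases hJ with ⟨rfl, _⟩ | ⟨hb, hC, hT, _⟩
  · exact ⟨trivial, trivial⟩
  · obtain ⟨h1, h2, h3⟩ := hk hb
    exact ⟨(freeze hp hC h1 h2 hT).1, sij_top h3⟩

theorem si_sj (hpos : Pos S c) {L : List Cont} {k : Kind V} {σ : ℤ} (h : SI S c P L k σ) :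
    SJ P.p L k σ := by
  induction h with
  | nil => exact Or.inl ⟨rfl, rfl⟩
  | @call L k s q a σ η F hS hL hs ih =>
    right
    obtain ⟨h1, h2⟩ := sij_one (η := η) (F' := F + mk η a) P.hp ih
      (fun hk => fact_call hpos hL hs hk)
    refine ⟨by simp, h1, Or.inl ?_, fun _ => ?_⟩
    · rw [neg_neg]; exact h2
    · rw [neg_neg]; exact h2
  | @pop L k ρ σ η F s hS hL h0 ih =>
    right
    have hkb : k ≠ Kind.base := by
      intro hk
      subst hk
      rcases lok_base hL with h3 | ⟨h3, _⟩ <;> cases h3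
    rcases ih with ⟨_, hk⟩ | ⟨_, hC, hT, hK⟩
    · exact absurd hk hkb
    · have hB := fact_pop_bdd (P := P) hpos s hL
      have hLo := fact_pop_low (P := P) hpos s hL h0
      have hF := freeze P.hp hC hB hLo hT
      refine ⟨by simp, hF.1, ?_, fun hc => absurd rfl hc⟩
      by_cases hc : k = Kind.cont
      · left
        subst hc
        rw [neg_neg]
        exact sij_top (fact_pop_cont hpos s hL)
      · right
        exact hF.2 (hK hc)
  | @token L k q σ η F q' hS hL hn hf hq ih =>
    right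
    obtain ⟨h1, h2⟩ := sij_one (η := η) (F' := F + mk η (P.H q)) P.hp ih
      (fun hk => ⟨fact_tok_bdd hpos hL hf hk, fact_tok_low hpos hL hn hf hk⟩)
    have hne : P.J q - P.J q' ≠ 0 := by
      intro h
      exact hq (P.J_inj (by omega))
    have hB : Bdd P.p (mk (-η) (P.J q - P.J q')) := by
      intro h
      have hJ := P.J_p q q'
      have hp0 := P.hp.pos
      rw [Finsupp.single_apply]
      split_ifs
      · exact hJ
      · simpa using hp0
    have hLow : Low (mk (-η) (P.J q - P.J q')) (-η) := by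
      refine ⟨-η, le_refl _, ?_⟩
      rw [Finsupp.single_eq_same]
      exact hne
    have hF := freeze P.hp h1 hB hLow (Or.inl (by rw [neg_neg]; exact h2))
    exact ⟨by simp, hF.1, Or.inl (sij_top hLow), fun _ => sij_top hLow⟩
  | @tokenE L k σ η F q' hS hL ih =>
    right
    obtain ⟨h1, h2⟩ := sij_one (η := η) (F' := F + mk η (-P.J q')) P.hp ih
      (fun hk => fact_fin hpos q' hL hk)
    refine ⟨by simp, h1, Or.inl ?_, fun _ => ?_⟩
    · rw [neg_neg]; exact h2
    · rw [neg_neg]; exact h2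

/-- the last freeze, needed at the end of a run -/
theorem si_tok_ne (hpos : Pos S c) {L : List Cont} {k : Kind V} {q : St V} {σ η : ℤ} {F : Cont}
    (h : SI S c P L k σ) (h1 : LOK S c P k q σ η F) (hn : NT k q σ η) (hf : q ≠ St.fin) :
    (vec P.p ((F + mk η (P.H q)) :: L)).2 ≠ 0 :=
  vec_ne (sij_one (η := η) P.hp (si_sj hpos h)
    (fun hk => ⟨fact_tok_bdd hpos h1 hf hk, fact_tok_low hpos h1 hn hf hk⟩)).1

end Pool.Agent.H75.MX
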