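import Mathlib
import Pool.Agent.H75.MX.Rep
import Pool.Agent.H75.MX.FPopZ
import Pool.Agent.H75.MX.SIJ

set_option autoImplicit false

/-!
[H75 MX STEP] soundness: the invariant is preserved and gives the conclusion.

`jump`: from `Inv r q` and `q' ≠ fin` to the configuration at `q'` (without `NT`):
* `q = q'`: `aXf P q = aX P q`, `rep_cancel`, same data.
* `q ≠ q'`, `q ≠ fin`: `rep_jump`, `SI.token`, `LOK.tok q' η`.
* `q = fin`: `aXf P fin r = r`, `rep_jumpE`, `SI.tokenE`, `LOK.tok q' (-η)`.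
`edge`: from a configuration at `q'` through an edge `q' → q''`:
* `loop`: `rep_D`, `LOK.loop`; `NT`: if `k = tok q0`, `q' = q0` then `η ≤ σ` by `lok_tok`, so
  `η - 1 ≠ σ` (`lok_tok` gives `(q = q0 ∧ η ≤ σ) ∨ rk q0 < rk q`; the second contradicts `q = q0`).
* `six`: `rep_T`, `LOK.six`; `NT`: if `k = tok (Q8 ρ)` then `lok_tok` at `Q7 ρ` gives `Q7 ρ = Q8 ρ`
  or `4 < 3`.
* `leaf`: `rep_T`, `rep_D`, `rep_T`, `LOK.call` with `Der.leaf`; `NT` by `rk_tgt` and `lok_tok`.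
* `call`: `rep_T`, `rep_push`, `rep_T` (`0 + mk _ _`), `SI.call`, `LOK.fresh`; `NT`: kind `fresh`.
* `ret`: `F' = F + mk η (m7 ρ - rt s)`. If `F' ≠ 0`: `rep_T`, `rep_push`, `rep_T`, `SI.pop`,
  `LOK.cont`; `NT`: kind `cont`. If `F' = 0`: `fact_pop_zero`: `k = fresh s`, `σ - η = n`,
  `Der (callee S s) n`. The only constructor of `SI` with kind `fresh s` is `SI.call`:
  `L = (F0 + mk η0 a) :: L0`, `σ = -η0`, `SI L0 k0 σ0`, `LOK k0 q0 σ0 η0 F0`, `Src s q0 a`. Then
  `rep_T`, `rep_pop`, `rep_T` give the configuration `(L0, F0 + mk η0 a + mk (η0 + n) (post s))`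
  with exponent `-η = η0 + n`: `LOK.call`. `NT` by `rk_tgt`, `lok_tok`.
`run_inv`: induction on `Run`; start: `SI.nil`, `LOK.base`, `NT` trivial, `Rep`:
`vec p [] = (-1, 0)`, so the row vector is `(0, 1)`. An edge never starts at `fin`
(`edg_ne_fin`).
`sound`: `Inv` for `r, q`. If `q = fin`: `(aXf r).1 = r.1 = t * v * p ^ (4 η) = 0` so `v = 0`, but
`si_sj` and `vec_ne` show `v ≠ 0` unless `L = []`, `k = base`; then `lok_base` gives the claim. If
`q ≠ fin`: `(aX P q r).1 = (aT H r).2 = t * (vec ((F + mk η (H q)) :: L)).2 ≠ 0` by `si_tok_ne`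
(use `rep_T`).
-/

namespace Pool.Agent.H75.MX

variable {V : Type} {S : Sys V} {c : ℕ} {P : Par V}

theorem edg_ne_fin {q q' : St V} {g : ℚ × ℚ → ℚ × ℚ} (h : Edg S c P q g q') : q ≠ St.fin := by
  cases h with
  | call ρ h1 _ _ => cases h1 <;> simp
  | leaf h1 _ => cases h1 <;> simp
  | ret ρ s => simp
  | six ρ => simp
  | loop _ _ h2 => exact h2

theorem step_aXf {q : St V} (hq : q ≠ St.fin) (r : ℚ × ℚ) : aXf P q r = aX P q r := by
  cases q with
  | fin => exact absurd rfl hq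
  | start => rfl
  | P s ρ => rfl
  | Q4 ρ => rfl
  | Q7 ρ => rfl
  | Q8 ρ => rfl

theorem jump {r : ℚ × ℚ} {q : St V} (q' : St V) (hq : q' ≠ St.fin) (h : Inv S c P r q) :
    ∃ (L : List Cont) (k : Kind V) (σ η : ℤ) (F : Cont), SI S c P L k σ ∧
      LOK S c P k q' σ η F ∧ Rep P.p (aXi P q' (aXf P q r)) L F η := by
  obtain ⟨L, k, σ, η, F, h1, h2, h3, h4⟩ := h
  by_cases hqq : q = q'
  · subst hqq
    refine ⟨L, k, σ, η, F, h1, h2, ?_⟩
    rw [step_aXf hq]
    exact rep_cancel P q h4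
  · by_cases hf : q = St.fin
    · subst hf
      exact ⟨_, _, _, _, _, SI.tokenE q' h1 h2, LOK.tok q' (-η) hq, rep_jumpE P q' h4⟩
    · rw [step_aXf hf]
      exact ⟨_, _, _, _, _, SI.token q' h1 h2 h3 hf hqq, LOK.tok q' η hq, rep_jump P q q' h4⟩

theorem edge (hpos : Pos S c) {r : ℚ × ℚ} {q q' : St V} {g : ℚ × ℚ → ℚ × ℚ} {L : List Cont}
    {k : Kind V} {σ η : ℤ} {F : Cont} (h1 : SI S c P L k σ) (h2 : LOK S c P k q σ η F)
    (h3 : Rep P.p r L F η) (h : Edg S c P q g q') : Inv S c P (g r) q' := by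
  cases h with
  | @call s _ a ρ hs hρ hc =>
    refine ⟨_, _, _, _, _, SI.call h1 h2 hs, LOK.fresh s ρ (-η) hρ hc, ?_, ?_⟩
    · intro q0 hk
      cases hk
    · have h4 := rep_T P.hp (m1 ρ) (rep_push P.hp (rep_T P.hp a h3))
      rwa [zero_add] at h4
  | @leaf s _ a o hs ho =>
    refine ⟨L, k, σ, η + ((o.getD c : ℕ) : ℤ), _, h1, LOK.call h2 hs (Der.leaf ho), ?_, ?_⟩
    · intro q0 hk hq
      subst hk
      have h5 := rk_tgt hs
      rcases lok_tok h2 with ⟨h6, _⟩ | h6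
      · rw [hq, h6] at h5
        omega
      · rw [hq] at h5
        omega
    · exact rep_T P.hp (post s) (rep_D P.hp _ (rep_T P.hp a h3))
  | ret ρ s =>
    by_cases h0 : F + mk η (m7 ρ - P.rt s) = 0
    · obtain ⟨hk, n, hn, hD⟩ := fact_pop_zero hpos s h2 h0
      subst hk
      cases h1 with
      | @call L0 k0 _ q0 a σ0 η0 F0 hS0 hL0 hs0 =>
        have hη : η0 + (n : ℤ) = -η := by omega
        have h4 := rep_T P.hp (m7 ρ - P.rt s) h3
        rw [h0] at h4
        have h5 := rep_T P.hp (post s) (rep_pop P.hp h4)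
        rw [← hη] at h5
        refine ⟨L0, k0, σ0, η0 + (n : ℤ), _, hS0, LOK.call hL0 hs0 hD, ?_, h5⟩
        intro q1 hk hq
        subst hk
        have h6 := rk_tgt hs0
        rcases lok_tok hL0 with ⟨h7, _⟩ | h7
        · rw [hq, h7] at h6
          omega
        · rw [hq] at h6
          omega
    · refine ⟨_, _, _, _, _, SI.pop s h1 h2 h0, LOK.cont s (-η), ?_, ?_⟩
      · intro q0 hk
        cases hk
      · have h4 := rep_T P.hp (post s) (rep_push P.hp (rep_T P.hp (m7 ρ - P.rt s) h3))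
        rwa [zero_add] at h4
  | six ρ =>
    refine ⟨L, k, σ, η, _, h1, LOK.six h2, ?_, rep_T P.hp (m6 ρ) h3⟩
    intro q0 hk hq
    subst hk
    subst hq
    rcases lok_tok h2 with ⟨h4, _⟩ | h4
    · cases h4
    · simp [rk] at h4
  | loop _ h4 h5 =>
    refine ⟨L, k, σ, η - 1, F, h1, LOK.loop h2 h4 h5, ?_, ?_⟩
    · intro q0 hk hq
      subst hk
      subst hq
      rcases lok_tok h2 with ⟨_, h6⟩ | h6
      · omega
      · omega
    · have h6 := rep_D P.hp (-1) h3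
      rwa [← sub_eq_add_neg] at h6

theorem run_inv (hpos : Pos S c) {m : ℕ} {r : ℚ × ℚ} {q : St V} (h : Run S c P m r q) :
    Inv S c P r q := by
  induction h with
  | init =>
    refine ⟨[], Kind.base, 0, 0, 0, SI.nil, LOK.base, ?_, 1, one_ne_zero, ?_, ?_⟩
    · intro q0 hk
      cases hk
    · simp [vec]
    · simp [vec]
  | @step m r q q' q'' g _ hE ih =>
    obtain ⟨L, k, σ, η, F, h1, h2, h3⟩ := jump q' (edg_ne_fin hE) ih
    exact edge hpos h1 h2 h3 hE

/-- soundness -/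
theorem sound (hpos : Pos S c) {m : ℕ} {r : ℚ × ℚ} {q : St V} (h : Run S c P m r q)
    (h0 : (aXf P q r).1 = 0) : ∃ n, Der S c S.main n := by
  obtain ⟨L, k, σ, η, F, h1, h2, h3, h4⟩ := run_inv hpos h
  by_cases hf : q = St.fin
  · subst hf
    have h5 : r.1 = 0 := h0
    obtain ⟨t, ht, h6, _⟩ := h4
    rw [h6] at h5
    have hp : ((P.p : ℚ) ^ (4 * η)) ≠ 0 := by
      have : (P.p : ℚ) ≠ 0 := by exact_mod_cast P.hp.ne_zero
      exact zpow_ne_zero _ this
    have h7 : (vec P.p L).2 = 0 := by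
      rcases mul_eq_zero.mp h5 with h8 | h8
      · exact absurd h8 ht
      · rcases mul_eq_zero.mp h8 with h9 | h9
        · exact h9
        · exact absurd h9 hp
    rcases si_sj hpos h1 with ⟨_, hk⟩ | ⟨_, hC, _⟩
    · subst hk
      rcases lok_base h2 with h8 | ⟨_, n, hn⟩
      · cases h8
      · exact ⟨n, hn⟩
    · exact absurd h7 (vec_ne hC)
  · exfalso
    rw [step_aXf hf] at h0
    have h5 := si_tok_ne hpos h1 h2 h3 hf
    obtain ⟨t, ht, _, h7⟩ := rep_T P.hp (P.H q) h4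
    have h8 : (aX P q r).1 = (aT P.p (P.H q) r).2 := rfl
    rw [h8, h7] at h0
    rcases mul_eq_zero.mp h0 with h9 | h9
    · exact ht h9
    · exact h5 h9

end Pool.Agent.H75.MX
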