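import Mathlib
import Pool.Agent.H75.MX.MList
import Pool.Agent.H75.MX.Step
import Pool.Agent.H75.MX.Comp

set_option autoImplicit false

/-!
[H75 MX MTHM] number systems and semigroups of integer matrices. Uses `mat_list`, `rowA_mul`,
`exists_par`, `sound`, `complete` (other modules).

Fix `P` from `exists_par V`, `L0` from `mat_list`. Fix `c ≥ 1`; `Pos S c` by induction on `Der`
(constants are `≥ 1`). `M 0 0` is the first coordinate of `rowA M (1, 0)`, and
`aXf P start (0, 1) = (1, 0)` because `P.J start = 0`.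
(→) For `M` in the closure: for all `m r q` with `Run S c P m r q` there are `m' r' q' t` with
`t ≠ 0`, `Run S c P m' r' q'`, `rowA M (aXf P q r) = t • aXf P q' r'`: by
`Subsemigroup.closure_induction` (generators: `edg_iff`, `Run.step`, linearity of `rowA`;
products: `rowA_mul`). Apply it to `Run.init` and use `sound`.
(←) For `Run S c P m r q`, either `m = 0` or there are `M` in the closure and `t ≠ 0` with
`rowA M (1, 0) = t • aXf P q r`: induction on `Run`. Apply it to the run of `complete`.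
-/

namespace Pool.Agent.H75.MX

variable {V : Type}

theorem mthm_pos {S : Sys V} (hleaf : ∀ X k, S.leaf X = some (some k) → 1 ≤ k) {c : ℕ}
    (hc : 1 ≤ c) : Pos S c := by
  intro X n h
  induction h with
  | @leaf X o ho =>
    cases o with
    | none => simpa using hc
    | some k => simpa using hleaf X k ho
  | sum _ _ _ h1 h2 => omega
  | cap _ _ _ h1 _ => exact h1

theorem mthm_smul (M : Matrix (Fin 2) (Fin 2) ℤ) (t : ℚ) (r : ℚ × ℚ) :
    rowA M (t • r) = t • rowA M r := by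
  simp only [rowA, Prod.smul_mk, Prod.smul_fst, Prod.smul_snd, smul_eq_mul, Prod.mk.injEq]
  constructor <;> ring

theorem matrices [Finite V] (S : Sys V) (hleaf : ∀ X k, S.leaf X = some (some k) → 1 ≤ k) :
    ∃ (p : ℕ) (L0 : List ((ℤ × ℤ × ℤ × ℤ) × (ℤ × ℤ × ℤ × ℤ))), ∀ c : ℕ, 1 ≤ c →
      ((∃ M ∈ Subsemigroup.closure {N : Matrix (Fin 2) (Fin 2) ℤ |
          ∃ x ∈ L0.map (comb ((p : ℤ) ^ (4 * c))), N = !![x.1, x.2.1; x.2.2.1, x.2.2.2]},
        M 0 0 = 0) ↔ ∃ n, Der S c S.main n) := by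
  obtain ⟨P⟩ := exists_par V
  obtain ⟨L0, hL1, hL2⟩ := mat_list S P
  refine ⟨P.p, L0, fun c hc => ?_⟩
  have hpos := mthm_pos hleaf hc
  set G : Set (Matrix (Fin 2) (Fin 2) ℤ) := {N | ∃ x ∈ L0.map (comb ((P.p : ℤ) ^ (4 * c))),
    N = !![x.1, x.2.1; x.2.2.1, x.2.2.2]} with hG
  have hst : aXf P St.start (0, 1) = (1, 0) := by
    simp [aXf, aX, aT, aS, P.J_start]
  have h00 : ∀ M : Matrix (Fin 2) (Fin 2) ℤ, (rowA M (1, 0)).1 = (M 0 0 : ℚ) := by
    intro M; simp [rowA]
  constructor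
  · rintro ⟨M, hM, hM0⟩
    have key : ∀ m r q, Run S c P m r q → ∃ (m' : ℕ) (r' : ℚ × ℚ) (q' : St V) (t : ℚ), t ≠ 0 ∧
        Run S c P m' r' q' ∧ rowA M (aXf P q r) = t • aXf P q' r' := by
      clear hM0
      induction hM using Subsemigroup.closure_induction with
      | mem N hN =>
        intro m r q hr
        obtain ⟨x, hx, rfl⟩ := hN
        obtain ⟨y, hy, rfl⟩ := List.mem_map.1 hx
        obtain ⟨q1, g, q2, he, hrep⟩ := hL1 y hy
        obtain ⟨t, ht, hrt⟩ := hrep c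
        exact ⟨_, _, _, t, ht, Run.step hr (edg_iff.2 ⟨g, he, rfl⟩), hrt _⟩
      | mul M1 M2 _ _ ih1 ih2 =>
        intro m r q hr
        obtain ⟨m1, r1, q1, t1, ht1, hr1, h1⟩ := ih1 m r q hr
        obtain ⟨m2, r2, q2, t2, ht2, hr2, h2⟩ := ih2 m1 r1 q1 hr1
        refine ⟨m2, r2, q2, t1 * t2, mul_ne_zero ht1 ht2, hr2, ?_⟩
        rw [rowA_mul, h1, mthm_smul, h2, smul_smul]
    obtain ⟨m, r, q, t, ht, hr, h1⟩ := key 0 _ _ Run.init
    rw [hst] at h1
    have h2 := h00 M
    rw [h1, hM0] at h2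
    simp only [Prod.smul_fst, smul_eq_mul, Int.cast_zero, mul_eq_zero] at h2
    exact sound hpos hr (h2.resolve_left ht)
  · rintro ⟨n, hn⟩
    have key : ∀ m r q, Run S c P m r q → (m = 0 → r = (0, 1) ∧ q = St.start) ∧
        (m ≠ 0 → ∃ M ∈ Subsemigroup.closure G, ∃ t : ℚ, t ≠ 0 ∧
          rowA M (1, 0) = t • aXf P q r) := by
      intro m r q hr
      induction hr with
      | init => exact ⟨fun _ => ⟨rfl, rfl⟩, fun h => absurd rfl h⟩
      | @step m r q q' q'' g hr he ih =>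
        refine ⟨fun h => by omega, fun _ => ?_⟩
        obtain ⟨g', he', rfl⟩ := edg_iff.1 he
        obtain ⟨y, hy, hrep⟩ := hL2 _ _ _ he'
        obtain ⟨t, ht, hrt⟩ := hrep c
        have hN : toM (comb ((P.p : ℤ) ^ (4 * c)) y) ∈ Subsemigroup.closure G :=
          Subsemigroup.subset_closure ⟨_, List.mem_map.2 ⟨y, hy, rfl⟩, rfl⟩
        by_cases hm : m = 0
        · obtain ⟨h1, h2⟩ := ih.1 hm
          subst h1
          subst h2
          refine ⟨_, hN, t, ht, ?_⟩
          rw [← hrt, hst]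
        · obtain ⟨M, hM, t', ht', h1⟩ := ih.2 hm
          refine ⟨M * _, Subsemigroup.mul_mem _ hM hN, t' * t, mul_ne_zero ht' ht, ?_⟩
          rw [rowA_mul, h1, mthm_smul, hrt, smul_smul]
    obtain ⟨m, r, q, hm, hr, h0⟩ := complete (P := P) hn
    obtain ⟨M, hM, t, ht, h1⟩ := (key m r q hr).2 (by omega)
    refine ⟨M, hM, ?_⟩
    have h2 := h00 M
    rw [h1] at h2
    simp only [Prod.smul_fst, smul_eq_mul, h0, mul_zero] at h2
    exact_mod_cast h2.symm

end Pool.Agent.H75.MX
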