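import Mathlib
import Pool.Agent.H75.MX.NDefs

set_option autoImplicit false

/-!
[H75 MX NA1] arithmetic of sums of few powers of two, part 1.

Uniqueness of binary expansions: for finsets `s, t` of naturals
`∑ i ∈ s, 2 ^ i = ∑ i ∈ t, 2 ^ i → s = t` (Mathlib: `Finset.geomSum_injective`, or
`Nat.twoPowSum_...` / `Finset.equivBitIndices`); state it first as `two_pow_inj` and use it in all
cases; `a ≠ b` gives `2 ^ a + 2 ^ b = ∑ i ∈ {a, b}, 2 ^ i`.
`na1`: `3 * 2 ^ d = 2 ^ d + 2 ^ (d + 1)`. `c ≡ d` mod `M` and `2 ≤ M` exclude `c = d + 1`. If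
`c = d` the right side is `2 ^ (d + 2)`, so `a = b` (cardinality of the set), done. If `c ≠ d`
the right side has the three bits `c, d, d + 1`, the left side has at most two: contradiction.
`na2`: if `c ≠ d` then `|c - d| ≥ 2` and the right side has the four bits
`c, c + 1, d, d + 1`, the left side at most two.
-/

namespace Pool.Agent.H75.MX

theorem two_pow_inj {s t : Finset ℕ} (h : ∑ i ∈ s, 2 ^ i = ∑ i ∈ t, 2 ^ i) : s = t :=
  Finset.geomSum_injective le_rfl h

theorem na1_two (a b : ℕ) : ∃ s : Finset ℕ, s.card ≤ 2 ∧ 2 ^ a + 2 ^ b = ∑ i ∈ s, 2 ^ i := by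
  by_cases h : a = b
  · subst h
    refine ⟨{a + 1}, by simp, ?_⟩
    rw [Finset.sum_singleton]
    ring
  · refine ⟨{a, b}, Finset.card_le_two, ?_⟩
    rw [Finset.sum_pair h]

theorem na1_ne {M : ℕ} {x : ℕ} (h0 : 0 < x) (hx : x < M) : (x : ZMod M) ≠ 0 := by
  rw [Ne, ZMod.natCast_eq_zero_iff]
  exact Nat.not_dvd_of_pos_of_lt h0 hx

theorem na1 {M : ℕ} (hM : 2 ≤ M) {a b c d : ℕ} (hcd : (c : ZMod M) = (d : ZMod M))
    (h : 2 ^ a + 2 ^ b = 2 ^ c + 3 * 2 ^ d) : a = b ∧ c = d ∧ a = d + 1 := by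
  have h1 : ((1 : ℕ) : ZMod M) ≠ 0 := na1_ne one_pos (by omega)
  have hc : c ≠ d + 1 := by
    rintro rfl
    apply h1
    push_cast at hcd ⊢
    exact left_eq_add.1 (hcd.symm.trans rfl)
  by_cases hcd' : c = d
  · subst hcd'
    have h2 : 2 ^ a + 2 ^ b = 2 ^ (c + 2) := by rw [h]; ring
    by_cases hab : a = b
    · subst hab
      refine ⟨rfl, rfl, ?_⟩
      have h3 : 2 ^ (a + 1) = 2 ^ (c + 2) := by rw [← h2]; ring
      have h4 := Nat.pow_right_injective le_rfl h3
      omega
    · exfalso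
      have h3 : ∑ i ∈ ({a, b} : Finset ℕ), 2 ^ i = ∑ i ∈ ({c + 2} : Finset ℕ), 2 ^ i := by
        rw [Finset.sum_pair hab, Finset.sum_singleton, h2]
      have h4 := congrArg Finset.card (two_pow_inj h3)
      rw [Finset.card_pair hab, Finset.card_singleton] at h4
      omega
  · exfalso
    obtain ⟨s, hs, hs2⟩ := na1_two a b
    have h3 : ∑ i ∈ s, 2 ^ i = ∑ i ∈ ({c, d, d + 1} : Finset ℕ), 2 ^ i := by
      rw [← hs2, h, Finset.sum_insert, Finset.sum_pair (by omega)]
      · ring
      · simp only [Finset.mem_insert, Finset.mem_singleton, not_or]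
        exact ⟨hcd', hc⟩
    have h4 := congrArg Finset.card (two_pow_inj h3)
    rw [Finset.card_insert_of_notMem, Finset.card_pair (by omega)] at h4
    · omega
    · simp only [Finset.mem_insert, Finset.mem_singleton, not_or]
      exact ⟨hcd', hc⟩

theorem na2 {M : ℕ} (hM : 2 ≤ M) {a b c d : ℕ} (hcd : (c : ZMod M) = (d : ZMod M))
    (h : 2 ^ a + 2 ^ b = 3 * 2 ^ c + 3 * 2 ^ d) : c = d := by
  by_contra hcd'
  have h1 : ((1 : ℕ) : ZMod M) ≠ 0 := na1_ne one_pos (by omega)
  have hc : c ≠ d + 1 := by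
    rintro rfl
    apply h1
    push_cast at hcd ⊢
    exact left_eq_add.1 (hcd.symm.trans rfl)
  have hd : d ≠ c + 1 := by
    rintro rfl
    apply h1
    push_cast at hcd ⊢
    exact left_eq_add.1 hcd
  obtain ⟨s, hs, hs2⟩ := na1_two a b
  have h3 : ∑ i ∈ s, 2 ^ i = ∑ i ∈ ({c, c + 1, d, d + 1} : Finset ℕ), 2 ^ i := by
    rw [← hs2, h, Finset.sum_insert, Finset.sum_insert, Finset.sum_pair (by omega)]
    · ring
    · simp only [Finset.mem_insert, Finset.mem_singleton, not_or]
      omega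
    · simp only [Finset.mem_insert, Finset.mem_singleton, not_or]
      omega
  have h4 := congrArg Finset.card (two_pow_inj h3)
  rw [Finset.card_insert_of_notMem, Finset.card_insert_of_notMem, Finset.card_pair (by omega)] at h4
  · omega
  · simp only [Finset.mem_insert, Finset.mem_singleton, not_or]
    omega
  · simp only [Finset.mem_insert, Finset.mem_singleton, not_or]
    omega

end Pool.Agent.H75.MX
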