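import Mathlib
import Pool.Agent.H75.MX.NA1

set_option autoImplicit false

/-!
[H75 MX NA3] codes of vectors and increments. Uses `two_pow_inj` from NA1 (another module).

`Md K = 2 (K + 1)`, `code K x = ∑ l, 2 ^ (2 l + Md K * x l)`, exponents pairwise distinct (their
residues mod `Md K` are `0, 2, ..., 2 K`). So `code` is the sum of `2 ^ i` over the finset of
exponents, and `code_inj` follows from `two_pow_inj` by looking at residues.
`code_inc`: clear: `2 ^ (a + M) = 2 ^ a + (2 ^ M - 1) 2 ^ a`.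
`na4`: from `code x + (2 ^ M - 1) 2 ^ e = code x'` one gets
`code x + 2 ^ (e + M) = code x' + 2 ^ e`, all exponents even (`e ≡ 2 i` mod the even number `M`).
If `e + M` is an exponent of `x` (then it is the one of index `i`) the two equal powers add up to
the odd exponent `e + M + 1`, which is a new bit of the left side, and it is its only odd bit;
similarly on the right side, with odd bit `e + 1`, if `e` is an exponent of `x'`. So either both
collisions occur, impossible because `e + M + 1 ≠ e + 1`, or exactly one, impossible by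
parity of the bits, or none; then the sets of exponents
`{2 l + M x l} ∪ {e + M} = {2 l + M x' l} ∪ {e}` agree. For the residue `2 l`, `l ≠ i`, this gives
`x l = x' l`; for the residue `2 i`: `{2 i + M x i, e + M} = {2 i + M x' i, e}`, and
`e + M ≠ e`, so `e = 2 i + M x i` and `e + M = 2 i + M x' i`, i.e. `x' i = x i + 1`.
(Alternatively work in base 4 with digits at most 2.)
-/

namespace Pool.Agent.H75.MX

theorem na3_base4 (N : ℕ) : ∀ (f g : ℕ → ℕ), (∀ n, f n < 4) → (∀ n, g n < 4) →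
    ∑ n ∈ Finset.range N, f n * 4 ^ n = ∑ n ∈ Finset.range N, g n * 4 ^ n →
    ∀ n < N, f n = g n := by
  induction N with
  | zero =>
    intro f g _ _ _ n hn
    omega
  | succ N ih =>
    intro f g hf hg h n hn
    rw [Finset.sum_range_succ', Finset.sum_range_succ'] at h
    have e1 : ∀ u : ℕ → ℕ, ∑ n ∈ Finset.range N, u (n + 1) * 4 ^ (n + 1) =
        4 * ∑ n ∈ Finset.range N, u (n + 1) * 4 ^ n := by
      intro u
      rw [Finset.mul_sum]
      apply Finset.sum_congr rfl
      intro m _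
      ring
    rw [e1 f, e1 g, pow_zero, mul_one, mul_one] at h
    have h0 := hf 0
    have h0' := hg 0
    have h1 : f 0 = g 0 := by omega
    have h2 : ∑ n ∈ Finset.range N, f (n + 1) * 4 ^ n =
        ∑ n ∈ Finset.range N, g (n + 1) * 4 ^ n := by omega
    rcases n with _ | n
    · exact h1
    · exact ih (fun n => f (n + 1)) (fun n => g (n + 1)) (fun n => hf _) (fun n => hg _) h2 n
        (by omega)

/-- number of coordinates with a given exponent -/
def na3_cnt (K : ℕ) (x : Fin (K + 1) → ℕ) (n : ℕ) : ℕ :=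
  ∑ l : Fin (K + 1), if l.val + (K + 1) * x l = n then 1 else 0

theorem na3_div {K a b s t : ℕ} (ha : a < K + 1) (hb : b < K + 1)
    (h : a + (K + 1) * s = b + (K + 1) * t) : a = b ∧ s = t := by
  have h1 : (a + (K + 1) * s) % (K + 1) = a := by
    rw [Nat.add_mul_mod_self_left, Nat.mod_eq_of_lt ha]
  have h2 : (b + (K + 1) * t) % (K + 1) = b := by
    rw [Nat.add_mul_mod_self_left, Nat.mod_eq_of_lt hb]
  have h3 : a = b := by rw [← h1, h, h2]
  subst h3
  refine ⟨rfl, ?_⟩
  have h4 : (K + 1) * s = (K + 1) * t := by omega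
  exact Nat.eq_of_mul_eq_mul_left (by omega) h4

theorem na3_cnt_eq (K : ℕ) (x : Fin (K + 1) → ℕ) (l : Fin (K + 1)) (t : ℕ) :
    na3_cnt K x (l.val + (K + 1) * t) = if x l = t then 1 else 0 := by
  unfold na3_cnt
  rw [Finset.sum_eq_single l]
  · by_cases h : x l = t
    · rw [if_pos h, if_pos (by rw [h])]
    · rw [if_neg h, if_neg]
      intro h1
      exact h (na3_div l.2 l.2 h1).2
  · intro l' _ hl'
    rw [if_neg]
    intro h1
    exact hl' (Fin.ext (na3_div l'.2 l.2 h1).1)
  · intro h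
    exact absurd (Finset.mem_univ l) h

theorem na3_cnt_le (K : ℕ) (x : Fin (K + 1) → ℕ) (n : ℕ) : na3_cnt K x n ≤ 1 := by
  have h1 : n % (K + 1) + (K + 1) * (n / (K + 1)) = n := Nat.mod_add_div n (K + 1)
  have h2 := na3_cnt_eq K x ⟨n % (K + 1), Nat.mod_lt _ (by omega)⟩ (n / (K + 1))
  simp only [h1] at h2
  rw [h2]
  split_ifs <;> omega

theorem na3_code (K : ℕ) (x : Fin (K + 1) → ℕ) :
    code K x = ∑ l : Fin (K + 1), 4 ^ (l.val + (K + 1) * x l) := by
  unfold code
  apply Finset.sum_congr rfl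
  intro l _
  have h : 2 * l.val + Md K * x l = 2 * (l.val + (K + 1) * x l) := by
    unfold Md
    ring
  rw [h, pow_mul]
  norm_num

theorem na3_code_cnt (K : ℕ) (x : Fin (K + 1) → ℕ) (N : ℕ)
    (hN : ∀ l : Fin (K + 1), l.val + (K + 1) * x l < N) :
    code K x = ∑ n ∈ Finset.range N, na3_cnt K x n * 4 ^ n := by
  unfold na3_cnt
  simp only [Finset.sum_mul]
  rw [Finset.sum_comm, na3_code]
  apply Finset.sum_congr rfl
  intro l _
  simp only [ite_mul, one_mul, zero_mul]
  rw [Finset.sum_ite_eq, if_pos (Finset.mem_range.2 (hN l))]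

theorem na3_pow_cnt (a N : ℕ) (ha : a < N) :
    4 ^ a = ∑ n ∈ Finset.range N, (if n = a then 1 else 0) * 4 ^ n := by
  simp only [ite_mul, one_mul, zero_mul]
  rw [Finset.sum_ite_eq', if_pos (Finset.mem_range.2 ha)]

theorem na3_bound (K : ℕ) (x : Fin (K + 1) → ℕ) :
    ∃ N : ℕ, ∀ M ≥ N, ∀ l : Fin (K + 1), l.val + (K + 1) * x l < M := by
  refine ⟨∑ l : Fin (K + 1), (l.val + (K + 1) * x l) + 1, fun M hM l => ?_⟩
  have h := Finset.single_le_sum (f := fun l : Fin (K + 1) => l.val + (K + 1) * x l)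
    (fun _ _ => Nat.zero_le _) (Finset.mem_univ l)
  omega

theorem code_inj {K : ℕ} {x y : Fin (K + 1) → ℕ} (h : code K x = code K y) : x = y := by
  obtain ⟨N1, h1⟩ := na3_bound K x
  obtain ⟨N2, h2⟩ := na3_bound K y
  have e1 := na3_code_cnt K x (max N1 N2) (h1 _ (le_max_left _ _))
  have e2 := na3_code_cnt K y (max N1 N2) (h2 _ (le_max_right _ _))
  rw [e1, e2] at h
  have h3 := na3_base4 _ _ _ (fun n => lt_of_le_of_lt (na3_cnt_le K x n) (by norm_num))
    (fun n => lt_of_le_of_lt (na3_cnt_le K y n) (by norm_num)) h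
  funext l
  have h4 := h3 _ (h1 _ (le_max_left _ _) l)
  rw [na3_cnt_eq, na3_cnt_eq, if_pos rfl] at h4
  by_contra h5
  rw [if_neg (fun h6 => h5 h6.symm)] at h4
  exact absurd h4 (by norm_num)

theorem code_pos (K : ℕ) (x : Fin (K + 1) → ℕ) : 1 ≤ code K x := by
  unfold code
  have h := Finset.single_le_sum
    (f := fun l : Fin (K + 1) => 2 ^ (2 * l.val + Md K * x l))
    (fun _ _ => Nat.zero_le _) (Finset.mem_univ 0)
  exact le_trans Nat.one_le_two_pow h

theorem code_inc (K : ℕ) (x : Fin (K + 1) → ℕ) (i : Fin (K + 1)) :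
    code K x + (2 ^ Md K - 1) * 2 ^ (2 * i.val + Md K * x i) = code K (x + Pi.single i 1) := by
  unfold code
  rw [← Finset.add_sum_erase Finset.univ
      (fun l : Fin (K + 1) => 2 ^ (2 * l.val + Md K * x l)) (Finset.mem_univ i),
    ← Finset.add_sum_erase Finset.univ
      (fun l : Fin (K + 1) => 2 ^ (2 * l.val + Md K * (x + (Pi.single i 1 : Fin (K + 1) → ℕ)) l))
      (Finset.mem_univ i)]
  have h1 : ∑ l ∈ Finset.univ.erase i,
      2 ^ (2 * l.val + Md K * (x + (Pi.single i 1 : Fin (K + 1) → ℕ)) l) =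
      ∑ l ∈ Finset.univ.erase i, 2 ^ (2 * l.val + Md K * x l) := by
    apply Finset.sum_congr rfl
    intro l hl
    have h2 : l ≠ i := (Finset.mem_erase.1 hl).1
    rw [Pi.add_apply, Pi.single_apply, if_neg h2, add_zero]
  rw [h1, Pi.add_apply, Pi.single_eq_same]
  have h3 : 2 * i.val + Md K * (x i + 1) = Md K + (2 * i.val + Md K * x i) := by ring
  rw [h3, pow_add 2 (Md K)]
  have h4 : 1 ≤ 2 ^ Md K := Nat.one_le_two_pow
  obtain ⟨c, hc⟩ : ∃ c, 2 ^ Md K = c + 1 := ⟨2 ^ Md K - 1, by omega⟩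
  rw [hc, Nat.add_sub_cancel]
  ring

theorem na4 {K : ℕ} {x x' : Fin (K + 1) → ℕ} {i : Fin (K + 1)} {e : ℕ}
    (he : (e : ZMod (Md K)) = ((2 * i.val : ℕ) : ZMod (Md K)))
    (h : code K x + (2 ^ Md K - 1) * 2 ^ e = code K x') : x' = x + Pi.single i 1 := by
  have h1 : e % Md K = 2 * i.val := by
    have h2 := (ZMod.natCast_eq_natCast_iff' _ _ _).1 he
    rw [h2]
    apply Nat.mod_eq_of_lt
    have := i.2
    unfold Md
    omega
  obtain ⟨k, hk⟩ : ∃ k, e = 2 * (i.val + (K + 1) * k) := by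
    refine ⟨e / Md K, ?_⟩
    have h2 := Nat.mod_add_div e (Md K)
    rw [h1] at h2
    calc e = 2 * i.val + Md K * (e / Md K) := h2.symm
      _ = 2 * (i.val + (K + 1) * (e / Md K)) := by
          have h3 : Md K * (e / Md K) = 2 * ((K + 1) * (e / Md K)) := by
            rw [← mul_assoc]
          rw [h3]
          ring
  have h2 : code K x + 4 ^ (i.val + (K + 1) * (k + 1)) =
      code K x' + 4 ^ (i.val + (K + 1) * k) := by
    have h3 : 2 ^ e = 4 ^ (i.val + (K + 1) * k) := by
      rw [hk, pow_mul]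
      norm_num
    have h4 : 4 ^ (i.val + (K + 1) * (k + 1)) = 2 ^ Md K * 4 ^ (i.val + (K + 1) * k) := by
      have h5 : 2 ^ Md K = 4 ^ (K + 1) := by
        unfold Md
        rw [pow_mul]
        norm_num
      rw [h5, ← pow_add]
      congr 1
      ring
    have h6 : 1 ≤ 2 ^ Md K := Nat.one_le_two_pow
    obtain ⟨c, hc⟩ : ∃ c, 2 ^ Md K = c + 1 := ⟨2 ^ Md K - 1, by omega⟩
    rw [h3, hc, Nat.add_sub_cancel] at h
    rw [h4, hc, ← h]
    ring
  obtain ⟨N1, b1⟩ := na3_bound K x
  obtain ⟨N2, b2⟩ := na3_bound K x'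
  obtain ⟨N, hN⟩ : ∃ N, N = max (max N1 N2) (i.val + (K + 1) * (k + 1) + 1) := ⟨_, rfl⟩
  have hN1 : N1 ≤ N := by rw [hN]; exact le_trans (le_max_left _ _) (le_max_left _ _)
  have hN2 : N2 ≤ N := by rw [hN]; exact le_trans (le_max_right _ _) (le_max_left _ _)
  have hN3 : i.val + (K + 1) * (k + 1) < N := by
    have : i.val + (K + 1) * (k + 1) + 1 ≤ N := by rw [hN]; exact le_max_right _ _
    omega
  have hN4 : i.val + (K + 1) * k < N := by
    refine lt_of_le_of_lt ?_ hN3
    have : (K + 1) * k ≤ (K + 1) * (k + 1) := Nat.mul_le_mul_left _ (by omega)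
    omega
  rw [na3_code_cnt K x N (b1 N hN1), na3_code_cnt K x' N (b2 N hN2),
    na3_pow_cnt _ N hN3, na3_pow_cnt _ N hN4, ← Finset.sum_add_distrib,
    ← Finset.sum_add_distrib] at h2
  simp only [← add_mul] at h2
  have h3 := na3_base4 N _ _ (fun n => by
      have := na3_cnt_le K x n
      split_ifs <;> omega) (fun n => by
      have := na3_cnt_le K x' n
      split_ifs <;> omega) h2
  -- the coordinate `i`
  have h4 := h3 _ hN4
  have h5 := h3 _ hN3
  simp only [na3_cnt_eq] at h4 h5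
  have hne : i.val + (K + 1) * k ≠ i.val + (K + 1) * (k + 1) := by
    intro hc
    have := (na3_div i.2 i.2 hc).2
    omega
  rw [if_neg hne, if_pos trivial] at h4
  rw [if_neg hne.symm, if_pos trivial] at h5
  have hxi : x i = k := by
    by_contra hc
    rw [if_neg hc] at h4
    omega
  have hxi' : x' i = k + 1 := by
    by_contra hc
    rw [if_neg hc] at h5
    omega
  funext l
  rw [Pi.add_apply, Pi.single_apply]
  by_cases hl : l = i
  · subst hl
    rw [if_pos rfl, hxi, hxi']
  · rw [if_neg hl, add_zero]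
    have h6 := h3 _ (b1 N hN1 l)
    simp only [na3_cnt_eq] at h6
    have hn1 : l.val + (K + 1) * x l ≠ i.val + (K + 1) * (k + 1) :=
      fun hc => hl (Fin.ext (na3_div l.2 i.2 hc).1)
    have hn2 : l.val + (K + 1) * x l ≠ i.val + (K + 1) * k :=
      fun hc => hl (Fin.ext (na3_div l.2 i.2 hc).1)
    rw [if_neg hn1, if_neg hn2, if_pos trivial] at h6
    by_contra hc
    rw [if_neg hc] at h6
    omega

theorem code_Iic (K : ℕ) (x : Fin (K + 1) → ℕ) :
    ∑ l ∈ Finset.Iic (Fin.last K), 2 ^ (2 * l.val + Md K * x l) = code K x := by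
  unfold code
  have h : Finset.Iic (Fin.last K) = Finset.univ := by
    ext l
    simp [Fin.le_last]
  rw [h]

end Pool.Agent.H75.MX
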