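import Mathlib
import Pool.Agent.H75.MX.NA3

set_option autoImplicit false

/-!
[H75 MX NCOMP] the number system derives all intended numbers. Uses code_inc (another module).

Let `S = nsys T q0`, `c = code K (Pi.single 0 n)`, `Der S c` below.
Step 1: for all `e`: `Der (A e) (2 ^ e)` and `Der (D 2 e) (3 * 2 ^ e)` (`e` cast to
`ZMod (Md K)`); by induction prove
`P e : Der (A e) (2 ^ e) ∧ Der (A (e + 1)) (2 ^ (e + 1)) ∧ Der (D 2 e) (3 * 2 ^ e)`.
`P 0`: leaves `1`, `2` (`(1 : ZMod (Md K)) ≠ 0`, as `Md K ≥ 2`), `3`. `P (e + 1)`: `2 ^ (e + 2) =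
2 ^ (e + 1) + 2 ^ (e + 1) = 2 ^ e + 3 * 2 ^ e`, rules r1, r2, r3 with `i = e + 1`;
`3 * 2 ^ (e + 1) = 2 ^ (e + 1) + 2 ^ (e + 2) = 3 * 2 ^ e + 3 * 2 ^ e`, rules r4, r5, r6, `i = e + 1`.
Step 2: for `2 ≤ j ≤ Md K` and all `e`: `Der (D j e) ((2 ^ j - 1) * 2 ^ e)`; induction on `j`:
`(2 ^ (j + 1) - 1) 2 ^ e = (2 ^ j - 1) 2 ^ e + 2 ^ (e + j) = 2 ^ e + (2 ^ j - 1) 2 ^ (e + 1)`,
rules r7, r8, r9.
Step 3: `Der (F l) (∑ l' ∈ Iic l, 2 ^ (2 l' + M x l'))` by induction on `l` (f0, f1), so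
`Der (F (last K)) (code K x)`.
Step 4: induction on `VDer T n q x`: zero and par: leaves; cap: rule c; inc: `code (x + e_i) =
code x + (2 ^ M - 1) 2 ^ (2 i + M x i)` (`code_inc`), rules i1 (step 2 with `j = M = last`,
residue `2 i`), i2 with step 3.
-/

namespace Pool.Agent.H75.MX

theorem NCOMP_one_ne (K : ℕ) : (1 : ZMod (Md K)) ≠ 0 := by
  have : Fact (1 < Md K) := ⟨by unfold Md; omega⟩
  exact one_ne_zero

theorem NCOMP_s1 {K : ℕ} {Q : Type} (T : VS K Q) (q0 : Q) (c e : ℕ) :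
    Der (nsys T q0) c (NTm.A (e : ZMod (Md K))) (2 ^ e) ∧
    Der (nsys T q0) c (NTm.A ((e : ZMod (Md K)) + 1)) (2 ^ (e + 1)) ∧
    Der (nsys T q0) c (NTm.D (two K) (e : ZMod (Md K))) (3 * 2 ^ e) := by
  induction e with
  | zero =>
    refine ⟨?_, ?_, ?_⟩
    · have h : (nsys T q0).leaf (NTm.A ((0 : ℕ) : ZMod (Md K))) = some (some 1) := by
        show nleaf T (NTm.A ((0 : ℕ) : ZMod (Md K))) = some (some 1)
        simp [nleaf]
      exact Der.leaf (c := c) h
    · have h : (nsys T q0).leaf (NTm.A (((0 : ℕ) : ZMod (Md K)) + 1)) = some (some 2) := by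
        show nleaf T (NTm.A (((0 : ℕ) : ZMod (Md K)) + 1)) = some (some 2)
        simp only [nleaf, Nat.cast_zero, zero_add]
        rw [if_neg (NCOMP_one_ne K)]
        simp
      exact Der.leaf (c := c) h
    · have h : (nsys T q0).leaf (NTm.D (two K) ((0 : ℕ) : ZMod (Md K))) = some (some 3) := by
        show nleaf T (NTm.D (two K) ((0 : ℕ) : ZMod (Md K))) = some (some 3)
        simp [nleaf]
      exact Der.leaf (c := c) h
  | succ e ih =>
    obtain ⟨h1, h2, h3⟩ := ih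
    have hc : (((e + 1 : ℕ)) : ZMod (Md K)) = (e : ZMod (Md K)) + 1 := by push_cast; rfl
    rw [hc]
    have hm : ((e : ZMod (Md K)) + 1) - 1 = (e : ZMod (Md K)) := by ring
    have h4 : Der (nsys T q0) c (NTm.A ((e : ZMod (Md K)) + 1 + 1)) (2 ^ (e + 1 + 1)) := by
      refine Der.cap (NRule.r3 ((e : ZMod (Md K)) + 1)) ?_ ?_
      · have := Der.sum (S := nsys T q0) (NRule.r1 (T := T) ((e : ZMod (Md K)) + 1)) h2 h2
        have e1 : 2 ^ (e + 1 + 1) = 2 ^ (e + 1) + 2 ^ (e + 1) := by ring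
        rw [e1]
        exact this
      · have h1' : Der (nsys T q0) c (NTm.A ((e : ZMod (Md K)) + 1 - 1)) (2 ^ e) := by
          rw [hm]; exact h1
        have h3' : Der (nsys T q0) c (NTm.D (two K) ((e : ZMod (Md K)) + 1 - 1)) (3 * 2 ^ e) := by
          rw [hm]; exact h3
        have := Der.sum (S := nsys T q0) (NRule.r2 (T := T) ((e : ZMod (Md K)) + 1)) h1' h3'
        have e1 : 2 ^ (e + 1 + 1) = 2 ^ e + 3 * 2 ^ e := by ring
        rw [e1]
        exact this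
    refine ⟨h2, h4, ?_⟩
    refine Der.cap (NRule.r6 ((e : ZMod (Md K)) + 1)) ?_ ?_
    · have := Der.sum (S := nsys T q0) (NRule.r4 (T := T) ((e : ZMod (Md K)) + 1)) h2 h4
      have e1 : 3 * 2 ^ (e + 1) = 2 ^ (e + 1) + 2 ^ (e + 1 + 1) := by ring
      rw [e1]
      exact this
    · have h3' : Der (nsys T q0) c (NTm.D (two K) ((e : ZMod (Md K)) + 1 - 1)) (3 * 2 ^ e) := by
        rw [hm]; exact h3
      have := Der.sum (S := nsys T q0) (NRule.r5 (T := T) ((e : ZMod (Md K)) + 1)) h3' h3'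
      have e1 : 3 * 2 ^ (e + 1) = 3 * 2 ^ e + 3 * 2 ^ e := by ring
      rw [e1]
      exact this

theorem NCOMP_s2 {K : ℕ} {Q : Type} (T : VS K Q) (q0 : Q) (c : ℕ) (j : ℕ) (hj : 2 ≤ j) :
    ∀ (hj' : j < Md K + 1) (e : ℕ),
      Der (nsys T q0) c (NTm.D ⟨j, hj'⟩ (e : ZMod (Md K))) ((2 ^ j - 1) * 2 ^ e) := by
  induction j, hj using Nat.le_induction with
  | base =>
    intro hj' e
    have := (NCOMP_s1 T q0 c e).2.2
    exact this
  | succ j hj ih =>
    intro hj' e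
    have hjM : j < Md K := by omega
    have hA := (NCOMP_s1 T q0 c (e + j)).1
    have hA0 := (NCOMP_s1 T q0 c e).1
    have hD0 := ih (by omega) e
    have hD1 := ih (by omega) (e + 1)
    have hc1 : (((e + j : ℕ)) : ZMod (Md K)) = (e : ZMod (Md K)) + ((j : ℕ) : ZMod (Md K)) := by
      push_cast; rfl
    have hc2 : (((e + 1 : ℕ)) : ZMod (Md K)) = (e : ZMod (Md K)) + 1 := by push_cast; rfl
    rw [hc1] at hA
    rw [hc2] at hD1
    obtain ⟨m, hm⟩ : ∃ m, 2 ^ j = m + 1 := ⟨2 ^ j - 1, by have := Nat.one_le_two_pow (n := j); omega⟩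
    have hsum1 := Der.sum (NRule.r7 (T := T) (⟨j, hjM⟩ : Fin (Md K)) (e : ZMod (Md K)))
      (S := nsys T q0) hD0 hA
    have hsum2 := Der.sum (NRule.r8 (T := T) (⟨j, hjM⟩ : Fin (Md K)) (e : ZMod (Md K)))
      (S := nsys T q0) hA0 hD1
    have e1 : (2 ^ j - 1) * 2 ^ e + 2 ^ (e + j) = (2 ^ (j + 1) - 1) * 2 ^ e := by
      rw [pow_add 2 e j, pow_succ 2 j, hm]
      have : (m + 1) * 2 - 1 = 2 * m + 1 := by omega
      rw [this, Nat.add_sub_cancel]
      ring
    have e2 : 2 ^ e + (2 ^ j - 1) * 2 ^ (e + 1) = (2 ^ (j + 1) - 1) * 2 ^ e := by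
      rw [pow_succ 2 e, pow_succ 2 j, hm]
      have : (m + 1) * 2 - 1 = 2 * m + 1 := by omega
      rw [this, Nat.add_sub_cancel]
      ring
    rw [e1] at hsum1
    rw [e2] at hsum2
    exact Der.cap (NRule.r9 (T := T) (⟨j, hjM⟩ : Fin (Md K)) (e : ZMod (Md K)) hj) hsum1 hsum2

theorem NCOMP_Iic_succ {K : ℕ} (l : Fin K) :
    Finset.Iic l.succ = insert l.succ (Finset.Iic l.castSucc) := by
  ext a
  simp only [Finset.mem_Iic, Finset.mem_insert]
  rw [Fin.le_def, Fin.le_def, Fin.ext_iff]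
  simp only [Fin.val_succ, Fin.val_castSucc]
  omega

theorem NCOMP_s3 {K : ℕ} {Q : Type} (T : VS K Q) (q0 : Q) (c : ℕ) (x : Fin (K + 1) → ℕ)
    (l : Fin (K + 1)) :
    Der (nsys T q0) c (NTm.F l) (∑ l' ∈ Finset.Iic l, 2 ^ (2 * l'.val + Md K * x l')) := by
  induction l using Fin.induction with
  | zero =>
    have h0 : Finset.Iic (0 : Fin (K + 1)) = {0} := by
      ext a
      simp only [Finset.mem_Iic, Finset.mem_singleton]
      exact Fin.le_zero_iff
    rw [h0, Finset.sum_singleton]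
    have hA := (NCOMP_s1 T q0 c (2 * (0 : Fin (K + 1)).val + Md K * x 0)).1
    have hc : ((2 * (0 : Fin (K + 1)).val + Md K * x 0 : ℕ) : ZMod (Md K)) = 0 := by
      rw [Nat.cast_add, Nat.cast_mul (Md K), ZMod.natCast_self, zero_mul, add_zero]
      simp
    rw [hc] at hA
    exact Der.cap NRule.f0 hA hA
  | succ l ih =>
    rw [NCOMP_Iic_succ l, Finset.sum_insert (by
      simp only [Finset.mem_Iic]
      rw [Fin.le_def]
      simp), add_comm]
    have hA := (NCOMP_s1 T q0 c (2 * l.succ.val + Md K * x l.succ)).1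
    have hc : ((2 * l.succ.val + Md K * x l.succ : ℕ) : ZMod (Md K)) =
        ((2 * (l.val + 1) : ℕ) : ZMod (Md K)) := by
      rw [Nat.cast_add, Nat.cast_mul (Md K), ZMod.natCast_self, zero_mul, add_zero, Fin.val_succ]
    rw [hc] at hA
    exact Der.sum (NRule.f1 l) ih hA

theorem ncomp {K : ℕ} {Q : Type} (T : VS K Q) (q0 : Q) (n : ℕ) {q : Q} {x : Fin (K + 1) → ℕ}
    (h : VDer T n q x) :
    Der (nsys T q0) (code K (Pi.single 0 n)) (NTm.R q) (code K x) := by
  induction h with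
  | zero hq =>
    rename_i q
    have h : (nsys T q0).leaf (NTm.R q) = some (some (code K 0)) := by
      show nleaf T (NTm.R q) = some (some (code K 0))
      simp only [nleaf, hq]
    exact Der.leaf h
  | par hq =>
    rename_i q
    have h : (nsys T q0).leaf (NTm.R q) = some none := by
      show nleaf T (NTm.R q) = some none
      simp only [nleaf, hq]
    exact Der.leaf h
  | inc hr _ ih =>
    rename_i q q' i x _
    have hD := NCOMP_s2 T q0 (code K (Pi.single 0 n)) (Md K) (by unfold Md; omega)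
      (Nat.lt_succ_self _) (2 * i.val + Md K * x i)
    have hc : ((2 * i.val + Md K * x i : ℕ) : ZMod (Md K)) = ((2 * i.val : ℕ) : ZMod (Md K)) := by
      rw [Nat.cast_add, Nat.cast_mul (Md K), ZMod.natCast_self, zero_mul, add_zero]
    rw [hc] at hD
    have hI := Der.sum (NRule.i1 (T := T) q' i) (S := nsys T q0) ih hD
    rw [code_inc K x i] at hI
    have hF := NCOMP_s3 T q0 (code K (Pi.single 0 n)) (x + Pi.single i 1) (Fin.last K)
    rw [code_Iic] at hF
    exact Der.cap (NRule.i2 hr) hI hF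
  | cap hr _ _ ih1 ih2 => exact Der.cap (NRule.c hr) ih1 ih2

end Pool.Agent.H75.MX
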