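import Mathlib
import Pool.Agent.H75.MX.NA1

set_option autoImplicit false

/-!
[H75 MX NA2] arithmetic of sums of powers of two, part 2. Uses `two_pow_inj` from NA1 (another
module).

`(2 ^ j - 1) * 2 ^ e = ∑ i ∈ Finset.Ico e (e + j), 2 ^ i`. In the situation of `na3` all exponents
of the left side are distinct (residues `i, i + 1, ..., i + j`, `j + 1 ≤ M`), the same for the
right side, so `Ico e (e + j) ∪ {f} = {e'} ∪ Ico f' (f' + j)` as finsets. Comparing the elements of
residue `i` gives `e = e'`, of residue `i + 1` gives `e + 1 = f'` (`j ≥ 2`), of residue `i + j` gives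
`f = f' + j - 1 = e + j`.
-/

namespace Pool.Agent.H75.MX

theorem na3_sum (j e : ℕ) : (2 ^ j - 1) * 2 ^ e = ∑ i ∈ Finset.Ico e (e + j), 2 ^ i := by
  induction j with
  | zero => simp
  | succ j ih =>
    rw [← add_assoc, Finset.sum_Ico_succ_top (by omega), ← ih]
    have h7 : 1 ≤ 2 ^ j := Nat.one_le_two_pow
    have h8 : 1 ≤ 2 ^ (j + 1) := Nat.one_le_two_pow
    zify [h7, h8]
    ring

theorem na3 {M : ℕ} {j : ℕ} (hj : 2 ≤ j) (hjM : j + 1 ≤ M) {e f e' f' : ℕ}
    (h1 : (e : ZMod M) = (e' : ZMod M)) (h2 : (f : ZMod M) = (e : ZMod M) + (j : ZMod M))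
    (h3 : (f' : ZMod M) = (e : ZMod M) + 1)
    (h : (2 ^ j - 1) * 2 ^ e + 2 ^ f = 2 ^ e' + (2 ^ j - 1) * 2 ^ f') :
    e = e' ∧ f' = e + 1 ∧ f = e + j := by
  have k1 : f ∉ Finset.Ico e (e + j) := by
    intro hf
    rw [Finset.mem_Ico] at hf
    obtain ⟨t, rfl⟩ := Nat.exists_eq_add_of_le hf.1
    have h4 : ((j - t : ℕ) : ZMod M) = 0 := by
      rw [Nat.cast_sub (by omega)]
      push_cast at h2
      have := add_left_cancel h2
      rw [this, sub_self]
    exact na1_ne (by omega) (by omega) h4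
  have k2 : ∀ t < j, e' ≠ f' + t := by
    intro t ht he
    have h4 : ((t + 1 : ℕ) : ZMod M) = 0 := by
      have h5 : (e' : ZMod M) = (f' : ZMod M) + (t : ZMod M) := by rw [he]; push_cast; rfl
      rw [h3, ← h1, add_assoc] at h5
      have h6 := left_eq_add.1 h5
      push_cast
      rw [add_comm]
      exact h6
    exact na1_ne (by omega) (by omega) h4
  have k3 : e' ∉ Finset.Ico f' (f' + j) := by
    intro hf
    rw [Finset.mem_Ico] at hf
    obtain ⟨t, ht⟩ := Nat.exists_eq_add_of_le hf.1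
    exact k2 t (by omega) ht
  have k4 : ∀ t < j, e ≠ f' + t := by
    intro t ht he
    have h4 : ((t + 1 : ℕ) : ZMod M) = 0 := by
      have h5 : (e : ZMod M) = (f' : ZMod M) + (t : ZMod M) := by
        conv_lhs => rw [he]
        push_cast
        rfl
      rw [h3, add_assoc] at h5
      have h6 := left_eq_add.1 h5
      push_cast
      rw [add_comm]
      exact h6
    exact na1_ne (by omega) (by omega) h4
  have hs : ∑ i ∈ insert f (Finset.Ico e (e + j)), 2 ^ i =
      ∑ i ∈ insert e' (Finset.Ico f' (f' + j)), 2 ^ i := by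
    rw [Finset.sum_insert k1, Finset.sum_insert k3, ← na3_sum, ← na3_sum, ← h]
    ring
  have hset := two_pow_inj hs
  have hmem : ∀ x, (x = f ∨ (e ≤ x ∧ x < e + j)) ↔ (x = e' ∨ (f' ≤ x ∧ x < f' + j)) := by
    intro x
    have := Finset.ext_iff.1 hset x
    simpa only [Finset.mem_insert, Finset.mem_Ico] using this
  have he : e = e' := by
    rcases (hmem e).1 (Or.inr ⟨le_refl e, by omega⟩) with h5 | ⟨h5, h6⟩
    · exact h5
    · exact absurd (by omega : e = f' + (e - f')) (k4 (e - f') (by omega))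
  have hf' : f' = e + 1 := by
    rcases (hmem (e + 1)).1 (Or.inr ⟨by omega, by omega⟩) with h5 | ⟨h5, h6⟩
    · omega
    · by_contra hne
      have h7 : ((e + 1 - f' : ℕ) : ZMod M) = 0 := by
        rw [Nat.cast_sub h5, h3]
        push_cast
        ring
      exact na1_ne (by omega) (by omega) h7
  refine ⟨he, hf', ?_⟩
  rcases (hmem (f' + j - 1)).2 (Or.inr ⟨by omega, by omega⟩) with h5 | ⟨h5, h6⟩
  · omega
  · omega

end Pool.Agent.H75.MX
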