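import Mathlib
import Pool.Agent.H75.MX.NA2
import Pool.Agent.H75.MX.NA3

set_option autoImplicit false

/-!
[H75 MX NSOUND] the number system derives only intended numbers. Uses na1, na2, na3, na4,
code_inj, code_Iic (other modules).

Induction on `Der (nsys T q0) c X m` with `c = code K (Pi.single 0 n)`, claim `m ∈ sem T n X`.
* leaf: `1 = 2 ^ 0 ∈ PA 0`, `2 = 2 ^ 1 ∈ PA 1`, `3 = (2 ^ 2 - 1) 2 ^ 0 ∈ PD 2 0`, `code K 0` with
  `VDer.zero`, the parameter with `VDer.par`.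
* r1, r2, r4, r5, r7, r8, i1 and f1: sums; by definition of `sem` (for f1:
  `Finset.Iic l.succ = insert l.succ (Iic l.castSucc)` as sets of `Fin (K+1)`, and the exponent
  `e ≡ 2 (l + 1)` mod `Md K` has the form `2 (l + 1) + Md K * y` because
  `2 (l + 1) < Md K`; change the vector `x` at `l.succ` to `y`).
* r3: `m = 2 ^ a + 2 ^ b = 2 ^ c' + 3 * 2 ^ d` (`(2 ^ 2 - 1) = 3`), `na1`: `a = b`,
  `m = 2 ^ (a + 1)`.
* r6: `m = 2 ^ a + 2 ^ b = 3 * 2 ^ c' + 3 * 2 ^ d`, `na2`: `m = 3 * 2 ^ (c' + 1)`.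
* r9: `na3` (`j + 1 ≤ Md K` since `j : Fin (Md K)`): `m = (2 ^ (j + 1) - 1) * 2 ^ e`.
* f0: `Finset.Iic 0 = {0}`, exponent `e ≡ 0`: `e = Md K * y`.
* i2: `m = code x + (2 ^ M - 1) 2 ^ e` with `VDer q' x`, and `m = code x'` (`code_Iic`): `na4` and
  `VDer.inc`.
* c: `code_inj` and `VDer.cap`.
-/

namespace Pool.Agent.H75.MX

theorem nsound_Iic_succ {K : ℕ} (l : Fin K) :
    Finset.Iic (l.succ : Fin (K + 1)) = insert l.succ (Finset.Iic l.castSucc) := by
  ext a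
  simp only [Finset.mem_Iic, Finset.mem_insert, Fin.le_def, Fin.ext_iff, Fin.val_succ,
    Fin.val_castSucc]
  omega

theorem nsound_leaf {K : ℕ} {Q : Type} (T : VS K Q) (n : ℕ) {X : NTm K Q} {o : Option ℕ}
    (h : nleaf T X = some o) : o.getD (code K (Pi.single 0 n)) ∈ sem T n X := by
  cases X with
  | A i =>
    simp only [nleaf] at h
    split_ifs at h with h0 h1
    · cases h
      exact ⟨0, by simp [h0], by simp⟩
    · cases h
      exact ⟨1, by simp [h1], by simp⟩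
  | D j i =>
    simp only [nleaf] at h
    split_ifs at h with h0
    cases h
    obtain ⟨rfl, rfl⟩ := h0
    exact ⟨le_refl 2, 0, by simp, by simp [two]⟩
  | R q =>
    simp only [nleaf] at h
    cases hq : T.ini q with
    | none => rw [hq] at h; cases h
    | some b =>
      rw [hq] at h
      cases b with
      | false =>
        cases h
        exact ⟨0, rfl, VDer.zero hq⟩
      | true =>
        cases h
        exact ⟨_, rfl, VDer.par hq⟩
  | SAA i => simp [nleaf] at h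
  | SAD i => simp [nleaf] at h
  | SAB i => simp [nleaf] at h
  | SDD i => simp [nleaf] at h
  | SDA j i => simp [nleaf] at h
  | SAJ j i => simp [nleaf] at h
  | F l => simp [nleaf] at h
  | I q i => simp [nleaf] at h

theorem nsound_sum {K : ℕ} {Q : Type} (T : VS K Q) (n : ℕ) {X Y Z : NTm K Q} {a b : ℕ}
    (h : NRule T (false, X, Y, Z)) (ha : a ∈ sem T n Y) (hb : b ∈ sem T n Z) :
    a + b ∈ sem T n X := by
  cases h with
  | r1 i => exact ⟨a, ha, b, hb, rfl⟩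
  | r2 i => exact ⟨a, ha, b, hb.2, rfl⟩
  | r4 i => exact ⟨a, ha, b, hb, rfl⟩
  | r5 i => exact ⟨a, ha.2, b, hb.2, rfl⟩
  | r7 j i => exact ⟨a, ha, b, hb, rfl⟩
  | r8 j i => exact ⟨a, ha, b, hb, rfl⟩
  | i1 q i => exact ⟨a, ha, b, hb.2, rfl⟩
  | f1 l =>
    obtain ⟨x, hx⟩ := ha
    obtain ⟨e, he, rfl⟩ := hb
    rw [ZMod.natCast_eq_natCast_iff'] at he
    have hl : 2 * (l.val + 1) < Md K := by
      have := l.isLt
      unfold Md
      omega
    rw [Nat.mod_eq_of_lt hl] at he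
    have he2 : e = 2 * (l.val + 1) + Md K * (e / Md K) := by
      conv_lhs => rw [← Nat.mod_add_div e (Md K), he]
    refine ⟨Function.update x l.succ (e / Md K), ?_⟩
    rw [nsound_Iic_succ, Finset.sum_insert]
    · rw [Function.update_self, Fin.val_succ, ← he2, hx, add_comm]
      congr 1
      refine Finset.sum_congr rfl fun k hk => ?_
      have hne : k ≠ l.succ := by
        intro h
        rw [Finset.mem_Iic, Fin.le_def] at hk
        rw [h] at hk
        simp only [Fin.val_succ, Fin.val_castSucc] at hk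
        omega
      rw [Function.update_of_ne hne]
    · rw [Finset.mem_Iic, Fin.le_def]
      simp only [Fin.val_succ, Fin.val_castSucc]
      omega

theorem nsound_cap {K : ℕ} {Q : Type} (T : VS K Q) (n : ℕ) {X Y Z : NTm K Q} {m : ℕ}
    (h : NRule T (true, X, Y, Z)) (ha : m ∈ sem T n Y) (hb : m ∈ sem T n Z) :
    m ∈ sem T n X := by
  have hM : 2 ≤ Md K := by unfold Md; omega
  cases h with
  | r3 i =>
    obtain ⟨_, ⟨a, ha1, rfl⟩, _, ⟨b, hb1, rfl⟩, h1⟩ := ha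
    obtain ⟨_, ⟨c, hc1, rfl⟩, _, ⟨d, hd1, rfl⟩, h2⟩ := hb
    have h3 : 2 ^ a + 2 ^ b = 2 ^ c + 3 * 2 ^ d := by
      rw [← h1, h2]
      norm_num
    obtain ⟨h4, h5, h6⟩ := na1 hM (hc1.trans hd1.symm) h3
    refine ⟨a + 1, ?_, ?_⟩
    · push_cast
      rw [ha1]
    · rw [h1, ← h4]
      ring
  | r6 i =>
    obtain ⟨_, ⟨a, ha1, rfl⟩, _, ⟨b, hb1, rfl⟩, h1⟩ := ha
    obtain ⟨_, ⟨c, hc1, rfl⟩, _, ⟨d, hd1, rfl⟩, h2⟩ := hb
    have h3 : 2 ^ a + 2 ^ b = 3 * 2 ^ c + 3 * 2 ^ d := by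
      rw [← h1, h2]
      norm_num
    have h4 := na2 hM (hc1.trans hd1.symm) h3
    refine ⟨le_refl 2, c + 1, ?_, ?_⟩
    · push_cast
      rw [hc1]
      ring
    · rw [h2, ← h4]
      show (2 ^ 2 - 1) * 2 ^ c + (2 ^ 2 - 1) * 2 ^ c = (2 ^ 2 - 1) * 2 ^ (c + 1)
      ring
  | r9 j i hj =>
    obtain ⟨_, ⟨-, e, he1, rfl⟩, _, ⟨f, hf1, rfl⟩, h1⟩ := ha
    obtain ⟨_, ⟨e', he1', rfl⟩, _, ⟨-, f', hf1', rfl⟩, h2⟩ := hb
    obtain ⟨h4, h5, h6⟩ := na3 (M := Md K) hj (by have := j.isLt; omega) (he1.trans he1'.symm)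
      (hf1.trans (by rw [he1])) (hf1'.trans (by rw [he1])) (h1.symm.trans h2)
    refine ⟨by simp only [Fin.val_succ]; omega, e, he1, ?_⟩
    rw [h1, h6, Fin.val_succ]
    have h7 : 1 ≤ 2 ^ j.val := Nat.one_le_two_pow
    have h8 : 1 ≤ 2 ^ (j.val + 1) := Nat.one_le_two_pow
    zify [h7, h8]
    ring
  | f0 =>
    obtain ⟨e, he, rfl⟩ := ha
    rw [ZMod.natCast_eq_zero_iff] at he
    obtain ⟨y, rfl⟩ := he
    refine ⟨fun _ => y, ?_⟩
    have h1 : Finset.Iic (0 : Fin (K + 1)) = {0} := by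
      ext a
      simp only [Finset.mem_Iic, Finset.mem_singleton, Fin.le_def, Fin.ext_iff, Fin.val_zero]
      omega
    rw [h1, Finset.sum_singleton]
    simp
  | @i2 q q' i hi =>
    obtain ⟨_, ⟨x, rfl, hx⟩, _, ⟨e, he, rfl⟩, h1⟩ := ha
    obtain ⟨x', hx'⟩ := hb
    rw [code_Iic] at hx'
    have h2 := na4 he (h1.symm.trans hx')
    refine ⟨x', hx', ?_⟩
    rw [h2]
    exact VDer.inc hi hx
  | @c q q' q'' hc =>
    obtain ⟨x, hx, h1⟩ := ha
    obtain ⟨x', hx', h2⟩ := hb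
    have h3 : x = x' := code_inj (hx.symm.trans hx')
    subst h3
    exact ⟨x, hx, VDer.cap hc h1 h2⟩

theorem nsound {K : ℕ} {Q : Type} (T : VS K Q) (q0 : Q) (n : ℕ) {X : NTm K Q} {m : ℕ}
    (h : Der (nsys T q0) (code K (Pi.single 0 n)) X m) : m ∈ sem T n X := by
  induction h with
  | leaf ho => exact nsound_leaf T n ho
  | sum hρ _ _ ih1 ih2 => exact nsound_sum T n hρ ih1 ih2
  | cap hρ _ _ ih1 ih2 => exact nsound_cap T n hρ ih1 ih2

end Pool.Agent.H75.MX
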