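import Mathlib
import Pool.Agent.H75.MX.NDefs

set_option autoImplicit false

/-!
# Definable families of sets of vectors
-/

namespace Pool.Agent.H75.MX

/-- families of sets of vectors definable by vector systems -/
def VD (K : ℕ) (X : ℕ → Set (Fin (K + 1) → ℕ)) : Prop :=
  ∃ (Q : Type) (_ : Finite Q) (T : VS K Q) (q : Q), ∀ n x, VDer T n q x ↔ x ∈ X n

/-- constraints between natural numbers `v 0, v 1, ...` -/
inductive Con : Type
  | cst (i k : ℕ) : Con
  | eq (i j : ℕ) : Con
  | add (i j l : ℕ) : Con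
  | mul (i j s l : ℕ) : Con

/-- satisfaction -/
def Con.Sat (v : ℕ → ℕ) : Con → Prop
  | Con.cst i k => v i = k
  | Con.eq i j => v i = v j
  | Con.add i j l => v l = v i + v j
  | Con.mul i j s l => v l = v i * v j ∧ v s = v l

/-- the indices are below `N` and distinct -/
def Con.OK (N : ℕ) : Con → Prop
  | Con.cst i _ => i < N
  | Con.eq i j => i < N ∧ j < N ∧ i ≠ j
  | Con.add i j l => i < N ∧ j < N ∧ l < N ∧ i ≠ j ∧ i ≠ l ∧ j ≠ l
  | Con.mul i j s l => i < N ∧ j < N ∧ s < N ∧ l < N ∧ i ≠ j ∧ i ≠ s ∧ i ≠ l ∧ j ≠ s ∧ j ≠ l ∧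
      s ≠ l

/-- extension of a finite vector by zero -/
def ext0 {K : ℕ} (x : Fin (K + 1) → ℕ) : ℕ → ℕ := fun m => if h : m < K + 1 then x ⟨m, h⟩ else 0

theorem vfree {K : ℕ} {Q : Type} {T : VS K Q} {n : ℕ} {q : Q} {x y : Fin (K + 1) → ℕ}
    (h : VDer T n q x) (h1 : ∀ l, x l < y l → (q, l, q) ∈ T.inc) (h2 : ∀ l, x l ≤ y l) :
    VDer T n q y := by
  obtain ⟨d, hd⟩ : ∃ d, ∑ l, (y l - x l) = d := ⟨_, rfl⟩
  induction d generalizing x with
  | zero =>
    have : x = y := by
      funext l
      have h3 := (Finset.sum_eq_zero_iff.1 hd) l (Finset.mem_univ l)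
      have := h2 l
      omega
    rwa [← this]
  | succ d ih =>
    obtain ⟨l, hl⟩ : ∃ l, x l < y l := by
      by_contra hcon
      push Not at hcon
      have : ∑ l, (y l - x l) = 0 := Finset.sum_eq_zero fun l _ => by have := hcon l; omega
      omega
    refine ih (VDer.inc (h1 l hl) h) ?_ ?_ ?_
    · intro l' hl'
      refine h1 l' (lt_of_le_of_lt ?_ hl')
      simp
    · intro l'
      by_cases hll : l' = l
      · subst hll; simp; omega
      · simp [hll, h2 l']
    · have h4 : ∑ l', (y l' - x l') = ∑ l', (y l' - (x + (Pi.single l 1 : Fin (K + 1) → ℕ)) l') + 1 := by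
        rw [← Finset.add_sum_erase _ _ (Finset.mem_univ l),
          ← Finset.add_sum_erase (Finset.univ) (fun l' => y l' - (x + (Pi.single l 1 : Fin (K + 1) → ℕ)) l')
            (Finset.mem_univ l)]
        have h5 : ∑ a ∈ Finset.univ.erase l, (y a - x a) =
            ∑ a ∈ Finset.univ.erase l, (y a - (x + (Pi.single l 1 : Fin (K + 1) → ℕ)) a) := by
          refine Finset.sum_congr rfl fun a ha => ?_
          have : a ≠ l := (Finset.mem_erase.1 ha).1
          simp [this]
        rw [h5]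
        have : y l - x l = y l - (x + (Pi.single l 1 : Fin (K + 1) → ℕ)) l + 1 := by
          simp; omega
        omega
      omega

end Pool.Agent.H75.MX
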