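import Mathlib
import Pool.Agent.H75.MX.VDefs

set_option autoImplicit false

/-!
[H75 MX PCON] polynomial equations as lists of elementary constraints.

`sat_local`: `c.OK N`, `v, v'` agree below `N` → `c.Sat v ↔ c.Sat v'`.
`pcon_aux` by `MvPolynomial.induction_on` (all `N0 ≥ k + 1` simultaneously):
* constant `z`: `a = N0`, `b = N0 + 1`, `N = N0 + 2`, `Γ = [cst a z.toNat, cst b (-z).toNat]`;
* `P + Q`: first `P` with `N0` giving `N1, a1, b1, Γ1`, then `Q` with `N1` giving `N2, a2, b2, Γ2`;
  `a = N2`, `b = N2 + 1`, `N = N2 + 2`, `Γ = Γ1 ++ Γ2 ++ [add a1 a2 a, add b1 b2 b]`. For (B): take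
  `v1` for `v` and `Γ1`, then `v2` for `v1` and `Γ2` (it agrees with `v1` below `N1`, so `Γ1` is
  still satisfied by `sat_local`), then set the values at `N2, N2 + 1` (`Function.update`);
* `P * X i`: `P` with `N0` giving `N1, a1, b1, Γ1`; `Γ = Γ1 ++ [mul i a1 N1 (N1 + 1),
  mul i b1 (N1 + 2) (N1 + 3)]`, `a = N1 + 1`, `b = N1 + 3`, `N = N1 + 4`.
`pcon`: `Γ ++ [eq a b]`; `P (x) = 0 ↔ v a = v b`.
-/

namespace Pool.Agent.H75.MX

theorem sat_local {N : ℕ} {c : Con} (h : c.OK N) {v v' : ℕ → ℕ} (hv : ∀ m < N, v m = v' m) :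
    c.Sat v ↔ c.Sat v' := by
  cases c with
  | cst i k =>
    have h1 : i < N := h
    show v i = k ↔ v' i = k
    rw [hv i h1]
  | eq i j =>
    obtain ⟨h1, h2, _⟩ := h
    show v i = v j ↔ v' i = v' j
    rw [hv i h1, hv j h2]
  | add i j l =>
    obtain ⟨h1, h2, h3, _⟩ := h
    show v l = v i + v j ↔ v' l = v' i + v' j
    rw [hv i h1, hv j h2, hv l h3]
  | mul i j s l =>
    obtain ⟨h1, h2, h3, h4, _⟩ := h
    show (v l = v i * v j ∧ v s = v l) ↔ (v' l = v' i * v' j ∧ v' s = v' l)
    rw [hv i h1, hv j h2, hv l h4, hv s h3]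

theorem PCON_ok_mono {N N' : ℕ} (hN : N ≤ N') {c : Con} (h : c.OK N) : c.OK N' := by
  cases c with
  | cst i k =>
    have h1 : i < N := h
    exact lt_of_lt_of_le h1 hN
  | eq i j =>
    obtain ⟨h1, h2, h3⟩ := h
    exact ⟨lt_of_lt_of_le h1 hN, lt_of_lt_of_le h2 hN, h3⟩
  | add i j l =>
    obtain ⟨h1, h2, h3, h4⟩ := h
    exact ⟨lt_of_lt_of_le h1 hN, lt_of_lt_of_le h2 hN, lt_of_lt_of_le h3 hN, h4⟩
  | mul i j s l =>
    obtain ⟨h1, h2, h3, h3', h4⟩ := h
    exact ⟨lt_of_lt_of_le h1 hN, lt_of_lt_of_le h2 hN, lt_of_lt_of_le h3 hN,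
      lt_of_lt_of_le h3' hN, h4⟩

theorem pcon_aux (k : ℕ) (P : MvPolynomial (Fin (k + 1)) ℤ) : ∀ N0 : ℕ, k + 1 ≤ N0 →
    ∃ (N a b : ℕ) (Γ : List Con), N0 ≤ N ∧ N0 ≤ a ∧ a < N ∧ N0 ≤ b ∧ b < N ∧ a ≠ b ∧
      (∀ c ∈ Γ, c.OK N) ∧
      (∀ v : ℕ → ℕ, (∀ c ∈ Γ, c.Sat v) →
        ((v a : ℤ) - (v b : ℤ)) = MvPolynomial.eval (fun i : Fin (k + 1) => (v i.val : ℤ)) P) ∧
      (∀ v : ℕ → ℕ, ∃ v' : ℕ → ℕ, (∀ m < N0, v' m = v m) ∧ ∀ c ∈ Γ, c.Sat v') := by
  induction P using MvPolynomial.induction_on with
  | C z =>
    intro N0 hN0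
    refine ⟨N0 + 2, N0, N0 + 1, [Con.cst N0 z.toNat, Con.cst (N0 + 1) (-z).toNat], by omega,
      by omega, by omega, by omega, by omega, by omega, ?_, ?_, ?_⟩
    · intro c hc
      rcases List.mem_cons.1 hc with rfl | hc
      · show N0 < N0 + 2
        omega
      · rcases List.mem_cons.1 hc with rfl | hc
        · show N0 + 1 < N0 + 2
          omega
        · exact absurd hc (List.not_mem_nil)
    · intro v hv
      have h1 : v N0 = z.toNat := hv (Con.cst N0 z.toNat) (by simp)
      have h2 : v (N0 + 1) = (-z).toNat := hv (Con.cst (N0 + 1) (-z).toNat) (by simp)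
      rw [h1, h2, MvPolynomial.eval_C]
      omega
    · intro v
      refine ⟨Function.update (Function.update v N0 z.toNat) (N0 + 1) (-z).toNat, ?_, ?_⟩
      · intro m hm
        rw [Function.update_of_ne (by omega), Function.update_of_ne (by omega)]
      · intro c hc
        rcases List.mem_cons.1 hc with rfl | hc
        · show Function.update (Function.update v N0 z.toNat) (N0 + 1) (-z).toNat N0 = z.toNat
          rw [Function.update_of_ne (by omega), Function.update_self]
        · rcases List.mem_cons.1 hc with rfl | hc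
          · show Function.update (Function.update v N0 z.toNat) (N0 + 1) (-z).toNat (N0 + 1) =
              (-z).toNat
            rw [Function.update_self]
          · exact absurd hc (List.not_mem_nil)
  | add P Q ihP ihQ =>
    intro N0 hN0
    obtain ⟨N1, a1, b1, Γ1, hN1, ha1, ha1', hb1, hb1', hab1, hok1, hA1, hB1⟩ := ihP N0 hN0
    obtain ⟨N2, a2, b2, Γ2, hN2, ha2, ha2', hb2, hb2', hab2, hok2, hA2, hB2⟩ :=
      ihQ N1 (by omega)
    refine ⟨N2 + 2, N2, N2 + 1, Γ1 ++ Γ2 ++ [Con.add a1 a2 N2, Con.add b1 b2 (N2 + 1)], by omega,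
      by omega, by omega, by omega, by omega, by omega, ?_, ?_, ?_⟩
    · intro c hc
      rcases List.mem_append.1 hc with hc | hc
      · rcases List.mem_append.1 hc with hc | hc
        · exact PCON_ok_mono (by omega) (hok1 c hc)
        · exact PCON_ok_mono (by omega) (hok2 c hc)
      · rcases List.mem_cons.1 hc with rfl | hc
        · exact ⟨by omega, by omega, by omega, by omega, by omega, by omega⟩
        · rcases List.mem_cons.1 hc with rfl | hc
          · exact ⟨by omega, by omega, by omega, by omega, by omega, by omega⟩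
          · exact absurd hc (List.not_mem_nil)
    · intro v hv
      have h1 := hA1 v fun c hc => hv c (List.mem_append_left _ (List.mem_append_left _ hc))
      have h2 := hA2 v fun c hc => hv c (List.mem_append_left _ (List.mem_append_right _ hc))
      have h3 : v N2 = v a1 + v a2 := hv (Con.add a1 a2 N2) (by simp)
      have h4 : v (N2 + 1) = v b1 + v b2 := hv (Con.add b1 b2 (N2 + 1)) (by simp)
      rw [map_add, ← h1, ← h2, h3, h4]
      push_cast
      ring
    · intro v
      obtain ⟨v1, hv1, hs1⟩ := hB1 v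
      obtain ⟨v2, hv2, hs2⟩ := hB2 v1
      have hlow : ∀ m < N2, Function.update (Function.update v2 N2 (v2 a1 + v2 a2)) (N2 + 1)
          (v2 b1 + v2 b2) m = v2 m := by
        intro m hm
        rw [Function.update_of_ne (by omega), Function.update_of_ne (by omega)]
      refine ⟨Function.update (Function.update v2 N2 (v2 a1 + v2 a2)) (N2 + 1)
          (v2 b1 + v2 b2), ?_, ?_⟩
      · intro m hm
        rw [hlow m (by omega), hv2 m (by omega), hv1 m hm]
      · intro c hc
        rcases List.mem_append.1 hc with hc | hc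
        · rcases List.mem_append.1 hc with hc | hc
          · refine (sat_local (hok1 c hc) ?_).2 (hs1 c hc)
            intro m hm
            rw [hlow m (by omega), hv2 m hm]
          · refine (sat_local (hok2 c hc) ?_).2 (hs2 c hc)
            intro m hm
            rw [hlow m hm]
        · rcases List.mem_cons.1 hc with rfl | hc
          · show Function.update (Function.update v2 N2 (v2 a1 + v2 a2)) (N2 + 1)
              (v2 b1 + v2 b2) N2 = _ + _
            rw [hlow a1 (by omega), hlow a2 (by omega), Function.update_of_ne (by omega),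
              Function.update_self]
          · rcases List.mem_cons.1 hc with rfl | hc
            · show Function.update (Function.update v2 N2 (v2 a1 + v2 a2)) (N2 + 1)
                (v2 b1 + v2 b2) (N2 + 1) = _ + _
              rw [hlow b1 (by omega), hlow b2 (by omega), Function.update_self]
            · exact absurd hc (List.not_mem_nil)
  | mul_X P i ihP =>
    intro N0 hN0
    obtain ⟨N1, a1, b1, Γ1, hN1, ha1, ha1', hb1, hb1', hab1, hok1, hA1, hB1⟩ := ihP N0 hN0
    have hi := i.isLt
    refine ⟨N1 + 4, N1 + 1, N1 + 3, Γ1 ++ [Con.mul i.val a1 N1 (N1 + 1),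
      Con.mul i.val b1 (N1 + 2) (N1 + 3)], by omega,
      by omega, by omega, by omega, by omega, by omega, ?_, ?_, ?_⟩
    · intro c hc
      rcases List.mem_append.1 hc with hc | hc
      · exact PCON_ok_mono (by omega) (hok1 c hc)
      · rcases List.mem_cons.1 hc with rfl | hc
        · exact ⟨by omega, by omega, by omega, by omega, by omega, by omega, by omega, by omega,
            by omega, by omega⟩
        · rcases List.mem_cons.1 hc with rfl | hc
          · exact ⟨by omega, by omega, by omega, by omega, by omega, by omega, by omega,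
              by omega, by omega, by omega⟩
          · exact absurd hc (List.not_mem_nil)
    · intro v hv
      have h1 := hA1 v fun c hc => hv c (List.mem_append_left _ hc)
      have h3 : v (N1 + 1) = v i.val * v a1 ∧ v N1 = v (N1 + 1) :=
        hv (Con.mul i.val a1 N1 (N1 + 1)) (by simp)
      have h4 : v (N1 + 3) = v i.val * v b1 ∧ v (N1 + 2) = v (N1 + 3) :=
        hv (Con.mul i.val b1 (N1 + 2) (N1 + 3)) (by simp)
      rw [map_mul, MvPolynomial.eval_X, ← h1, h3.1, h4.1]
      push_cast
      ring
    · intro v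
      obtain ⟨v1, hv1, hs1⟩ := hB1 v
      set w : ℕ → ℕ := Function.update (Function.update (Function.update (Function.update v1
        N1 (v1 i.val * v1 a1)) (N1 + 1) (v1 i.val * v1 a1)) (N1 + 2) (v1 i.val * v1 b1)) (N1 + 3)
        (v1 i.val * v1 b1) with hw
      have hlow : ∀ m < N1, w m = v1 m := by
        intro m hm
        rw [hw, Function.update_of_ne (by omega), Function.update_of_ne (by omega),
          Function.update_of_ne (by omega), Function.update_of_ne (by omega)]
      have e0 : w N1 = v1 i.val * v1 a1 := by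
        rw [hw, Function.update_of_ne (by omega), Function.update_of_ne (by omega),
          Function.update_of_ne (by omega), Function.update_self]
      have e1 : w (N1 + 1) = v1 i.val * v1 a1 := by
        rw [hw, Function.update_of_ne (by omega), Function.update_of_ne (by omega),
          Function.update_self]
      have e2 : w (N1 + 2) = v1 i.val * v1 b1 := by
        rw [hw, Function.update_of_ne (by omega), Function.update_self]
      have e3 : w (N1 + 3) = v1 i.val * v1 b1 := by
        rw [hw, Function.update_self]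
      refine ⟨w, ?_, ?_⟩
      · intro m hm
        rw [hlow m (by omega), hv1 m hm]
      · intro c hc
        rcases List.mem_append.1 hc with hc | hc
        · refine (sat_local (hok1 c hc) ?_).2 (hs1 c hc)
          intro m hm
          exact hlow m hm
        · rcases List.mem_cons.1 hc with rfl | hc
          · show w (N1 + 1) = w i.val * w a1 ∧ w N1 = w (N1 + 1)
            rw [e0, e1, hlow i.val (by omega), hlow a1 (by omega)]
            exact ⟨rfl, rfl⟩
          · rcases List.mem_cons.1 hc with rfl | hc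
            · show w (N1 + 3) = w i.val * w b1 ∧ w (N1 + 2) = w (N1 + 3)
              rw [e2, e3, hlow i.val (by omega), hlow b1 (by omega)]
              exact ⟨rfl, rfl⟩
            · exact absurd hc (List.not_mem_nil)

theorem pcon (k : ℕ) (P : MvPolynomial (Fin (k + 1)) ℤ) :
    ∃ (N : ℕ) (Γ : List Con), k + 1 ≤ N ∧ (∀ c ∈ Γ, c.OK N) ∧
      ∀ x : Fin (k + 1) → ℕ, (MvPolynomial.eval (fun i => (x i : ℤ)) P = 0 ↔
        ∃ v : ℕ → ℕ, (∀ i : Fin (k + 1), v i.val = x i) ∧ ∀ c ∈ Γ, c.Sat v) := by
  obtain ⟨N, a, b, Γ, hN, ha, ha', hb, hb', hab, hok, hA, hB⟩ := pcon_aux k P (k + 1) le_rfl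
  refine ⟨N, Γ ++ [Con.eq a b], hN, ?_, ?_⟩
  · intro c hc
    rcases List.mem_append.1 hc with hc | hc
    · exact hok c hc
    · rcases List.mem_cons.1 hc with rfl | hc
      · exact ⟨ha', hb', hab⟩
      · exact absurd hc (List.not_mem_nil)
  · intro x
    constructor
    · intro h0
      obtain ⟨v', hv', hs'⟩ := hB (ext0 x)
      have hx : ∀ i : Fin (k + 1), v' i.val = x i := by
        intro i
        rw [hv' i.val i.isLt]
        simp [ext0, i.isLt]
      refine ⟨v', hx, ?_⟩
      intro c hc
      rcases List.mem_append.1 hc with hc | hc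
      · exact hs' c hc
      · rcases List.mem_cons.1 hc with rfl | hc
        · show v' a = v' b
          have h1 := hA v' hs'
          have h2 : (fun i : Fin (k + 1) => (v' i.val : ℤ)) = fun i => (x i : ℤ) := by
            funext i
            rw [hx i]
          rw [h2, h0] at h1
          omega
        · exact absurd hc (List.not_mem_nil)
    · rintro ⟨v, hv, hs⟩
      have h1 := hA v fun c hc => hs c (List.mem_append_left _ hc)
      have h2 : (fun i : Fin (k + 1) => (v i.val : ℤ)) = fun i => (x i : ℤ) := by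
        funext i
        rw [hv i]
      have h3 : v a = v b := hs (Con.eq a b) (by simp)
      rw [h2] at h1
      rw [← h1, h3, sub_self]

end Pool.Agent.H75.MX
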