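import Mathlib
import Pool.Agent.H75.MX.VDefs

set_option autoImplicit false

/-!
[H75 MX VADD] addition is definable.

`Q = Bool`. Meaning of `false`: `x l = x i + x j`; of `true`: `x l = x i + x j + 1`. `ini false =
some false` (zero vector), `ini true = none`. `inc`: `(true, l, false)`, `(false, i, true)`,
`(false, j, true)`, `(false, m, false)` for `m ≠ i, j, l`. `cap` empty. Sound: induction on `VDer`.
Complete: first the vectors with `x i = s`, `x j = t`, `x l = s + t`, other coordinates `0`, by
induction on `s + t`, then `vfree` from `VDefs.lean` for the other coordinates.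
-/

namespace Pool.Agent.H75.MX

/-- the vector system for addition -/
def VADD_T {K : ℕ} (i j l : Fin (K + 1)) : VS K Bool where
  ini := fun b => if b = true then none else some false
  inc := {r | (r.1 = true ∧ r.2.1 = l ∧ r.2.2 = false) ∨
    (r.1 = false ∧ r.2.1 = i ∧ r.2.2 = true) ∨ (r.1 = false ∧ r.2.1 = j ∧ r.2.2 = true) ∨
    (r.1 = false ∧ r.2.2 = false ∧ r.2.1 ≠ i ∧ r.2.1 ≠ j ∧ r.2.1 ≠ l)}
  cap := ∅

theorem VADD_sound {K : ℕ} {i j l : Fin (K + 1)} (hij : i ≠ j) (hil : i ≠ l) (hjl : j ≠ l)
    (n : ℕ) {q : Bool} {x : Fin (K + 1) → ℕ} (h : VDer (VADD_T i j l) n q x) :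
    x l = x i + x j + (if q = true then 1 else 0) := by
  induction h with
  | zero hq =>
    rename_i q
    cases q
    · simp
    · simp [VADD_T] at hq
  | par hq =>
    rename_i q
    cases q <;> simp [VADD_T] at hq
  | inc hr _ ih =>
    rename_i q q' m x _
    rcases hr with ⟨h1, h2, h3⟩ | ⟨h1, h2, h3⟩ | ⟨h1, h2, h3⟩ | ⟨h1, h2, h3, h4, h5⟩
    · simp only at h1 h2 h3
      subst h1; subst h2; subst h3
      simp [hil, hjl] at ih ⊢
      omega
    · simp only at h1 h2 h3
      subst h1; subst h2; subst h3
      simp [hil.symm, hij.symm] at ih ⊢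
      omega
    · simp only at h1 h2 h3
      subst h1; subst h2; subst h3
      simp [hjl.symm, hij] at ih ⊢
      omega
    · simp only at h1 h2 h3 h4 h5
      subst h1; subst h2
      simp [h3.symm, h4.symm, h5.symm] at ih ⊢
      omega
  | cap hr _ _ _ _ => exact absurd hr (Set.notMem_empty _)

theorem VADD_a {K : ℕ} (i j l : Fin (K + 1)) (n s : ℕ) :
    VDer (VADD_T i j l) n false (Pi.single i s + Pi.single l s) := by
  induction s with
  | zero =>
    have : (Pi.single i 0 + Pi.single l 0 : Fin (K + 1) → ℕ) = 0 := by simp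
    rw [this]
    exact VDer.zero rfl
  | succ s ih =>
    have h1 : VDer (VADD_T i j l) n true (Pi.single i s + Pi.single l s + Pi.single l 1) :=
      VDer.inc (Or.inl ⟨rfl, rfl, rfl⟩) ih
    have h2 : VDer (VADD_T i j l) n false
        (Pi.single i s + Pi.single l s + Pi.single l 1 + Pi.single i 1) :=
      VDer.inc (Or.inr (Or.inl ⟨rfl, rfl, rfl⟩)) h1
    have h3 : (Pi.single i (s + 1) + Pi.single l (s + 1) : Fin (K + 1) → ℕ) =
        Pi.single i s + Pi.single l s + Pi.single l 1 + Pi.single i 1 := by
      rw [Pi.single_add, Pi.single_add]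
      abel
    rw [h3]
    exact h2

theorem VADD_b {K : ℕ} (i j l : Fin (K + 1)) (n s t : ℕ) :
    VDer (VADD_T i j l) n false
      (Pi.single i s + Pi.single l s + (Pi.single j t + Pi.single l t)) := by
  induction t with
  | zero =>
    have : (Pi.single i s + Pi.single l s + (Pi.single j 0 + Pi.single l 0) : Fin (K + 1) → ℕ) =
        Pi.single i s + Pi.single l s := by simp
    rw [this]
    exact VADD_a i j l n s
  | succ t ih =>
    have h1 := VDer.inc (T := VADD_T i j l) (q := true) (i := l) (Or.inl ⟨rfl, rfl, rfl⟩) ih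
    have h2 := VDer.inc (T := VADD_T i j l) (q := false) (i := j)
      (Or.inr (Or.inr (Or.inl ⟨rfl, rfl, rfl⟩))) h1
    have h3 : (Pi.single i s + Pi.single l s + (Pi.single j (t + 1) + Pi.single l (t + 1)) :
        Fin (K + 1) → ℕ) =
        Pi.single i s + Pi.single l s + (Pi.single j t + Pi.single l t) + Pi.single l 1 +
          Pi.single j 1 := by
      have e1 : (Pi.single j (t + 1) : Fin (K + 1) → ℕ) = Pi.single j t + Pi.single j 1 :=
        Pi.single_add (f := fun _ => ℕ) j t 1
      have e2 : (Pi.single l (t + 1) : Fin (K + 1) → ℕ) = Pi.single l t + Pi.single l 1 :=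
        Pi.single_add (f := fun _ => ℕ) l t 1
      rw [e1, e2]
      abel
    rw [h3]
    exact h2

theorem vd_add {K : ℕ} {i j l : Fin (K + 1)} (hij : i ≠ j) (hil : i ≠ l) (hjl : j ≠ l) :
    VD K (fun _ => {x | x l = x i + x j}) := by
  refine ⟨Bool, inferInstance, VADD_T i j l, false, ?_⟩
  intro n x
  constructor
  · intro h
    have := VADD_sound hij hil hjl n h
    simpa using this
  · intro h
    have h0 : x l = x i + x j := h
    have h1 := VADD_b i j l n (x i) (x j)
    have hi : (Pi.single i (x i) + Pi.single l (x i) + (Pi.single j (x j) + Pi.single l (x j)) :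
        Fin (K + 1) → ℕ) i = x i := by
      simp [hij, hil]
    have hj : (Pi.single i (x i) + Pi.single l (x i) + (Pi.single j (x j) + Pi.single l (x j)) :
        Fin (K + 1) → ℕ) j = x j := by
      simp [hij.symm, hjl]
    have hl : (Pi.single i (x i) + Pi.single l (x i) + (Pi.single j (x j) + Pi.single l (x j)) :
        Fin (K + 1) → ℕ) l = x l := by
      simp [hil.symm, hjl.symm, h0]
    refine vfree h1 ?_ ?_
    · intro m hm
      refine Or.inr (Or.inr (Or.inr ⟨rfl, rfl, ?_, ?_, ?_⟩))
      · rintro rfl
        rw [hi] at hm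
        exact lt_irrefl _ hm
      · rintro rfl
        rw [hj] at hm
        exact lt_irrefl _ hm
      · rintro rfl
        rw [hl] at hm
        exact lt_irrefl _ hm
    · intro m
      by_cases hmi : m = i
      · subst hmi
        rw [hi]
      · by_cases hmj : m = j
        · subst hmj
          rw [hj]
        · by_cases hml : m = l
          · subst hml
            rw [hl]
          · simp [hmi, hmj, hml]

end Pool.Agent.H75.MX
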