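import Mathlib
import Pool.Agent.H75.MX.VDefs

set_option autoImplicit false

/-!
[H75 MX VINTER] definable families are closed under intersection; the families `x 0 = n`.

`vd_inter`: `Q = Unit ⊕ (Q1 ⊕ Q2)`, `ini` from the two systems (`none` at the new state), `inc`
and `cap` the images of those of `T1`, `T2`, one more `cap` rule
`(new, inr (inl q1), inr (inr q2))`. Then `VDer T n (inr (inl q)) x ↔ VDer T1 n q x` (one
direction by induction on `VDer`, with the statement
`match q with | inr (inl q) => VDer T1 n q x | inr (inr q) => VDer T2 n q x | inl _ => both`),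
the same for `T2`, and `VDer T n new x` iff both.
`vd_par`: `Q = Unit`, `ini = some true`, `inc = {(_, i, _) | i ≠ 0}`. Sound: induction. Complete:
`vfree` from `Pi.single 0 n`.
`vd_const`: `Q = Fin (k + 1)`, `ini q = some false` iff `q = 0`, `inc = {(q, l, q') | (l = i ∧
q.val = q'.val + 1) ∨ (l ≠ i ∧ q = q')}`. Meaning of `q`: `x i = q.val`. Complete: first
`Pi.single i q.val` by induction on `q.val`, then `vfree`.
`vd_eq`: `Q = Bool`, meaning of `false`: `x i = x j`, of `true`: `x i = x j + 1`; `inc`: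
`(true, i, false)`, `(false, j, true)`, `(false, l, false)` for `l ≠ i, j`. Complete: first the
vectors `Pi.single i t + Pi.single j t` by induction on `t`, then `vfree`.
-/

namespace Pool.Agent.H75.MX

/-- the initial rules of the product system -/
def interIni {K : ℕ} {Q1 Q2 : Type} (T1 : VS K Q1) (T2 : VS K Q2) :
    Unit ⊕ (Q1 ⊕ Q2) → Option Bool
  | Sum.inl _ => none
  | Sum.inr (Sum.inl q) => T1.ini q
  | Sum.inr (Sum.inr q) => T2.ini q

/-- the increment rules of the product system -/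
def interInc {K : ℕ} {Q1 Q2 : Type} (T1 : VS K Q1) (T2 : VS K Q2) :
    Unit ⊕ (Q1 ⊕ Q2) → Fin (K + 1) → Unit ⊕ (Q1 ⊕ Q2) → Prop
  | Sum.inr (Sum.inl q), m, Sum.inr (Sum.inl q') => (q, m, q') ∈ T1.inc
  | Sum.inr (Sum.inr q), m, Sum.inr (Sum.inr q') => (q, m, q') ∈ T2.inc
  | _, _, _ => False

/-- the intersection rules of the product system -/
def interCap {K : ℕ} {Q1 Q2 : Type} (T1 : VS K Q1) (T2 : VS K Q2) (q1 : Q1) (q2 : Q2) :
    Unit ⊕ (Q1 ⊕ Q2) → Unit ⊕ (Q1 ⊕ Q2) → Unit ⊕ (Q1 ⊕ Q2) → Prop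
  | Sum.inl _, Sum.inr (Sum.inl p), Sum.inr (Sum.inr p') => p = q1 ∧ p' = q2
  | Sum.inr (Sum.inl q), Sum.inr (Sum.inl q'), Sum.inr (Sum.inl q'') => (q, q', q'') ∈ T1.cap
  | Sum.inr (Sum.inr q), Sum.inr (Sum.inr q'), Sum.inr (Sum.inr q'') => (q, q', q'') ∈ T2.cap
  | _, _, _ => False

/-- the product system -/
def interVS {K : ℕ} {Q1 Q2 : Type} (T1 : VS K Q1) (T2 : VS K Q2) (q1 : Q1) (q2 : Q2) :
    VS K (Unit ⊕ (Q1 ⊕ Q2)) where
  ini := interIni T1 T2
  inc := {p | interInc T1 T2 p.1 p.2.1 p.2.2}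
  cap := {p | interCap T1 T2 q1 q2 p.1 p.2.1 p.2.2}

/-- the meanings -/
def interMu {K : ℕ} {Q1 Q2 : Type} (T1 : VS K Q1) (T2 : VS K Q2) (q1 : Q1) (q2 : Q2) (n : ℕ)
    (x : Fin (K + 1) → ℕ) : Unit ⊕ (Q1 ⊕ Q2) → Prop
  | Sum.inl _ => VDer T1 n q1 x ∧ VDer T2 n q2 x
  | Sum.inr (Sum.inl q) => VDer T1 n q x
  | Sum.inr (Sum.inr q) => VDer T2 n q x

theorem inter_sound {K : ℕ} {Q1 Q2 : Type} {T1 : VS K Q1} {T2 : VS K Q2} {q1 : Q1} {q2 : Q2}
    {n : ℕ} {q : Unit ⊕ (Q1 ⊕ Q2)} {x : Fin (K + 1) → ℕ}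
    (h : VDer (interVS T1 T2 q1 q2) n q x) : interMu T1 T2 q1 q2 n x q := by
  induction h with
  | @zero q h =>
    rcases q with q | q | q
    · exact absurd h (by simp [interVS, interIni])
    · exact VDer.zero h
    · exact VDer.zero h
  | @par q h =>
    rcases q with q | q | q
    · exact absurd h (by simp [interVS, interIni])
    · exact VDer.par h
    · exact VDer.par h
  | @inc q q' m x h _ ih =>
    replace h : interInc T1 T2 q m q' := h
    rcases q with q | q | q <;> rcases q' with q' | q' | q' <;> simp only [interInc] at h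
    · exact VDer.inc h ih
    · exact VDer.inc h ih
  | @cap q q' q'' x h _ _ ih ih' =>
    replace h : interCap T1 T2 q1 q2 q q' q'' := h
    rcases q with q | q | q <;> rcases q' with q' | q' | q' <;>
      rcases q'' with q'' | q'' | q'' <;> simp only [interCap] at h
    · obtain ⟨rfl, rfl⟩ := h
      exact ⟨ih, ih'⟩
    · exact VDer.cap h ih ih'
    · exact VDer.cap h ih ih'

theorem inter_left {K : ℕ} {Q1 Q2 : Type} {T1 : VS K Q1} (T2 : VS K Q2) (q1 : Q1) (q2 : Q2)
    {n : ℕ} {q : Q1} {x : Fin (K + 1) → ℕ}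
    (h : VDer T1 n q x) : VDer (interVS T1 T2 q1 q2) n (Sum.inr (Sum.inl q)) x := by
  induction h with
  | @zero q h => exact VDer.zero h
  | @par q h => exact VDer.par h
  | @inc q q' m x h _ ih =>
    have h1 : ((Sum.inr (Sum.inl q) : Unit ⊕ (Q1 ⊕ Q2)), m,
        (Sum.inr (Sum.inl q') : Unit ⊕ (Q1 ⊕ Q2))) ∈ (interVS T1 T2 q1 q2).inc := h
    exact VDer.inc h1 ih
  | @cap q q' q'' x h _ _ ih ih' =>
    have h1 : ((Sum.inr (Sum.inl q) : Unit ⊕ (Q1 ⊕ Q2)),
        (Sum.inr (Sum.inl q') : Unit ⊕ (Q1 ⊕ Q2)),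
        (Sum.inr (Sum.inl q'') : Unit ⊕ (Q1 ⊕ Q2))) ∈ (interVS T1 T2 q1 q2).cap := h
    exact VDer.cap h1 ih ih'

theorem inter_right {K : ℕ} {Q1 Q2 : Type} (T1 : VS K Q1) {T2 : VS K Q2} (q1 : Q1) (q2 : Q2)
    {n : ℕ} {q : Q2} {x : Fin (K + 1) → ℕ}
    (h : VDer T2 n q x) : VDer (interVS T1 T2 q1 q2) n (Sum.inr (Sum.inr q)) x := by
  induction h with
  | @zero q h => exact VDer.zero h
  | @par q h => exact VDer.par h
  | @inc q q' m x h _ ih =>
    have h1 : ((Sum.inr (Sum.inr q) : Unit ⊕ (Q1 ⊕ Q2)), m,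
        (Sum.inr (Sum.inr q') : Unit ⊕ (Q1 ⊕ Q2))) ∈ (interVS T1 T2 q1 q2).inc := h
    exact VDer.inc h1 ih
  | @cap q q' q'' x h _ _ ih ih' =>
    have h1 : ((Sum.inr (Sum.inr q) : Unit ⊕ (Q1 ⊕ Q2)),
        (Sum.inr (Sum.inr q') : Unit ⊕ (Q1 ⊕ Q2)),
        (Sum.inr (Sum.inr q'') : Unit ⊕ (Q1 ⊕ Q2))) ∈ (interVS T1 T2 q1 q2).cap := h
    exact VDer.cap h1 ih ih'

theorem vd_inter {K : ℕ} {X Y : ℕ → Set (Fin (K + 1) → ℕ)} (hX : VD K X) (hY : VD K Y) :
    VD K (fun n => X n ∩ Y n) := by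
  obtain ⟨Q1, hQ1, T1, q1, h1⟩ := hX
  obtain ⟨Q2, hQ2, T2, q2, h2⟩ := hY
  refine ⟨Unit ⊕ (Q1 ⊕ Q2), inferInstance, interVS T1 T2 q1 q2, Sum.inl (), ?_⟩
  intro n x
  constructor
  · intro h
    have h3 := inter_sound h
    exact ⟨(h1 n x).1 h3.1, (h2 n x).1 h3.2⟩
  · rintro ⟨h3, h4⟩
    have h5 : ((Sum.inl () : Unit ⊕ (Q1 ⊕ Q2)), (Sum.inr (Sum.inl q1) : Unit ⊕ (Q1 ⊕ Q2)),
        (Sum.inr (Sum.inr q2) : Unit ⊕ (Q1 ⊕ Q2))) ∈ (interVS T1 T2 q1 q2).cap := ⟨rfl, rfl⟩
    exact VDer.cap h5 (inter_left T2 q1 q2 ((h1 n x).2 h3))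
      (inter_right T1 q1 q2 ((h2 n x).2 h4))

/-- the system for `x 0 = n` -/
def parVS (K : ℕ) : VS K Unit where
  ini := fun _ => some true
  inc := {p | p.2.1 ≠ 0}
  cap := ∅

theorem vd_par (K : ℕ) : VD K (fun n => {x | x 0 = n}) := by
  have key : ∀ (n : ℕ) (q : Unit) (x : Fin (K + 1) → ℕ), VDer (parVS K) n q x → x 0 = n := by
    intro n q x h
    induction h with
    | @zero q h => exact absurd h (by simp [parVS])
    | @par q h => simp
    | @inc q q' m x h _ ih =>
      replace h : m ≠ 0 := h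
      rw [Pi.add_apply, Pi.single_apply, if_neg (Ne.symm h), ih, add_zero]
    | @cap q q' q'' x h _ _ ih ih' => exact absurd h (by simp [parVS])
  refine ⟨Unit, inferInstance, parVS K, (), ?_⟩
  intro n x
  constructor
  · intro h
    exact key n _ x h
  · intro h
    replace h : x 0 = n := h
    refine vfree (x := Pi.single 0 n) (VDer.par rfl) ?_ ?_
    · intro m hm
      show m ≠ 0
      rintro rfl
      rw [Pi.single_eq_same] at hm
      omega
    · intro m
      rw [Pi.single_apply]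
      split_ifs with h1
      · rw [h1, h]
      · exact Nat.zero_le _

/-- the system for `x i = k` -/
def constVS {K : ℕ} (i : Fin (K + 1)) (k : ℕ) : VS K (Fin (k + 1)) where
  ini := fun q => if q = 0 then some false else none
  inc := {p | (p.2.1 = i ∧ p.1.val = p.2.2.val + 1) ∨ (p.2.1 ≠ i ∧ p.1 = p.2.2)}
  cap := ∅

theorem const_single {K : ℕ} (i : Fin (K + 1)) (k n : ℕ) : ∀ t (ht : t < k + 1),
    VDer (constVS i k) n ⟨t, ht⟩ (Pi.single i t) := by
  intro t
  induction t with
  | zero =>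
    intro ht
    rw [Pi.single_zero]
    apply VDer.zero
    have h1 : (⟨0, ht⟩ : Fin (k + 1)) = 0 := rfl
    show (if (⟨0, ht⟩ : Fin (k + 1)) = 0 then some false else none) = some false
    rw [if_pos h1]
  | succ t ih =>
    intro ht
    rw [Pi.single_add]
    have h1 : ((⟨t + 1, ht⟩ : Fin (k + 1)), i, (⟨t, by omega⟩ : Fin (k + 1))) ∈
        (constVS i k).inc := Or.inl ⟨rfl, rfl⟩
    exact VDer.inc h1 (ih (by omega))

theorem vd_const {K : ℕ} (i : Fin (K + 1)) (k : ℕ) : VD K (fun _ => {x | x i = k}) := by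
  refine ⟨Fin (k + 1), inferInstance, constVS i k, ⟨k, by omega⟩, ?_⟩
  have key : ∀ n (q : Fin (k + 1)) x, VDer (constVS i k) n q x → x i = q.val := by
    intro n q x h
    induction h with
    | @zero q h =>
      replace h : (if q = 0 then some false else none) = some false := h
      have h1 : q = 0 := by
        by_contra h1
        rw [if_neg h1] at h
        exact absurd h (by simp)
      rw [h1]
      rfl
    | @par q h =>
      replace h : (if q = 0 then some false else none) = some true := h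
      split_ifs at h <;> simp at h
    | @inc q q' m x h _ ih =>
      replace h : (m = i ∧ q.val = q'.val + 1) ∨ (m ≠ i ∧ q = q') := h
      rw [Pi.add_apply, Pi.single_apply]
      rcases h with ⟨rfl, h⟩ | ⟨h1, rfl⟩
      · rw [if_pos rfl, ih, h]
      · rw [if_neg (Ne.symm h1), ih, add_zero]
    | @cap q q' q'' x h _ _ ih ih' => exact absurd h (by simp [constVS])
  intro n x
  constructor
  · intro h
    exact key n _ x h
  · intro h
    replace h : x i = k := h
    refine vfree (const_single i k n k (by omega)) ?_ ?_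
    · intro m hm
      right
      refine ⟨?_, rfl⟩
      show m ≠ i
      rintro rfl
      rw [Pi.single_eq_same] at hm
      omega
    · intro m
      rw [Pi.single_apply]
      split_ifs with h1
      · rw [h1, h]
      · exact Nat.zero_le _

/-- the system for `x i = x j` -/
def eqVS {K : ℕ} (i j : Fin (K + 1)) : VS K Bool where
  ini := fun q => if q then none else some false
  inc := {p | (p.1 = true ∧ p.2.1 = i ∧ p.2.2 = false) ∨
    (p.1 = false ∧ p.2.1 = j ∧ p.2.2 = true) ∨
    (p.1 = false ∧ p.2.1 ≠ i ∧ p.2.1 ≠ j ∧ p.2.2 = false)}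
  cap := ∅

theorem vd_eq {K : ℕ} {i j : Fin (K + 1)} (hij : i ≠ j) : VD K (fun _ => {x | x i = x j}) := by
  refine ⟨Bool, inferInstance, eqVS i j, false, ?_⟩
  have key : ∀ n (q : Bool) x, VDer (eqVS i j) n q x →
      x i = x j + (if q then 1 else 0) := by
    intro n q x h
    induction h with
    | @zero q h =>
      rcases q with _ | _
      · simp
      · exact absurd h (by simp [eqVS])
    | @par q h =>
      rcases q with _ | _ <;> exact absurd h (by simp [eqVS])
    | @inc q q' m x h _ ih =>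
      replace h : (q = true ∧ m = i ∧ q' = false) ∨ (q = false ∧ m = j ∧ q' = true) ∨
        (q = false ∧ m ≠ i ∧ m ≠ j ∧ q' = false) := h
      rw [Pi.add_apply, Pi.add_apply, Pi.single_apply, Pi.single_apply]
      rcases h with ⟨rfl, rfl, rfl⟩ | ⟨rfl, rfl, rfl⟩ | ⟨rfl, h1, h2, rfl⟩
      · rw [if_pos rfl, if_neg hij.symm, ih]
        simp
      · rw [if_pos rfl, if_neg hij, ih]
        simp
      · rw [if_neg (Ne.symm h1), if_neg (Ne.symm h2), ih]
        simp
    | @cap q q' q'' x h _ _ ih ih' => exact absurd h (by simp [eqVS])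
  intro n x
  constructor
  · intro h
    have h1 := key n false x h
    simpa using h1
  · intro h
    replace h : x i = x j := h
    have h1 : ∀ t : ℕ, VDer (eqVS i j) n false (Pi.single i t + Pi.single j t) := by
      intro t
      induction t with
      | zero =>
        have h2 : (Pi.single i 0 + Pi.single j 0 : Fin (K + 1) → ℕ) = 0 := by simp
        rw [h2]
        exact VDer.zero rfl
      | succ t ih =>
        have h2 : VDer (eqVS i j) n true (Pi.single i t + Pi.single j t + Pi.single i 1) := by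
          have h3 : (true, i, false) ∈ (eqVS i j).inc := Or.inl ⟨rfl, rfl, rfl⟩
          exact VDer.inc h3 ih
        have h3 : VDer (eqVS i j) n false
            (Pi.single i t + Pi.single j t + Pi.single i 1 + Pi.single j 1) := by
          have h4 : (false, j, true) ∈ (eqVS i j).inc := Or.inr (Or.inl ⟨rfl, rfl, rfl⟩)
          exact VDer.inc h4 h2
        have h4 : (Pi.single i (t + 1) + Pi.single j (t + 1) : Fin (K + 1) → ℕ) =
            Pi.single i t + Pi.single j t + Pi.single i 1 + Pi.single j 1 := by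
          rw [Pi.single_add, Pi.single_add]
          abel
        rw [h4]
        exact h3
    refine vfree (h1 (x i)) ?_ ?_
    · intro m hm
      right
      right
      refine ⟨rfl, ?_, ?_, rfl⟩
      · show m ≠ i
        rintro rfl
        rw [Pi.add_apply, Pi.single_eq_same] at hm
        omega
      · show m ≠ j
        rintro rfl
        rw [Pi.add_apply, Pi.single_eq_same, h] at hm
        omega
    · intro m
      rw [Pi.add_apply, Pi.single_apply, Pi.single_apply]
      by_cases h2 : m = i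
      · subst h2
        rw [if_pos rfl, if_neg hij]
        omega
      · rw [if_neg h2]
        by_cases h3 : m = j
        · subst h3
          rw [if_pos rfl, h]
          omega
        · rw [if_neg h3]
          omega

end Pool.Agent.H75.MX
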