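import Mathlib
import Pool.Agent.H75.MX.VDefs

set_option autoImplicit false

/-!
[H75 MX VMUL] multiplication is definable (four distinct coordinates `i, j, s, l`).

States (a finite inductive type or `Fin 9`) with their meanings:
* `e0`: `x s = x l`;                      `e1`: `x s = x l + 1`   (equality guard)
* `g0`: `x l = x s + x i`;                `g1`: `x l = x s + x i + 1`   (sum guard)
* `q0`: `x j = 0 ∧ x s = 0 ∧ x l = 0`
* `q1`: `x s = x i * x j ∧ x s ≤ x l`
* `g`:  `x s = x i * x j ∧ x l = x s + x i`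
* `q2`: `1 ≤ x j ∧ x i * (x j - 1) ≤ x s ∧ x l = x i * x j`
* `res`: `x l = x i * x j ∧ x s = x l`
Rules: zero vector in `e0, g0, q0`.
`e1 ⊇ e0 + e_s`, `e0 ⊇ e1 + e_l`, `e0 ⊇ e0 + e_m` (`m ≠ s, l`);
`g1 ⊇ g0 + e_l`, `g0 ⊇ g1 + e_s`, `g0 ⊇ g1 + e_i`, `g0 ⊇ g0 + e_m` (`m ≠ l, s, i`);
`q0 ⊇ q0 + e_m` (`m ≠ j, s, l`); `q1 ⊇ q0 ∩ q0`; `q1 ⊇ q1 + e_l`; `g ⊇ q1 ∩ g0`;
`q2 ⊇ g + e_j`; `q2 ⊇ q2 + e_s`; `q1 ⊇ q2 ∩ e0`; `res ⊇ q1 ∩ e0`.
(Watch out: `q2` with `x s` growing beyond: its meaning is `1 ≤ x j ∧ x i * (x j - 1) ≤ x s ∧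
x l = x i * x j`, no upper bound on `x s`.)
Sound: induction on `VDer`: each rule preserves the meanings (`Nat` arithmetic: `nlinarith` or
`x j = t + 1` and `Nat.mul_succ`; the coordinates are distinct, `Pi.single_eq_of_ne`).
Complete for `res`: (a) `e0`, `g0` contain all vectors with their meaning (as in VADD); (b) `q0`: by
`vfree` from the zero vector; (c) by induction on `t`: every `x` with `x j = t`,
`x s = x l = x i * t` is in `q1`: `t = 0`: `q0`. Step: let `x j = t + 1`,
`x s = x l = x i (t + 1)`. The vector `y` with `y j = t`, `y s = y l = x i * t`, else `y = x`, is in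
`q1`; raise `l` by `x i` (`q1 ⊇ q1 + e_l`, `vfree`): in `q1 ∩ g0`, so in `g`; raise `j` by one: `q2`;
raise `s` by `x i` (`vfree`): this is `x`, in `q2 ∩ e0`, so in `q1`. (d) `res`.
Only `res` is needed as an equivalence.
-/

namespace Pool.Agent.H75.MX

/-- the states -/
inductive MulQ : Type
  | e0 | e1 | g0 | g1 | q0 | q1 | g | q2 | res
  deriving DecidableEq, Fintype

/-- the increment rules -/
def mulIncP {K : ℕ} (i j s l : Fin (K + 1)) : MulQ → Fin (K + 1) → MulQ → Prop
  | .e1, m, .e0 => m = s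
  | .e0, m, .e1 => m = l
  | .e0, m, .e0 => m ≠ s ∧ m ≠ l
  | .g1, m, .g0 => m = l
  | .g0, m, .g1 => m = s ∨ m = i
  | .g0, m, .g0 => m ≠ l ∧ m ≠ s ∧ m ≠ i
  | .q0, m, .q0 => m ≠ j ∧ m ≠ s ∧ m ≠ l
  | .q1, m, .q1 => m = l
  | .q2, m, .g => m = j
  | .q2, m, .q2 => m = s
  | _, _, _ => False

/-- the intersection rules -/
def mulCapP : MulQ → MulQ → MulQ → Prop
  | .q1, .q0, .q0 => True
  | .g, .q1, .g0 => True
  | .q1, .q2, .e0 => True
  | .res, .q1, .e0 => True
  | _, _, _ => False

/-- the initial rules -/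
def mulIni : MulQ → Option Bool
  | .e0 => some false
  | .g0 => some false
  | .q0 => some false
  | _ => none

/-- the system -/
def mulVS {K : ℕ} (i j s l : Fin (K + 1)) : VS K MulQ where
  ini := mulIni
  inc := {p | mulIncP i j s l p.1 p.2.1 p.2.2}
  cap := {p | mulCapP p.1 p.2.1 p.2.2}

theorem mul_mk_inc {K : ℕ} {i j s l : Fin (K + 1)} {q q' : MulQ} {m : Fin (K + 1)}
    (h : mulIncP i j s l q m q') : (q, m, q') ∈ (mulVS i j s l).inc := h

theorem mul_mk_cap {K : ℕ} {i j s l : Fin (K + 1)} {q q' q'' : MulQ}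
    (h : mulCapP q q' q'') : (q, q', q'') ∈ (mulVS i j s l).cap := h

/-- the meanings -/
def mulMu {K : ℕ} (i j s l : Fin (K + 1)) : MulQ → (Fin (K + 1) → ℕ) → Prop
  | .e0, x => x s = x l
  | .e1, x => x s = x l + 1
  | .g0, x => x l = x s + x i
  | .g1, x => x l = x s + x i + 1
  | .q0, x => x j = 0 ∧ x s = 0 ∧ x l = 0
  | .q1, x => x s = x i * x j ∧ x s ≤ x l
  | .g, x => x s = x i * x j ∧ x l = x s + x i
  | .q2, x => 1 ≤ x j ∧ x i * (x j - 1) ≤ x s ∧ x l = x i * x j
  | .res, x => x l = x i * x j ∧ x s = x l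

theorem mul_inc_sound {K : ℕ} {i j s l : Fin (K + 1)} (hij : i ≠ j) (his : i ≠ s) (hil : i ≠ l)
    (hjs : j ≠ s) (hjl : j ≠ l) (hsl : s ≠ l) (q q' : MulQ) (m : Fin (K + 1))
    (x : Fin (K + 1) → ℕ) (h : mulIncP i j s l q m q') (ih : mulMu i j s l q' x) :
    mulMu i j s l q (x + Pi.single m 1) := by
  have hv : ∀ t, (x + (Pi.single m 1 : Fin (K + 1) → ℕ)) t = x t + if t = m then 1 else 0 := by
    intro t
    rw [Pi.add_apply, Pi.single_apply]
  cases q <;> cases q' <;> simp only [mulIncP] at h <;> simp only [mulMu] at ih <;>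
    simp only [mulMu, hv]
  · -- e0 e0
    rw [if_neg (Ne.symm h.1), if_neg (Ne.symm h.2)]
    omega
  · -- e0 e1
    subst h
    rw [if_neg hsl, if_pos rfl]
    omega
  · -- e1 e0
    subst h
    rw [if_neg hsl.symm, if_pos rfl]
    omega
  · -- g0 g0
    rw [if_neg (Ne.symm h.1), if_neg (Ne.symm h.2.1), if_neg (Ne.symm h.2.2)]
    omega
  · -- g0 g1
    rcases h with h | h
    · subst h
      rw [if_neg hsl.symm, if_pos rfl, if_neg his]
      omega
    · subst h
      rw [if_neg hil.symm, if_pos rfl, if_neg his.symm]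
      omega
  · -- g1 g0
    subst h
    rw [if_neg hsl, if_pos rfl, if_neg hil]
    omega
  · -- q0 q0
    rw [if_neg (Ne.symm h.1), if_neg (Ne.symm h.2.1), if_neg (Ne.symm h.2.2)]
    omega
  · -- q1 q1
    subst h
    rw [if_neg hsl, if_neg hil, if_neg hjl, if_pos rfl]
    simp only [add_zero]
    omega
  · -- q2 g
    subst h
    rw [if_neg hij, if_neg hjs.symm, if_neg hjl.symm, if_pos rfl]
    simp only [add_zero, Nat.add_sub_cancel, Nat.mul_succ]
    omega
  · -- q2 q2
    subst h
    rw [if_neg his, if_neg hjs, if_neg hsl.symm, if_pos rfl]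
    simp only [add_zero]
    omega

theorem mul_cap_sound {K : ℕ} {i j s l : Fin (K + 1)} (q q' q'' : MulQ)
    (x : Fin (K + 1) → ℕ) (h : mulCapP q q' q'') (ih : mulMu i j s l q' x)
    (ih' : mulMu i j s l q'' x) : mulMu i j s l q x := by
  cases q <;> cases q' <;> cases q'' <;> simp only [mulCapP] at h <;>
    simp only [mulMu] at ih ih' ⊢
  · -- q1 q0 q0
    obtain ⟨h1, h2, h3⟩ := ih
    rw [h1, h2, h3]
    simp
  · omega
  · omega
  · omega

theorem mul_sound {K : ℕ} {i j s l : Fin (K + 1)} (hij : i ≠ j) (his : i ≠ s) (hil : i ≠ l)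
    (hjs : j ≠ s) (hjl : j ≠ l) (hsl : s ≠ l) {n : ℕ} {q : MulQ} {x : Fin (K + 1) → ℕ}
    (h : VDer (mulVS i j s l) n q x) : mulMu i j s l q x := by
  induction h with
  | @zero q h =>
    cases q <;> simp only [mulVS, mulIni, reduceCtorEq] at h <;> simp [mulMu]
  | @par q h =>
    cases q <;> simp [mulVS, mulIni] at h
  | @inc q q' m x h _ ih => exact mul_inc_sound hij his hil hjs hjl hsl q q' m x h ih
  | @cap q q' q'' x h _ _ ih ih' => exact mul_cap_sound q q' q'' x h ih ih'

theorem mul_e0 {K : ℕ} {i j s l : Fin (K + 1)} (hsl : s ≠ l) (n : ℕ) (x : Fin (K + 1) → ℕ)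
    (hx : x s = x l) : VDer (mulVS i j s l) n .e0 x := by
  have h1 : ∀ t : ℕ, VDer (mulVS i j s l) n .e0 (Pi.single s t + Pi.single l t) := by
    intro t
    induction t with
    | zero =>
      have h2 : (Pi.single s 0 + Pi.single l 0 : Fin (K + 1) → ℕ) = 0 := by simp
      rw [h2]
      exact VDer.zero rfl
    | succ t ih =>
      have h2 : VDer (mulVS i j s l) n .e1 (Pi.single s t + Pi.single l t + Pi.single s 1) :=
        VDer.inc (mul_mk_inc (q := .e1) (q' := .e0) (m := s) (rfl)) ih
      have h3 : VDer (mulVS i j s l) n .e0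
          (Pi.single s t + Pi.single l t + Pi.single s 1 + Pi.single l 1) :=
        VDer.inc (mul_mk_inc (q := .e0) (q' := .e1) (m := l) (rfl)) h2
      have h4 : (Pi.single s (t + 1) + Pi.single l (t + 1) : Fin (K + 1) → ℕ) =
          Pi.single s t + Pi.single l t + Pi.single s 1 + Pi.single l 1 := by
        rw [Pi.single_add, Pi.single_add]
        abel
      rw [h4]
      exact h3
  refine vfree (h1 (x s)) ?_ ?_
  · intro m hm
    show m ≠ s ∧ m ≠ l
    constructor
    · rintro rfl
      simp at hm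
    · rintro rfl
      simp [hx] at hm
  · intro m
    rw [Pi.add_apply, Pi.single_apply, Pi.single_apply]
    by_cases h2 : m = s
    · subst h2
      rw [if_pos rfl, if_neg hsl]
      omega
    · rw [if_neg h2]
      by_cases h3 : m = l
      · subst h3
        rw [if_pos rfl, hx]
        omega
      · rw [if_neg h3]
        omega

theorem mul_g0 {K : ℕ} {i j s l : Fin (K + 1)} (his : i ≠ s) (hil : i ≠ l) (hsl : s ≠ l)
    (n : ℕ) (x : Fin (K + 1) → ℕ)
    (hx : x l = x s + x i) : VDer (mulVS i j s l) n .g0 x := by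
  have hstep : ∀ (y : Fin (K + 1) → ℕ) (m : Fin (K + 1)), (m = s ∨ m = i) →
      VDer (mulVS i j s l) n .g0 y →
      VDer (mulVS i j s l) n .g0 (y + Pi.single l 1 + Pi.single m 1) := by
    intro y m hm hy
    have h2 : VDer (mulVS i j s l) n .g1 (y + Pi.single l 1) :=
      VDer.inc (mul_mk_inc (q := .g1) (q' := .g0) (m := l) (rfl)) hy
    exact VDer.inc (mul_mk_inc (q := .g0) (q' := .g1) (m := m) (hm)) h2
  have h1 : ∀ a : ℕ, VDer (mulVS i j s l) n .g0 (Pi.single s a + Pi.single l a) := by
    intro a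
    induction a with
    | zero =>
      have h2 : (Pi.single s 0 + Pi.single l 0 : Fin (K + 1) → ℕ) = 0 := by simp
      rw [h2]
      exact VDer.zero rfl
    | succ a ih =>
      have h4 : (Pi.single s (a + 1) + Pi.single l (a + 1) : Fin (K + 1) → ℕ) =
          Pi.single s a + Pi.single l a + Pi.single l 1 + Pi.single s 1 := by
        rw [Pi.single_add, Pi.single_add]
        abel
      rw [h4]
      exact hstep _ s (Or.inl rfl) ih
  have h2 : ∀ a b : ℕ, VDer (mulVS i j s l) n .g0
      (Pi.single s a + Pi.single l (a + b) + Pi.single i b) := by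
    intro a b
    induction b with
    | zero => simpa using h1 a
    | succ b ih =>
      have h4 : (Pi.single s a + Pi.single l (a + (b + 1)) + Pi.single i (b + 1) :
          Fin (K + 1) → ℕ) =
          Pi.single s a + Pi.single l (a + b) + Pi.single i b + Pi.single l 1 +
            Pi.single i 1 := by
        have h5 : (Pi.single l (a + (b + 1)) : Fin (K + 1) → ℕ) =
            Pi.single l (a + b) + Pi.single l 1 := by
          rw [← add_assoc, Pi.single_add]
        have h6 : (Pi.single i (b + 1) : Fin (K + 1) → ℕ) = Pi.single i b + Pi.single i 1 := by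
          rw [Pi.single_add]
        rw [h5, h6]
        abel
      rw [h4]
      exact hstep _ i (Or.inr rfl) ih
  refine vfree (h2 (x s) (x i)) ?_ ?_
  · intro m hm
    show m ≠ l ∧ m ≠ s ∧ m ≠ i
    refine ⟨?_, ?_, ?_⟩
    · rintro rfl
      rw [Pi.add_apply, Pi.add_apply, Pi.single_eq_same] at hm
      omega
    · rintro rfl
      rw [Pi.add_apply, Pi.add_apply, Pi.single_eq_same] at hm
      omega
    · rintro rfl
      rw [Pi.add_apply, Pi.single_eq_same] at hm
      omega
  · intro m
    rw [Pi.add_apply, Pi.add_apply, Pi.single_apply, Pi.single_apply, Pi.single_apply]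
    by_cases h3 : m = s
    · subst h3
      rw [if_pos rfl, if_neg hsl, if_neg his.symm]
      omega
    · rw [if_neg h3]
      by_cases h4 : m = l
      · subst h4
        rw [if_pos rfl, if_neg hil.symm, hx]
        omega
      · rw [if_neg h4]
        by_cases h5 : m = i
        · subst h5
          rw [if_pos rfl]
          omega
        · rw [if_neg h5]
          omega

theorem mul_q1 {K : ℕ} {i j s l : Fin (K + 1)} (hij : i ≠ j) (his : i ≠ s) (hil : i ≠ l)
    (hjs : j ≠ s) (hjl : j ≠ l) (hsl : s ≠ l) (n t : ℕ) : ∀ x : Fin (K + 1) → ℕ,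
    x j = t → x s = x i * t → x l = x i * t → VDer (mulVS i j s l) n .q1 x := by
  induction t with
  | zero =>
    intro x h1 h2 h3
    have h4 : VDer (mulVS i j s l) n .q0 x := by
      refine vfree (x := 0) (VDer.zero rfl) ?_ ?_
      · intro m hm
        show m ≠ j ∧ m ≠ s ∧ m ≠ l
        rw [Pi.zero_apply] at hm
        refine ⟨?_, ?_, ?_⟩
        · rintro rfl
          omega
        · rintro rfl
          simp [h2] at hm
        · rintro rfl
          simp [h3] at hm
      · intro m
        simp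
    exact VDer.cap (mul_mk_cap (q := .q1) (q' := .q0) (q'' := .q0) trivial) h4 h4
  | succ t ih =>
    intro x h1 h2 h3
    have hlt : x i * t + x i = x i * (t + 1) := by ring
    -- the vector `y`
    obtain ⟨y, hy⟩ : ∃ y : Fin (K + 1) → ℕ, y = fun m => if m = j then t else
      if m = s then x i * t else if m = l then x i * t else x m := ⟨_, rfl⟩
    have hyj : y j = t := by rw [hy]; simp
    have hys : y s = x i * t := by rw [hy]; simp [hjs.symm]
    have hyl : y l = x i * t := by rw [hy]; simp [hjl.symm, hsl.symm]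
    have hyi : y i = x i := by rw [hy]; simp [hij, his, hil]
    have hym : ∀ m, m ≠ j → m ≠ s → m ≠ l → y m = x m := by
      intro m a1 a2 a3
      rw [hy]
      simp [a1, a2, a3]
    have d1 : VDer (mulVS i j s l) n .q1 y := ih y hyj (by rw [hys, hyi]) (by rw [hyl, hyi])
    obtain ⟨z, hz⟩ : ∃ z : Fin (K + 1) → ℕ, z = fun m => if m = l then x l else y m :=
      ⟨_, rfl⟩
    have hzl : z l = x l := by rw [hz]; simp
    have hzm : ∀ m, m ≠ l → z m = y m := by
      intro m a1
      rw [hz]
      simp [a1]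
    have d2 : VDer (mulVS i j s l) n .q1 z := by
      refine vfree d1 ?_ ?_
      · intro m hm
        show m = l
        by_contra hne
        rw [hzm m hne] at hm
        omega
      · intro m
        by_cases hne : m = l
        · subst hne
          rw [hzl, hyl, h3]
          omega
        · rw [hzm m hne]
    have d3 : VDer (mulVS i j s l) n .g0 z := by
      apply mul_g0 his hil hsl
      rw [hzl, hzm s hsl, hzm i hil, hys, hyi, h3]
      omega
    have d4 : VDer (mulVS i j s l) n .g z :=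
      VDer.cap (mul_mk_cap (q := .g) (q' := .q1) (q'' := .g0) trivial) d2 d3
    have d5 : VDer (mulVS i j s l) n .q2 (z + Pi.single j 1) :=
      VDer.inc (mul_mk_inc (q := .q2) (q' := .g) (m := j) (rfl)) d4
    have hv : ∀ m, (z + (Pi.single j 1 : Fin (K + 1) → ℕ)) m =
        z m + if m = j then 1 else 0 := by
      intro m
      rw [Pi.add_apply, Pi.single_apply]
    have hv2 : ∀ m, m ≠ s → (z + (Pi.single j 1 : Fin (K + 1) → ℕ)) m = x m := by
      intro m hms
      rw [hv]
      by_cases a1 : m = j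
      · subst a1
        rw [if_pos rfl, hzm m hjl, hyj, h1]
      · rw [if_neg a1]
        by_cases a2 : m = l
        · subst a2
          rw [hzl, add_zero]
        · rw [hzm m a2, hym m a1 hms a2, add_zero]
    have d6 : VDer (mulVS i j s l) n .q2 x := by
      refine vfree d5 ?_ ?_
      · intro m hm
        show m = s
        by_contra hne
        rw [hv2 m hne] at hm
        omega
      · intro m
        by_cases hne : m = s
        · subst hne
          rw [hv, if_neg hjs.symm, hzm m hsl, hys, h2]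
          omega
        · rw [hv2 m hne]
    have d7 : VDer (mulVS i j s l) n .e0 x := mul_e0 hsl n x (by rw [h2, h3])
    exact VDer.cap (mul_mk_cap (q := .q1) (q' := .q2) (q'' := .e0) trivial) d6 d7

theorem vd_mul {K : ℕ} {i j s l : Fin (K + 1)} (hij : i ≠ j) (his : i ≠ s) (hil : i ≠ l)
    (hjs : j ≠ s) (hjl : j ≠ l) (hsl : s ≠ l) :
    VD K (fun _ => {x | x l = x i * x j ∧ x s = x l}) := by
  refine ⟨MulQ, inferInstance, mulVS i j s l, .res, ?_⟩
  intro n x
  constructor
  · intro h
    exact mul_sound hij his hil hjs hjl hsl h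
  · rintro ⟨h1, h2⟩
    have d1 : VDer (mulVS i j s l) n .q1 x :=
      mul_q1 hij his hil hjs hjl hsl n (x j) x rfl (by rw [h2, h1]) h1
    have d2 : VDer (mulVS i j s l) n .e0 x := mul_e0 hsl n x h2
    exact VDer.cap (mul_mk_cap (q := .res) (q' := .q1) (q'' := .e0) trivial) d1 d2

end Pool.Agent.H75.MX
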