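import Mathlib
import Pool.Agent.H75.MX.VInter
import Pool.Agent.H75.MX.VAdd
import Pool.Agent.H75.MX.VMul

set_option autoImplicit false

/-!
[H75 MX VALL] finite lists of constraints are definable. Uses `vd_inter, vd_par, vd_const, vd_eq,
vd_add, vd_mul` (other modules).

`ext0 x m = x ⟨m, _⟩` for `m < K + 1`. Each constraint `c` with `c.OK (K + 1)` gives
`VD K (fun _ => {x | c.Sat (ext0 x)})` (cases, convert the indices to `Fin (K + 1)`). Induction on
the list with `vd_inter`, starting with `vd_par`.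
-/

namespace Pool.Agent.H75.MX

theorem VALL_ext0 {K : ℕ} (x : Fin (K + 1) → ℕ) {m : ℕ} (h : m < K + 1) :
    ext0 x m = x ⟨m, h⟩ := by
  simp [ext0, h]

theorem VALL_one (K : ℕ) (c : Con) (h : c.OK (K + 1)) :
    VD K (fun _ => {x : Fin (K + 1) → ℕ | c.Sat (ext0 x)}) := by
  cases c with
  | cst i k =>
    have h1 : i < K + 1 := h
    have : (fun _ : ℕ => {x : Fin (K + 1) → ℕ | (Con.cst i k).Sat (ext0 x)}) =
        fun _ => {x | x ⟨i, h1⟩ = k} := by
      funext _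
      ext x
      show ext0 x i = k ↔ x ⟨i, h1⟩ = k
      rw [VALL_ext0 x h1]
    rw [this]
    exact vd_const _ _
  | eq i j =>
    obtain ⟨h1, h2, h3⟩ := h
    have : (fun _ : ℕ => {x : Fin (K + 1) → ℕ | (Con.eq i j).Sat (ext0 x)}) =
        fun _ => {x | x ⟨i, h1⟩ = x ⟨j, h2⟩} := by
      funext _
      ext x
      show ext0 x i = ext0 x j ↔ x ⟨i, h1⟩ = x ⟨j, h2⟩
      rw [VALL_ext0 x h1, VALL_ext0 x h2]
    rw [this]
    exact vd_eq (by simpa [Fin.ext_iff] using h3)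
  | add i j l =>
    obtain ⟨h1, h2, h3, h4, h5, h6⟩ := h
    have : (fun _ : ℕ => {x : Fin (K + 1) → ℕ | (Con.add i j l).Sat (ext0 x)}) =
        fun _ => {x | x ⟨l, h3⟩ = x ⟨i, h1⟩ + x ⟨j, h2⟩} := by
      funext _
      ext x
      show ext0 x l = ext0 x i + ext0 x j ↔ x ⟨l, h3⟩ = x ⟨i, h1⟩ + x ⟨j, h2⟩
      rw [VALL_ext0 x h1, VALL_ext0 x h2, VALL_ext0 x h3]
    rw [this]
    exact vd_add (by simpa [Fin.ext_iff] using h4) (by simpa [Fin.ext_iff] using h5)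
      (by simpa [Fin.ext_iff] using h6)
  | mul i j s l =>
    obtain ⟨h1, h2, h3, h4, h5, h6, h7, h8, h9, h10⟩ := h
    have : (fun _ : ℕ => {x : Fin (K + 1) → ℕ | (Con.mul i j s l).Sat (ext0 x)}) =
        fun _ => {x | x ⟨l, h4⟩ = x ⟨i, h1⟩ * x ⟨j, h2⟩ ∧ x ⟨s, h3⟩ = x ⟨l, h4⟩} := by
      funext _
      ext x
      show (ext0 x l = ext0 x i * ext0 x j ∧ ext0 x s = ext0 x l) ↔
        (x ⟨l, h4⟩ = x ⟨i, h1⟩ * x ⟨j, h2⟩ ∧ x ⟨s, h3⟩ = x ⟨l, h4⟩)
      rw [VALL_ext0 x h1, VALL_ext0 x h2, VALL_ext0 x h3, VALL_ext0 x h4]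
    rw [this]
    exact vd_mul (by simpa [Fin.ext_iff] using h5) (by simpa [Fin.ext_iff] using h6)
      (by simpa [Fin.ext_iff] using h7) (by simpa [Fin.ext_iff] using h8)
      (by simpa [Fin.ext_iff] using h9) (by simpa [Fin.ext_iff] using h10)

theorem vd_all (K : ℕ) (Γ : List Con) (h : ∀ c ∈ Γ, c.OK (K + 1)) :
    VD K (fun n => {x | x 0 = n ∧ ∀ c ∈ Γ, c.Sat (ext0 x)}) := by
  induction Γ with
  | nil => simpa using vd_par K
  | cons c Γ ih =>
    have h1 := ih fun c' hc' => h c' (List.mem_cons_of_mem _ hc')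
    have h2 := VALL_one K c (h c (List.mem_cons_self))
    have h3 := vd_inter h1 h2
    have : (fun n : ℕ => {x : Fin (K + 1) → ℕ | x 0 = n ∧ ∀ c' ∈ c :: Γ, c'.Sat (ext0 x)}) =
        fun n => {x | x 0 = n ∧ ∀ c ∈ Γ, c.Sat (ext0 x)} ∩ {x | c.Sat (ext0 x)} := by
      funext n
      ext x
      simp only [Set.mem_setOf_eq, Set.mem_inter_iff, List.forall_mem_cons]
      tauto
    rw [this]
    exact h3

end Pool.Agent.H75.MX
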