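import Mathlib
import Pool.Agent.H75.MX.MThm
import Pool.Agent.H75.MX.NSound
import Pool.Agent.H75.MX.NComp
import Pool.Agent.H75.MX.VAll
import Pool.Agent.H75.MX.PCon
import Pool.Agent.H75.MX.Cmp
import Pool.Agent.H96.DPRM.Main

set_option autoImplicit false

/-!
Assembly (helper75).
-/

namespace Pool.Agent.H75.MX

/-- a finite type containing all nonterminals -/
def finalEnc {K : ℕ} {Q : Type} : NTm K Q →
    (Fin 8 × Fin (Md K + 1) × ZMod (Md K)) ⊕ (Fin (K + 1) ⊕ (Q ⊕ (Q × Fin (K + 1))))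
  | NTm.A i => Sum.inl (0, 0, i)
  | NTm.D j i => Sum.inl (1, j, i)
  | NTm.SAA i => Sum.inl (2, 0, i)
  | NTm.SAD i => Sum.inl (3, 0, i)
  | NTm.SAB i => Sum.inl (4, 0, i)
  | NTm.SDD i => Sum.inl (5, 0, i)
  | NTm.SDA j i => Sum.inl (6, j.castSucc, i)
  | NTm.SAJ j i => Sum.inl (7, j.castSucc, i)
  | NTm.F l => Sum.inr (Sum.inl l)
  | NTm.R q => Sum.inr (Sum.inr (Sum.inl q))
  | NTm.I q i => Sum.inr (Sum.inr (Sum.inr (q, i)))

theorem finite_NTm (K : ℕ) (Q : Type) [Finite Q] : Finite (NTm K Q) := by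
  refine Finite.of_injective (finalEnc (K := K) (Q := Q)) ?_
  intro a b h
  cases a <;> cases b <;> simp [finalEnc] at h ⊢ <;> exact h

theorem final_leaf {K : ℕ} {Q : Type} (T : VS K Q) (q0 : Q) :
    ∀ X k, (nsys T q0).leaf X = some (some k) → 1 ≤ k := by
  intro X k h
  change nleaf T X = some (some k) at h
  cases X with
  | A i =>
    simp only [nleaf] at h
    split_ifs at h
    · simp only [Option.some.injEq] at h; omega
    · simp only [Option.some.injEq] at h; omega
  | D j i =>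
    simp only [nleaf] at h
    split_ifs at h
    simp only [Option.some.injEq] at h; omega
  | R q =>
    simp only [nleaf] at h
    split at h
    · cases h
    · simp only [Option.some.injEq] at h
      rw [← h]
      exact code_pos K 0
    · simp at h
  | _ => simp [nleaf] at h

theorem main_undecidable :
    ¬ (ComputablePred (fun L : List (ℤ × ℤ × ℤ × ℤ) =>
      ∃ M ∈ Subsemigroup.closure
          {N : Matrix (Fin 2) (Fin 2) ℤ |
            ∃ x ∈ L, N = !![x.1, x.2.1; x.2.2.1, x.2.2.2]},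
        M 0 0 = 0)) := by
  obtain ⟨k, P, hnc⟩ := Pool.Agent.H96.DPRM.exists_poly_not_computable
  intro hcomp
  apply hnc
  obtain ⟨N, Γ, hN, hOK, hsat⟩ := pcon k P
  obtain ⟨K, rfl⟩ : ∃ K, N = K + 1 := ⟨N - 1, by omega⟩
  obtain ⟨Q, fQ, T, q, hT⟩ := vd_all K Γ hOK
  have : Finite (NTm K Q) := finite_NTm K Q
  obtain ⟨p, L0, hL⟩ := matrices (nsys T q) (final_leaf T q)
  have key : ∀ n : ℕ, (∃ x : Fin k → ℕ,
      MvPolynomial.eval (Fin.cons (n : ℤ) (fun i => (x i : ℤ))) P = 0) ↔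
      ∃ M ∈ Subsemigroup.closure {N : Matrix (Fin 2) (Fin 2) ℤ |
          ∃ x ∈ L0.map (comb ((p : ℤ) ^ (4 * code K (Pi.single 0 n)))),
            N = !![x.1, x.2.1; x.2.2.1, x.2.2.2]}, M 0 0 = 0 := by
    intro n
    rw [hL _ (code_pos K _)]
    have hcons : ∀ x : Fin k → ℕ, (Fin.cons (n : ℤ) (fun i => (x i : ℤ)) : Fin (k + 1) → ℤ) =
        fun i => (((Fin.cons n x : Fin (k + 1) → ℕ) i : ℕ) : ℤ) := by
      intro x
      funext i
      refine Fin.cases ?_ (fun i => ?_) i <;> simp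
    constructor
    · rintro ⟨x, hx⟩
      rw [hcons, hsat] at hx
      obtain ⟨v, hv, hΓ⟩ := hx
      have hloc : ∀ m < K + 1, v m = ext0 (K := K) (fun i => v i.val) m := by
        intro m hm
        simp [ext0, hm]
      refine ⟨_, ncomp T q n ((hT n (fun i => v i.val)).2 ⟨?_, ?_⟩)⟩
      · have := hv 0
        simpa using this
      · intro c hc
        exact (sat_local (hOK c hc) hloc).1 (hΓ c hc)
    · rintro ⟨m, hm⟩
      obtain ⟨x, -, hx⟩ := nsound T q n hm
      obtain ⟨h0, hΓ⟩ := (hT n x).1 hx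
      refine ⟨fun i => ext0 x (i.val + 1), ?_⟩
      rw [hcons, hsat]
      refine ⟨ext0 x, fun i => ?_, hΓ⟩
      refine Fin.cases ?_ (fun i => ?_) i
      · have h0' : x 0 = n := h0
        simp only [Fin.val_zero, Fin.cons_zero]
        unfold ext0
        rw [dif_pos (by omega)]
        exact h0'
      · simp
  have hcl := comp_list p K L0
  obtain ⟨g, hg, hgf⟩ := ComputablePred.computable_iff.1 hcomp
  refine ComputablePred.computable_iff.2 ⟨fun n => g (L0.map (comb ((p : ℤ) ^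
    (4 * code K (Pi.single 0 n))))), hg.comp hcl, ?_⟩
  funext n
  have h3 := congrFun hgf (L0.map (comb ((p : ℤ) ^ (4 * code K (Pi.single 0 n)))))
  rw [← h3]
  exact propext (key n)

end Pool.Agent.H75.MX
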